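import Mathlib

/-!
# Distances in cycles and tori
-/

set_option autoImplicit false

open SimpleGraph

namespace Pool.Agent.Lib.MP_7f5033_co

/-- Cyclic distance of two naturals below `n`. -/
def cd (n a b : ℕ) : ℕ := min ((a - b) + (b - a)) (n - ((a - b) + (b - a)))

theorem cd_comm (n a b : ℕ) : cd n a b = cd n b a := by
  unfold cd; rw [Nat.add_comm]

theorem cd_self (n a : ℕ) : cd n a a = 0 := by
  unfold cd; simp

theorem cycle_adj {n : ℕ} (hn : 3 ≤ n) (u v : Fin n) :
    (cycleGraph n).Adj u v ↔ (u.val + 1 = v.val ∨ v.val + 1 = u.val ∨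
      (u.val = 0 ∧ v.val + 1 = n) ∨ (v.val = 0 ∧ u.val + 1 = n)) := by
  rw [cycleGraph_adj']
  have key : ∀ a b : Fin n, (a - b).val = 1 ↔ (b.val + 1 = a.val ∨ (a.val = 0 ∧ b.val + 1 = n)) := by
    intro a b
    have ha := a.isLt
    have hb := b.isLt
    rw [Fin.sub_def]
    simp only
    rcases lt_or_ge a.val b.val with h | h
    · rw [Nat.mod_eq_of_lt (by omega)]
      omega
    · have e : n - b.val + a.val = (a.val - b.val) + n := by omega
      rw [e, Nat.add_mod_right, Nat.mod_eq_of_lt (by omega)]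
      omega
  rw [key, key]
  constructor <;> intro h <;> omega

theorem cd_le_of_adj {n : ℕ} (hn : 3 ≤ n) {u v : Fin n} (w : Fin n) (h : (cycleGraph n).Adj u v) :
    cd n u.val w.val ≤ cd n v.val w.val + 1 := by
  rw [cycle_adj hn] at h
  have := u.isLt
  have := v.isLt
  have := w.isLt
  unfold cd
  omega

theorem cd_le_length {n : ℕ} (hn : 3 ≤ n) {u v : Fin n} (p : (cycleGraph n).Walk u v) :
    cd n u.val v.val ≤ p.length := by
  induction p with
  | nil => simp [cd_self]
  | cons h p ih =>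
    rw [Walk.length_cons]
    exact (cd_le_of_adj hn _ h).trans (by omega)

theorem exists_next {n : ℕ} (hn : 3 ≤ n) (u v : Fin n) (k : ℕ) (h : cd n u.val v.val = k + 1) :
    ∃ w : Fin n, (cycleGraph n).Adj u w ∧ cd n w.val v.val = k := by
  have hu := u.isLt
  have hv := v.isLt
  by_cases h1 : u.val < v.val
  · by_cases h2 : 2 * (v.val - u.val) ≤ n
    · refine ⟨⟨u.val + 1, by omega⟩, ?_, ?_⟩
      · rw [cycle_adj hn]; simp
      · unfold cd at h ⊢; simp only; omega
    · by_cases h3 : u.val = 0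
      · refine ⟨⟨n - 1, by omega⟩, ?_, ?_⟩
        · rw [cycle_adj hn]; simp only; omega
        · unfold cd at h ⊢; simp only; omega
      · refine ⟨⟨u.val - 1, by omega⟩, ?_, ?_⟩
        · rw [cycle_adj hn]; simp only; omega
        · unfold cd at h ⊢; simp only; omega
  · by_cases h2 : 2 * (u.val - v.val) ≤ n
    · refine ⟨⟨u.val - 1, by omega⟩, ?_, ?_⟩
      · rw [cycle_adj hn]; simp only; unfold cd at h; omega
      · unfold cd at h ⊢; simp only; omega
    · by_cases h3 : u.val + 1 = n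
      · refine ⟨⟨0, by omega⟩, ?_, ?_⟩
        · rw [cycle_adj hn]; simp [h3]
        · unfold cd at h ⊢; simp only; omega
      · refine ⟨⟨u.val + 1, by omega⟩, ?_, ?_⟩
        · rw [cycle_adj hn]; simp
        · unfold cd at h ⊢; simp only; omega

theorem exists_walk {n : ℕ} (hn : 3 ≤ n) (k : ℕ) : ∀ u v : Fin n, cd n u.val v.val = k →
    ∃ p : (cycleGraph n).Walk u v, p.length = k := by
  induction k with
  | zero =>
    intro u v h
    have hu := u.isLt
    have hv := v.isLt
    have : u = v := by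
      apply Fin.ext
      unfold cd at h
      omega
    subst this
    exact ⟨Walk.nil, rfl⟩
  | succ k ih =>
    intro u v h
    obtain ⟨w, hw, hk⟩ := exists_next hn u v k h
    obtain ⟨p, hp⟩ := ih w v hk
    exact ⟨Walk.cons hw p, by rw [Walk.length_cons, hp]⟩

theorem cycle_dist {n : ℕ} (hn : 3 ≤ n) (u v : Fin n) :
    (cycleGraph n).dist u v = cd n u.val v.val := by
  apply le_antisymm
  · obtain ⟨p, hp⟩ := exists_walk hn _ u v rfl
    rw [← hp]
    exact dist_le p
  · obtain ⟨p, hp⟩ := exists_walk hn _ u v rfl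
    obtain ⟨q, hq⟩ := (Walk.reachable p).exists_walk_length_eq_dist
    rw [← hq]
    exact cd_le_length hn q

theorem cycle_conn {n : ℕ} (hn : 3 ≤ n) : (cycleGraph n).Connected := by
  obtain ⟨m, rfl⟩ : ∃ m, n = m + 1 := ⟨n - 1, by omega⟩
  exact cycleGraph_connected

/-- Distance on the torus, in coordinates. -/
def td (s t : ℕ) (x y : ℕ × ℕ) : ℕ := cd s x.1 y.1 + cd t x.2 y.2

theorem torus_dist {s t : ℕ} (hs : 3 ≤ s) (ht : 3 ≤ t) (x y : Fin s × Fin t) :
    (cycleGraph s □ cycleGraph t).dist x y = cd s x.1.val y.1.val + cd t x.2.val y.2.val := by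
  have h := edist_boxProd (G := cycleGraph s) (H := cycleGraph t) x y
  have h1 : ((cycleGraph s).dist x.1 y.1 : ℕ∞) = (cycleGraph s).edist x.1 y.1 :=
    ((cycle_conn hs).preconnected x.1 y.1).coe_dist_eq_edist
  have h2 : ((cycleGraph t).dist x.2 y.2 : ℕ∞) = (cycleGraph t).edist x.2 y.2 :=
    ((cycle_conn ht).preconnected x.2 y.2).coe_dist_eq_edist
  have h3 : ((cycleGraph s □ cycleGraph t).dist x y : ℕ∞) =
      (cycleGraph s □ cycleGraph t).edist x y :=
    (((cycle_conn hs).boxProd (cycle_conn ht)).preconnected x y).coe_dist_eq_edist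
  rw [← h1, ← h2, ← h3] at h
  rw [← cycle_dist hs, ← cycle_dist ht]
  exact_mod_cast h

end Pool.Agent.Lib.MP_7f5033_co
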