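import Pool.Agent.Lib.MP_7f5033_co.Defs
import Pool.Agent.Lib.MP_7f5033_co.Dist

/-!
# Basic facts on resolving sets of the torus in coordinates
-/

set_option autoImplicit false

open SimpleGraph

namespace Pool.Agent.Lib.MP_7f5033_co

/-- The torus graph. -/
abbrev tor (s t : ℕ) : SimpleGraph (Fin s × Fin t) := cycleGraph s □ cycleGraph t

/-- Torus distance of two vertices, in coordinates. -/
def tdf {s t : ℕ} (x y : Fin s × Fin t) : ℕ := cd s x.1.val y.1.val + cd t x.2.val y.2.val

theorem msRep_eq {s t : ℕ} (hs : 3 ≤ s) (ht : 3 ≤ t) (S : Finset (Fin s × Fin t))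
    (x : Fin s × Fin t) : msRep (tor s t) S x = S.val.map (tdf x) := by
  unfold msRep
  apply Multiset.map_congr rfl
  intro u _
  exact torus_dist hs ht x u

theorem tdf_comm {s t : ℕ} (x y : Fin s × Fin t) : tdf x y = tdf y x := by
  unfold tdf
  rw [cd_comm s, cd_comm t]

theorem cd_eq_zero {n a b : ℕ} (ha : a < n) (hb : b < n) (h : cd n a b = 0) : a = b := by
  unfold cd at h
  omega

theorem tdf_eq_zero {s t : ℕ} {x y : Fin s × Fin t} (h : tdf x y = 0) : x = y := by
  unfold tdf at h
  have h1 : cd s x.1.val y.1.val = 0 := by omega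
  have h2 : cd t x.2.val y.2.val = 0 := by omega
  apply Prod.ext
  · exact Fin.ext (cd_eq_zero x.1.isLt y.1.isLt h1)
  · exact Fin.ext (cd_eq_zero x.2.isLt y.2.isLt h2)

theorem tdf_self {s t : ℕ} (x : Fin s × Fin t) : tdf x x = 0 := by
  unfold tdf
  rw [cd_self, cd_self]

theorem isOuterResolving_iff {s t : ℕ} (hs : 3 ≤ s) (ht : 3 ≤ t) (S : Finset (Fin s × Fin t)) :
    IsOuterResolving (tor s t) S ↔
      ∀ x y, x ∉ S → y ∉ S → S.val.map (tdf x) = S.val.map (tdf y) → x = y := by
  unfold IsOuterResolving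
  simp only [msRep_eq hs ht]

/-- An upper bound for `odim` from a list of points. -/
theorem odim_le_of_list {s t : ℕ} (hs : 3 ≤ s) (ht : 3 ≤ t) (L : List (Fin s × Fin t))
    (hnd : L.Nodup) (h : ∀ x y, x ∉ L → y ∉ L →
      ((L.map (tdf x) : List ℕ) : Multiset ℕ) = (L.map (tdf y) : List ℕ) → x = y) :
    odim (tor s t) ≤ L.length := by
  apply Nat.sInf_le
  refine ⟨⟨(L : Multiset (Fin s × Fin t)), by simpa using hnd⟩, by simp, ?_⟩
  rw [isOuterResolving_iff hs ht]
  intro x y hx hy hm
  apply h x y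
  · simpa using hx
  · simpa using hy
  · simpa using hm

/-- A lower bound for `odim`. -/
theorem le_odim {s t k : ℕ}
    (h : ∀ S : Finset (Fin s × Fin t), IsOuterResolving (tor s t) S → k ≤ S.card) :
    k ≤ odim (tor s t) := by
  unfold odim
  apply le_csInf
  · refine ⟨(Finset.univ : Finset (Fin s × Fin t)).card, Finset.univ, rfl, ?_⟩
    intro x y hx
    exact absurd (Finset.mem_univ x) hx
  · rintro b ⟨S, rfl, hS⟩
    exact h S hS

/-- Swapping the two factors. -/
theorem resolving_swap {s t : ℕ} (hs : 3 ≤ s) (ht : 3 ≤ t) (S : Finset (Fin s × Fin t))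
    (h : IsOuterResolving (tor s t) S) :
    IsOuterResolving (tor t s) (S.map (Equiv.prodComm _ _).toEmbedding) := by
  rw [isOuterResolving_iff ht hs]
  rw [isOuterResolving_iff hs ht] at h
  intro x y hx hy hm
  have hmem : ∀ z : Fin t × Fin s, z ∉ S.map (Equiv.prodComm (Fin s) (Fin t)).toEmbedding →
      z.swap ∉ S := by
    intro z hz hz'
    apply hz
    rw [Finset.mem_map]
    exact ⟨z.swap, hz', by simp⟩
  have key : ∀ z : Fin t × Fin s,
      ((S.map (Equiv.prodComm (Fin s) (Fin t)).toEmbedding).val.map (tdf z)) =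
      S.val.map (tdf z.swap) := by
    intro z
    rw [Finset.map_val, Multiset.map_map]
    apply Multiset.map_congr rfl
    intro u _
    simp only [Function.comp, tdf, Equiv.coe_toEmbedding, Equiv.prodComm_apply, Prod.fst_swap,
      Prod.snd_swap]
    exact Nat.add_comm _ _
  rw [key, key] at hm
  have := h x.swap y.swap (hmem x hx) (hmem y hy) hm
  exact Prod.swap_injective this

theorem odim_swap_le {s t : ℕ} (hs : 3 ≤ s) (ht : 3 ≤ t) : odim (tor t s) ≤ odim (tor s t) := by
  apply le_odim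
  intro S hS
  apply Nat.sInf_le
  exact ⟨_, by simp, resolving_swap hs ht S hS⟩

theorem odim_swap {s t : ℕ} (hs : 3 ≤ s) (ht : 3 ≤ t) : odim (tor t s) = odim (tor s t) :=
  le_antisymm (odim_swap_le hs ht) (odim_swap_le ht hs)

end Pool.Agent.Lib.MP_7f5033_co
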