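import Mathlib

/-!
# Certificate checker for non-resolving sets of a small torus

Points of the torus `C_s □ C_t` are stored as numbers `a * (2 * t) + b` with `a < s`, `b < t`.
All functions below work with plain natural numbers so that the kernel evaluates them fast.
-/

set_option autoImplicit false

namespace Pool.Agent.Lib.MP_7f5033_co

/-- `force f n = f n`; the kernel evaluates `n` first. -/
noncomputable def force (f : ℕ → ℕ) (n : ℕ) : ℕ :=
  Nat.rec (f 0) (fun m _ => f (Nat.succ m)) n

/-- Distance to `0` in the cycle of length `n`, for an unreduced argument. -/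
def cdm (n a : ℕ) : ℕ :=
  cond (Nat.ble (Nat.mul 2 (Nat.mod a n)) n) (Nat.mod a n) (Nat.sub n (Nat.mod a n))

/-- Distance to the origin of the point with extended index `i`. -/
def dd (s t i : ℕ) : ℕ :=
  Nat.add (cdm s (Nat.div i (Nat.mul 2 t))) (cdm t (Nat.mod i (Nat.mul 2 t)))

/-- The distance table: bit `l * r + i` is set if `dd i = r`. -/
noncomputable def mkM (s t l : ℕ) (n : ℕ) : ℕ :=
  Nat.rec 0 (fun i acc => Nat.lor acc (Nat.shiftLeft 1
    (Nat.add (Nat.mul l (dd s t i)) i))) n

/-- The table of the numbers `8 ^ dd i`, with digits of `w` bits. -/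
noncomputable def mkP (s t w : ℕ) (n : ℕ) : ℕ :=
  Nat.rec 0 (fun i acc => Nat.add acc (Nat.shiftLeft 1
    (Nat.add (Nat.mul 3 (dd s t i)) (Nat.mul w i)))) n

/-- Is the extended index `i` in the window? -/
def inWin (s t i : ℕ) : Bool :=
  and (Nat.blt (Nat.div i (Nat.mul 2 t)) s) (Nat.blt (Nat.mod i (Nat.mul 2 t)) t)

/-- The window: bit `i` is set if `i` is in the window. -/
noncomputable def mkW (s t : ℕ) (n : ℕ) : ℕ :=
  Nat.rec 0 (fun i acc => cond (inWin s t i) (Nat.lor acc (Nat.shiftLeft 1 i)) acc) n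

/-- Markers `2 ^ h` in the digits outside the window. -/
noncomputable def mkK (s t w h : ℕ) (n : ℕ) : ℕ :=
  Nat.rec 0 (fun i acc => cond (inWin s t i) acc
    (Nat.add acc (Nat.shiftLeft 1 (Nat.add h (Nat.mul w i))))) n

/-- Digit `x` of `F` in base `2 ^ w`. -/
def dig (w F x : ℕ) : ℕ := Nat.mod (Nat.shiftRight F (Nat.mul w x)) (Nat.pow 2 w)

/-- The mask of all extended indices at distance `r`. -/
def row (l M r : ℕ) : ℕ := Nat.mod (Nat.shiftRight M (Nat.mul l r)) (Nat.pow 2 l)

/-- Combine a number with its shift. -/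
def orsh (k z : ℕ) : ℕ := Nat.lor z (Nat.shiftRight z k)

/-- All extended indices `i` with `dd i = dd (i + d)`. -/
def bis (l M d : ℕ) : ℕ :=
  Nat.mod (orsh l (orsh (Nat.mul l 2) (orsh (Nat.mul l 4) (orsh (Nat.mul l 8)
    (orsh (Nat.mul l 16) (Nat.land M (Nat.shiftRight M d))))))) (Nat.pow 2 l)

/-- Points killed by a pair `x = y + d`, `y` with equal multisets. -/
noncomputable def killE (C w l M F G y d : ℕ) : ℕ :=
  Bool.rec (motive := fun _ => ℕ) 0
    (Nat.shiftRight (force (bis l M) d) (Nat.sub C (Nat.add y d)))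
    (Nat.beq (dig w F (Nat.add y d)) (dig w G y))

/-- Points killed by a pair `x`, `y` with multisets that differ in one element. -/
noncomputable def killG (C w l M F G x y a b : ℕ) : ℕ :=
  Bool.rec (motive := fun _ => ℕ) 0
    (Nat.land (Nat.shiftRight (force (row l M) a) (Nat.sub C x))
      (Nat.shiftRight (force (row l M) b) (Nat.sub C y)))
    (Nat.beq (Nat.add (dig w F x) (Nat.pow 8 a)) (Nat.add (dig w G y) (Nat.pow 8 b)))

/-- The set of last points killed by the code `c`. -/
noncomputable def kill (C w l R M F G c : ℕ) : ℕ :=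
  Bool.rec (motive := fun _ => ℕ)
    ((fun q =>
      killG C w l M F G (Nat.mod q R) (Nat.mod (Nat.div q R) R)
        (Nat.succ (Nat.mod (Nat.div (Nat.div q R) R) 16))
        (Nat.succ (Nat.succ (Nat.add (Nat.mod (Nat.div (Nat.div q R) R) 16)
          (Nat.div (Nat.div (Nat.div q R) R) 16)))))
      (Nat.div c 2))
    ((fun q => killE C w l M F G (Nat.mod q R) (Nat.succ (Nat.mod (Nat.div q R) R)))
      (Nat.div c 2))
    (Nat.beq (Nat.mod c 2) 0)

/-- Union of the sets killed by the first `n` codes stored in `body`. -/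
noncomputable def kills (C w l R M F G body : ℕ) (n : ℕ) : ℕ :=
  Nat.rec 0 (fun i acc => Nat.lor
    (kill C w l R M F G (Nat.mod (Nat.shiftRight body (Nat.mul 28 i)) 268435456)) acc) n

/-- The leaf check: all candidates in `K` are killed by some code. -/
noncomputable def leaf (C w l R M : ℕ) (c : ℕ) (F G K : ℕ) : Bool :=
  Nat.beq (Nat.land K (kills C w l R M F G (Nat.div c 64) (Nat.mod c 64))) K

/-- Add the point `v` to the first table. -/
def addF (C w h P F v : ℕ) : ℕ :=
  Nat.add (Nat.add F (Nat.shiftRight P (Nat.mul w (Nat.sub C v))))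
    (Nat.shiftLeft 1 (Nat.add h (Nat.mul w v)))

/-- Add the point `v` to the second table. -/
def addG (C w P G v : ℕ) : ℕ := Nat.add G (Nat.shiftRight P (Nat.mul w (Nat.sub C v)))

/-- The inner check: every candidate is added in turn; the order is stored in `vs`. -/
noncomputable def walk {α : Type} (C w h P ball : ℕ) (child : α → ℕ → ℕ → ℕ → Bool)
    (F G : ℕ) (cs : List α) : ℕ → ℕ → Bool :=
  List.rec (motive := fun _ => ℕ → ℕ → Bool) (fun _ K => Nat.beq K 0)
    (fun c _ ih vs K =>
      (fun v K' =>
        Bool.rec (motive := fun _ => Bool) false (ih (Nat.div vs 1024) K')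
          (child c (addF C w h P F v) (addG C w P G v)
            (Nat.land K' (Nat.shiftRight ball (Nat.sub C v)))))
        (Nat.mod vs 1024) (Nat.xor K (Nat.shiftLeft 1 (Nat.mod vs 1024)))) cs

/-- The inner check, for a certificate given as a pair. -/
noncomputable def walkP {α : Type} (C w h P ball : ℕ) (child : α → ℕ → ℕ → ℕ → Bool)
    (c : ℕ × List α) (F G K : ℕ) : Bool :=
  walk C w h P ball child F G c.2 c.1 K

/-- Union of the rows `1, ..., r` of the distance table. -/
noncomputable def mkBall (l M r : ℕ) : ℕ :=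
  Nat.rec 0 (fun i acc => Nat.lor acc (row l M (Nat.succ i))) r

/-- The check for the second point `u` at distance `r`. -/
noncomputable def top {α : Type} (C w h l M P win mark : ℕ)
    (chk : ℕ → α → ℕ → ℕ → ℕ → Bool) (c : α) (u r : ℕ) : Bool :=
  (fun ball =>
    chk ball c (addF C w h P (addF C w h P mark 0) u)
      (addG C w P (addG C w P (Nat.mul 2 mark) 0) u)
      (Nat.land win (Nat.land (Nat.shiftRight ball C) (Nat.shiftRight ball (Nat.sub C u)))))
    (force (mkBall l M) r)

/-- Check all second points `(a, b)`, `b = b0, b0 + 1, ...`. -/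
noncomputable def rowChk {α : Type} (f : α → ℕ → ℕ → Bool) (cs : List α) (W a : ℕ) (n : ℕ) :
    ℕ → Bool :=
  List.rec (motive := fun _ => ℕ → Bool) (fun b => Nat.beq b n)
    (fun c _ ih b => Bool.rec (motive := fun _ => Bool) false (ih (Nat.succ b))
      (f c (Nat.add (Nat.mul a W) b) (Nat.add a b))) cs

/-- Check all second points. -/
noncomputable def allChk {α : Type} (f : α → ℕ → ℕ → Bool) (cs : List (List α)) (W m n : ℕ) :
    ℕ → Bool :=
  List.rec (motive := fun _ => ℕ → Bool) (fun a => Nat.beq a m)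
    (fun c _ ih a => Bool.rec (motive := fun _ => Bool) false (ih (Nat.succ a))
      (rowChk f c W a n (Bool.rec (motive := fun _ => ℕ) 0 1 (Nat.beq a 0)))) cs

end Pool.Agent.Lib.MP_7f5033_co
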