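import Mathlib

/-!
# Outer multiset dimension of the torus: definitions

`msRep G S x` is the multiset of distances from `x` to the elements of `S`; `S` is an outer
multiset resolving set if these multisets are pairwise distinct for `x` outside `S`; `odim G` is
the smallest size of such a set.  `torusOdim s t` is the explicit value for the torus.
-/

set_option autoImplicit false

open SimpleGraph

namespace Pool.Agent.Lib.MP_7f5033_co

/-- The multiset representation of `x` with respect to `S`: the multiset of distances from `x` to
the elements of `S`. -/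
noncomputable def msRep {V : Type} (G : SimpleGraph V) (S : Finset V) (x : V) : Multiset ℕ :=
  S.val.map fun u => G.dist x u

/-- `S` is an outer multiset resolving set of `G`: the multiset representations of the vertices
outside `S` are pairwise distinct. -/
def IsOuterResolving {V : Type} (G : SimpleGraph V) (S : Finset V) : Prop :=
  ∀ x y : V, x ∉ S → y ∉ S → msRep G S x = msRep G S y → x = y

/-- The outer multiset dimension of `G`: the smallest cardinality of an outer multiset resolving
set. -/
noncomputable def odim {V : Type} (G : SimpleGraph V) : ℕ :=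
  sInf {k | ∃ S : Finset V, S.card = k ∧ IsOuterResolving G S}

/-- The value of the outer multiset dimension of the torus `C_a □ C_b` for `3 ≤ a ≤ b`. -/
def value (a b : ℕ) : ℕ :=
  if a = 3 ∧ b % 2 = 0 ∧ 12 ≤ b then 3
  else if a = 3 ∧ b = 3 then 8
  else if (a = 3 ∧ b = 5) ∨ (a = 4 ∧ b = 4) then 7
  else if (a = 5 ∧ b = 5) ∨ (a = 6 ∧ b = 6) then 6
  else if (a = 3 ∧ b = 8) ∨ (a = 3 ∧ b = 10) ∨ (a = 5 ∧ b = 10) then 4
  else if b ≤ 11 then 5
  else if b = 12 ∧ 7 ≤ a ∧ a % 2 = 1 then 5
  else if b = 13 ∧ 4 ≤ a then 5
  else if b = 14 ∧ 7 ≤ a ∧ a % 2 = 1 then 5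
  else if b = 17 ∧ 7 ≤ a ∧ a % 2 = 1 ∧ a ≠ 15 then 5
  else 4

/-- The explicit value of the outer multiset dimension of the torus `C_s □ C_t`, `s, t ≥ 3`. -/
def torusOdim (s t : ℕ) : ℕ := value (min s t) (max s t)

end Pool.Agent.Lib.MP_7f5033_co
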