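import Pool.Agent.Lib.MP_7f5033_co.FamBase

/-!
# First family of resolving sets: s even, t = 2h
-/

set_option autoImplicit false
set_option linter.unusedVariables false

namespace Pool.Agent.Lib.MP_7f5033_co

/-- Regimes of the second coordinate for the points `0, 3, h, h + 1` modulo `2 * h`. -/
def JPA (h j a b c d : ℤ) : Prop :=
  (a = j ∧ b = 3 - j ∧ c = h - j ∧ d = h + j - 1 ∧ 0 ≤ j ∧ j ≤ 1) ∨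
  (a = j ∧ b = 3 - j ∧ c = h - j ∧ d = h + 1 - j ∧ 2 ≤ j ∧ j ≤ 3) ∨
  (a = j ∧ b = j - 3 ∧ c = h - j ∧ d = h + 1 - j ∧ 4 ≤ j ∧ j ≤ h) ∨
  (a = 2 * h - j ∧ b = j - 3 ∧ c = j - h ∧ d = j - h - 1 ∧ h + 1 ≤ j ∧ j ≤ h + 3) ∨
  (a = 2 * h - j ∧ b = 2 * h + 3 - j ∧ c = j - h ∧ d = j - h - 1 ∧ h + 4 ≤ j ∧ j ≤ 2 * h - 1)

theorem jprofA {h j : ℕ} (hh : 7 ≤ h) (hj : j < 2 * h) :
    JPA h j (cd (2 * h) j 0) (cd (2 * h) j 3) (cd (2 * h) j (h)) (cd (2 * h) j (h + 1)) := by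
  unfold JPA cd
  rcases le_or_gt (j : ℤ) (1) with g0 | g0
  · left; refine ⟨?_, ?_, ?_, ?_, ?_, ?_⟩ <;> omega
  rcases le_or_gt (j : ℤ) (3) with g1 | g1
  · right; left; refine ⟨?_, ?_, ?_, ?_, ?_, ?_⟩ <;> omega
  rcases le_or_gt (j : ℤ) (h) with g2 | g2
  · right; right; left; refine ⟨?_, ?_, ?_, ?_, ?_, ?_⟩ <;> omega
  rcases le_or_gt (j : ℤ) (h + 3) with g3 | g3
  · right; right; right; left; refine ⟨?_, ?_, ?_, ?_, ?_, ?_⟩ <;> omega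
  right; right; right; right; refine ⟨?_, ?_, ?_, ?_, ?_, ?_⟩ <;> omega

theorem coreA {h j j' x e x' e' a b c d a' b' c' d' : ℤ} (hh : 7 ≤ h)
    (h1 : -1 ≤ e) (h2 : e ≤ 1) (h1' : -1 ≤ e') (h2' : e' ≤ 1)
    (k : e ≠ 0) (k' : e' ≠ 0)
    (hj : JPA h j a b c d) (hj' : JPA h j' a' b' c' d')
    (hm : P24 (x + a) (x + b) (x + c) (x + e + d) (x' + a') (x' + b') (x' + c') (x' + e' + d')) :
    x = x' ∧ e = e' ∧ j = j' := by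
  unfold JPA at hj hj'
  rcases hj with ⟨rfl, rfl, rfl, rfl, h3, h4⟩ | ⟨rfl, rfl, rfl, rfl, h3, h4⟩ | ⟨rfl, rfl, rfl, rfl, h3, h4⟩ | ⟨rfl, rfl, rfl, rfl, h3, h4⟩ | ⟨rfl, rfl, rfl, rfl, h3, h4⟩ <;>
  rcases hj' with ⟨rfl, rfl, rfl, rfl, h3', h4'⟩ | ⟨rfl, rfl, rfl, rfl, h3', h4'⟩ | ⟨rfl, rfl, rfl, rfl, h3', h4'⟩ | ⟨rfl, rfl, rfl, rfl, h3', h4'⟩ | ⟨rfl, rfl, rfl, rfl, h3', h4'⟩ <;>
  rcases hm with ⟨m0, m⟩ | ⟨m0, m⟩ | ⟨m0, m⟩ | ⟨m0, m⟩ <;>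
  rcases m with ⟨m1, m2, m3⟩ | ⟨m1, m2, m3⟩ | ⟨m1, m2, m3⟩ | ⟨m1, m2, m3⟩ | ⟨m1, m2, m3⟩ | ⟨m1, m2, m3⟩ <;> omega

end Pool.Agent.Lib.MP_7f5033_co
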