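import Pool.Agent.Lib.MP_7f5033_co.FamBase

/-!
# Second family of resolving sets: t = 2h + 1
-/

set_option autoImplicit false
set_option linter.unusedVariables false

namespace Pool.Agent.Lib.MP_7f5033_co

/-- Regimes of the second coordinate for the points `0, 4, h, h + 1` modulo `2 * h + 1`. -/
def JPB (h j a b c d : ℤ) : Prop :=
  (a = j ∧ b = 4 - j ∧ c = h - j ∧ d = h ∧ 0 ≤ j ∧ j ≤ 0) ∨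
  (a = j ∧ b = 4 - j ∧ c = h - j ∧ d = h + 1 - j ∧ 1 ≤ j ∧ j ≤ 4) ∨
  (a = j ∧ b = j - 4 ∧ c = h - j ∧ d = h + 1 - j ∧ 5 ≤ j ∧ j ≤ h) ∨
  (a = 2 * h + 1 - j ∧ b = j - 4 ∧ c = j - h ∧ d = j - h - 1 ∧ h + 1 ≤ j ∧ j ≤ h + 4) ∨
  (a = 2 * h + 1 - j ∧ b = 2 * h + 5 - j ∧ c = j - h ∧ d = j - h - 1 ∧ h + 5 ≤ j ∧ j ≤ 2 * h)

theorem jprofB {h j : ℕ} (hh : 9 ≤ h) (hj : j < 2 * h + 1) :
    JPB h j (cd (2 * h + 1) j 0) (cd (2 * h + 1) j 4) (cd (2 * h + 1) j (h)) (cd (2 * h + 1) j (h + 1)) := by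
  unfold JPB cd
  rcases le_or_gt (j : ℤ) (0) with g0 | g0
  · left; refine ⟨?_, ?_, ?_, ?_, ?_, ?_⟩ <;> omega
  rcases le_or_gt (j : ℤ) (4) with g1 | g1
  · right; left; refine ⟨?_, ?_, ?_, ?_, ?_, ?_⟩ <;> omega
  rcases le_or_gt (j : ℤ) (h) with g2 | g2
  · right; right; left; refine ⟨?_, ?_, ?_, ?_, ?_, ?_⟩ <;> omega
  rcases le_or_gt (j : ℤ) (h + 4) with g3 | g3
  · right; right; right; left; refine ⟨?_, ?_, ?_, ?_, ?_, ?_⟩ <;> omega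
  right; right; right; right; refine ⟨?_, ?_, ?_, ?_, ?_, ?_⟩ <;> omega

theorem coreB {h j j' x e x' e' a b c d a' b' c' d' : ℤ} (hh : 9 ≤ h)
    (h1 : -1 ≤ e) (h2 : e ≤ 1) (h1' : -1 ≤ e') (h2' : e' ≤ 1)
    (k : e ≠ 0 ∨ 2 * x' + e' ≤ 2 * x) (k' : e' ≠ 0 ∨ 2 * x + e ≤ 2 * x')
    (hj : JPB h j a b c d) (hj' : JPB h j' a' b' c' d')
    (hm : P24 (x + a) (x + b) (x + c) (x + e + d) (x' + a') (x' + b') (x' + c') (x' + e' + d')) :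
    x = x' ∧ e = e' ∧ j = j' := by
  unfold JPB at hj hj'
  rcases hj with ⟨rfl, rfl, rfl, rfl, h3, h4⟩ | ⟨rfl, rfl, rfl, rfl, h3, h4⟩ | ⟨rfl, rfl, rfl, rfl, h3, h4⟩ | ⟨rfl, rfl, rfl, rfl, h3, h4⟩ | ⟨rfl, rfl, rfl, rfl, h3, h4⟩ <;>
  rcases hj' with ⟨rfl, rfl, rfl, rfl, h3', h4'⟩ | ⟨rfl, rfl, rfl, rfl, h3', h4'⟩ | ⟨rfl, rfl, rfl, rfl, h3', h4'⟩ | ⟨rfl, rfl, rfl, rfl, h3', h4'⟩ | ⟨rfl, rfl, rfl, rfl, h3', h4'⟩ <;>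
  rcases hm with ⟨m0, m⟩ | ⟨m0, m⟩ | ⟨m0, m⟩ | ⟨m0, m⟩ <;>
  rcases m with ⟨m1, m2, m3⟩ | ⟨m1, m2, m3⟩ | ⟨m1, m2, m3⟩ | ⟨m1, m2, m3⟩ | ⟨m1, m2, m3⟩ | ⟨m1, m2, m3⟩ <;> omega

end Pool.Agent.Lib.MP_7f5033_co
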