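import Pool.Agent.Lib.MP_7f5033_co.Multi

/-!
# Preparation for the families of resolving sets
-/

set_option autoImplicit false
set_option linter.unusedVariables false

namespace Pool.Agent.Lib.MP_7f5033_co

/-- Equality of two four-element multisets as an explicit disjunction. -/
def P24 (a b c d a' b' c' d' : ℤ) : Prop :=
    (a = a' ∧ ((b = b' ∧ c = c' ∧ d = d') ∨ (b = b' ∧ c = d' ∧ d = c') ∨
      (b = c' ∧ c = b' ∧ d = d') ∨ (b = c' ∧ c = d' ∧ d = b') ∨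
      (b = d' ∧ c = b' ∧ d = c') ∨ (b = d' ∧ c = c' ∧ d = b'))) ∨
    (a = b' ∧ ((b = a' ∧ c = c' ∧ d = d') ∨ (b = a' ∧ c = d' ∧ d = c') ∨
      (b = c' ∧ c = a' ∧ d = d') ∨ (b = c' ∧ c = d' ∧ d = a') ∨
      (b = d' ∧ c = a' ∧ d = c') ∨ (b = d' ∧ c = c' ∧ d = a'))) ∨
    (a = c' ∧ ((b = a' ∧ c = b' ∧ d = d') ∨ (b = a' ∧ c = d' ∧ d = b') ∨
      (b = b' ∧ c = a' ∧ d = d') ∨ (b = b' ∧ c = d' ∧ d = a') ∨
      (b = d' ∧ c = a' ∧ d = b') ∨ (b = d' ∧ c = b' ∧ d = a'))) ∨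
    (a = d' ∧ ((b = a' ∧ c = b' ∧ d = c') ∨ (b = a' ∧ c = c' ∧ d = b') ∨
      (b = b' ∧ c = a' ∧ d = c') ∨ (b = b' ∧ c = c' ∧ d = a') ∨
      (b = c' ∧ c = a' ∧ d = b') ∨ (b = c' ∧ c = b' ∧ d = a')))

theorem p24_of_ms {a b c d a' b' c' d' : ℕ}
    (h : ({a, b, c, d} : Multiset ℕ) = {a', b', c', d'}) :
    P24 a b c d a' b' c' d' := by
  have := ms_four' h
  unfold P24
  exact_mod_cast this

/-- Regime of the first coordinate: `x` is the distance to `0` and `x + e` the distance to `1`. -/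
def IP (s i x e : ℤ) : Prop :=
  -1 ≤ e ∧ e ≤ 1 ∧ 2 * x + e + 1 ≤ s ∧ (e ≠ 0 ∨ 2 * x + 1 = s) ∧
  ((e = -1 ∧ i = x) ∨ (e = 0 ∧ i = x + 1) ∨ (e = 1 ∧ ((i = 0 ∧ x = 0) ∨ (1 ≤ x ∧ i + x = s))))

theorem iprof {s i : ℕ} (hs : 3 ≤ s) (hi : i < s) :
    ∃ e : ℤ, (cd s i 1 : ℤ) = cd s i 0 + e ∧ IP s i (cd s i 0) e := by
  unfold IP
  rcases lt_trichotomy (2 * i) (s + 1) with h | h | h
  · rcases Nat.eq_zero_or_pos i with h0 | h0
    · refine ⟨1, ?_, ?_⟩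
      · unfold cd; omega
      · have : cd s i 0 = 0 := by unfold cd; omega
        rw [this]; omega
    · refine ⟨-1, ?_, ?_⟩
      · unfold cd; omega
      · have : cd s i 0 = i := by unfold cd; omega
        rw [this]; omega
  · refine ⟨0, ?_, ?_⟩
    · unfold cd; omega
    · have : cd s i 0 = s - i := by unfold cd; omega
      rw [this]; omega
  · refine ⟨1, ?_, ?_⟩
    · unfold cd; omega
    · have : cd s i 0 = s - i := by unfold cd; omega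
      rw [this]; omega

theorem ip_inj {s i i' x e : ℤ} (h : IP s i x e) (h' : IP s i' x e) : i = i' := by
  unfold IP at h h'
  omega

end Pool.Agent.Lib.MP_7f5033_co
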