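import Pool.Agent.Lib.MP_7f5033_co.Lower3

/-!
# The outer multiset dimension of the torus is at least four, apart from exceptions
-/

set_option autoImplicit false

open SimpleGraph

namespace Pool.Agent.Lib.MP_7f5033_co

theorem tdf_eq_nt {m l : ℕ} (x y : Fin (m + 1) × Fin (l + 1)) :
    tdf x y = nt ((id x : ZMod (m + 1) × ZMod (l + 1)) - (id y : ZMod (m + 1) × ZMod (l + 1))) := by
  have h1 := cd_eq_nz (n := m + 1) (id x.1 : ZMod (m + 1)) (id y.1 : ZMod (m + 1))
  have h2 := cd_eq_nz (n := l + 1) (id x.2 : ZMod (l + 1)) (id y.2 : ZMod (l + 1))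
  unfold tdf nt
  exact congrArg₂ (· + ·) h1 h2

/-- Non-resolving sets from a pair of vertices. -/
theorem not_res {m l : ℕ} (hs : 3 ≤ m + 1) (ht : 3 ≤ l + 1)
    (S : Finset (Fin (m + 1) × Fin (l + 1))) (x y : ZMod (m + 1) × ZMod (l + 1))
    (hxy : x ≠ y) (hx : (id x : Fin (m + 1) × Fin (l + 1)) ∉ S)
    (hy : (id y : Fin (m + 1) × Fin (l + 1)) ∉ S)
    (h : S.val.map (fun u => nt (x - (id u : ZMod (m + 1) × ZMod (l + 1)))) =
      S.val.map (fun u => nt (y - (id u : ZMod (m + 1) × ZMod (l + 1))))) :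
    ¬ IsOuterResolving (tor (m + 1) (l + 1)) S := by
  rw [isOuterResolving_iff hs ht]
  intro hR
  apply hxy
  apply hR x y hx hy
  have e : ∀ z : ZMod (m + 1) × ZMod (l + 1),
      S.val.map (tdf (s := m + 1) (t := l + 1) z) =
      S.val.map (fun u => nt (z - (id u : ZMod (m + 1) × ZMod (l + 1)))) := by
    intro z
    apply Multiset.map_congr rfl
    intro u _
    exact tdf_eq_nt _ _
  rw [e, e]
  exact h

theorem not_res_zero {m l : ℕ} (hs : 3 ≤ m + 1) (ht : 3 ≤ l + 1)
    (S : Finset (Fin (m + 1) × Fin (l + 1))) (hS : S.card = 0) :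
    ¬ IsOuterResolving (tor (m + 1) (l + 1)) S := by
  rw [Finset.card_eq_zero] at hS
  subst hS
  apply not_res hs ht _ ((1 : ZMod (m + 1)), (0 : ZMod (l + 1))) (-1, 0)
  · intro h
    exact one_ne_neg_one hs (congrArg Prod.fst h)
  · simp
  · simp
  · rfl

theorem one_ne_zero' {n : ℕ} [NeZero n] (hn : 3 ≤ n) : (1 : ZMod n) ≠ 0 := by
  have := natCast_ne (n := n) (a := 1) (b := 0) (by omega) (by omega) (by omega)
  simpa using this

theorem not_res_one {m l : ℕ} (hs : 3 ≤ m + 1) (ht : 3 ≤ l + 1)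
    (S : Finset (Fin (m + 1) × Fin (l + 1))) (hS : S.card = 1) :
    ¬ IsOuterResolving (tor (m + 1) (l + 1)) S := by
  rw [Finset.card_eq_one] at hS
  obtain ⟨a, rfl⟩ := hS
  set a' : ZMod (m + 1) × ZMod (l + 1) := a with ha'
  apply not_res hs ht _ (a' + (1, 0)) (a' - (1, 0))
  · intro h
    have h1 : (1 : ZMod (m + 1)) = -1 := by
      have := congrArg Prod.fst h
      simp only [Prod.fst_add, Prod.fst_sub] at this
      linear_combination this
    exact one_ne_neg_one hs h1
  · intro h
    rw [Finset.mem_singleton] at h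
    have h0 : a' + (1, 0) = a' := h
    have h1 : (1 : ZMod (m + 1)) = 0 := by
      have := congrArg Prod.fst h0
      simp only [Prod.fst_add] at this
      linear_combination this
    exact one_ne_zero' hs h1
  · intro h
    rw [Finset.mem_singleton] at h
    have h0 : a' - (1, 0) = a' := h
    have h1 : (1 : ZMod (m + 1)) = 0 := by
      have := congrArg Prod.fst h0
      simp only [Prod.fst_sub] at this
      linear_combination -this
    exact one_ne_zero' hs h1
  · change ({nt (a' + (1, 0) - a')} : Multiset ℕ) = {nt (a' - (1, 0) - a')}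
    have e1 : a' + (1, 0) - a' = (1, 0) := by ring
    have e2 : a' - (1, 0) - a' = -(1, 0) := by ring
    rw [e1, e2, nt_neg]

theorem exists_third {n : ℕ} [NeZero n] (hn : 3 ≤ n) (x y : ZMod n) :
    ∃ z : ZMod n, z ≠ x ∧ z ≠ y := by
  by_contra hcon
  push Not at hcon
  have h0 := hcon 0
  have h1 := hcon 1
  have h2 := hcon 2
  have n01 := one_ne_zero' hn
  have n12 := one_ne_two hn
  have n02 : (2 : ZMod n) ≠ 0 := by
    have := natCast_ne (n := n) (a := 2) (b := 0) (by omega) (by omega) (by omega)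
    simpa using this
  by_cases a0 : (0 : ZMod n) = x
  · have a1 := h1 (by rw [← a0]; exact n01)
    have a2 := h2 (by rw [← a0]; exact n02)
    exact n12 (a1.trans a2.symm)
  · have b0 := h0 a0
    by_cases a1 : (1 : ZMod n) = x
    · have a2 := h2 (by rw [← a1]; exact n12.symm)
      exact n02 (a2.trans b0.symm)
    · exact n01 ((h1 a1).trans b0.symm)

theorem not_res_two {m l : ℕ} (hs : 3 ≤ m + 1) (ht : 3 ≤ l + 1)
    (S : Finset (Fin (m + 1) × Fin (l + 1))) (hS : S.card = 2) :
    ¬ IsOuterResolving (tor (m + 1) (l + 1)) S := by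
  rw [Finset.card_eq_two] at hS
  obtain ⟨a, b, hab, rfl⟩ := hS
  set a' : ZMod (m + 1) × ZMod (l + 1) := a with ha'
  set b' : ZMod (m + 1) × ZMod (l + 1) := b with hb'
  obtain ⟨e, hea, heb⟩ := exists_third ht a'.2 b'.2
  have key : ∀ x : ZMod (m + 1) × ZMod (l + 1), x.2 = e → x ≠ a' + b' - x →
      ¬ IsOuterResolving (tor (m + 1) (l + 1)) {a, b} := by
    intro x hx hne
    have hxa : x ≠ a' := by
      intro h
      apply hea
      rw [← hx, h]
    have hxb : x ≠ b' := by
      intro h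
      apply heb
      rw [← hx, h]
    apply not_res hs ht _ x (a' + b' - x) hne
    · simp only [Finset.mem_insert, Finset.mem_singleton, not_or]
      exact ⟨hxa, hxb⟩
    · simp only [Finset.mem_insert, Finset.mem_singleton, not_or]
      refine ⟨?_, ?_⟩
      · intro h
        apply hxb
        have h' : a' + b' - x = a' := h
        linear_combination -h'
      · intro h
        apply hxa
        have h' : a' + b' - x = b' := h
        linear_combination -h'
    · rw [Finset.insert_val_of_notMem (by simpa using hab)]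
      change ({nt (x - a'), nt (x - b')} : Multiset ℕ) =
        {nt (a' + b' - x - a'), nt (a' + b' - x - b')}
      have e1 : a' + b' - x - a' = -(x - b') := by ring
      have e2 : a' + b' - x - b' = -(x - a') := by ring
      rw [e1, e2, nt_neg, nt_neg]
      exact Multiset.pair_comm _ _
  by_cases h0 : ((0 : ZMod (m + 1)), e) = a' + b' - (0, e)
  · refine key (1, e) rfl ?_
    intro h1
    have h2 : (1 : ZMod (m + 1)) = -1 := by
      have f0 := congrArg Prod.fst h0
      have f1 := congrArg Prod.fst h1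
      simp only [Prod.fst_sub, Prod.fst_add] at f0 f1
      linear_combination f1 - f0
    exact one_ne_neg_one hs h2
  · exact key (0, e) rfl h0

theorem not_res_three {m l : ℕ} (hs : 3 ≤ m + 1) (ht : 3 ≤ l + 1)
    (S : Finset (Fin (m + 1) × Fin (l + 1))) (hS : S.card = 3)
    (hbad : ∀ a b c : ZMod (m + 1) × ZMod (l + 1), Bad3 a b c) :
    ¬ IsOuterResolving (tor (m + 1) (l + 1)) S := by
  rw [Finset.card_eq_three] at hS
  obtain ⟨a, b, c, hab, hac, hbc, rfl⟩ := hS
  obtain ⟨x, y, hxy, ⟨h1, h2, h3⟩, ⟨h4, h5, h6⟩, h7⟩ := hbad a b c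
  apply not_res hs ht _ x y hxy
  · simp only [Finset.mem_insert, Finset.mem_singleton, not_or]
    exact ⟨h1, h2, h3⟩
  · simp only [Finset.mem_insert, Finset.mem_singleton, not_or]
    exact ⟨h4, h5, h6⟩
  · rw [Finset.insert_val_of_notMem (by simp [hab, hac]),
      Finset.insert_val_of_notMem (by simpa using hbc)]
    exact h7

/-- At least three elements are always needed. -/
theorem three_le_card {s t : ℕ} (hs : 3 ≤ s) (ht : 3 ≤ t) (S : Finset (Fin s × Fin t))
    (hS : IsOuterResolving (tor s t) S) : 3 ≤ S.card := by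
  obtain ⟨m, rfl⟩ : ∃ m, s = m + 1 := ⟨s - 1, by omega⟩
  obtain ⟨l, rfl⟩ : ∃ l, t = l + 1 := ⟨t - 1, by omega⟩
  by_contra hcon
  have : S.card = 0 ∨ S.card = 1 ∨ S.card = 2 := by omega
  rcases this with h | h | h
  · exact not_res_zero hs ht S h hS
  · exact not_res_one hs ht S h hS
  · exact not_res_two hs ht S h hS

/-- The condition under which no three elements resolve the torus. -/
def NoThree (s t : ℕ) : Prop :=
  (s % 2 = 1 ∧ t % 2 = 1 ∧ 5 ≤ t) ∨ (s % 2 = 0 ∧ t % 2 = 0 ∧ (6 ≤ s ∨ 6 ≤ t)) ∨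
  (s % 2 = 1 ∧ t % 2 = 0 ∧ 5 ≤ s)

theorem bad_of_noThree {m l : ℕ} (hs : 3 ≤ m + 1) (ht : 3 ≤ l + 1) (h : NoThree (m + 1) (l + 1))
    (a b c : ZMod (m + 1) × ZMod (l + 1)) : Bad3 a b c := by
  rcases h with ⟨h1, h2, h3⟩ | ⟨h1, h2, h3⟩ | ⟨h1, h2, h3⟩
  · by_cases h5 : m + 1 = 3
    · obtain rfl : m = 2 := by omega
      exact bad_three_odd h2 h3 a b c
    · exact bad_odd_odd h1 h2 (by omega) h3 a b c
  · exact bad_even_even h1 h2 (by omega) (by omega) h3 a b c
  · by_cases h5 : l + 1 = 4
    · obtain rfl : l = 3 := by omega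
      exact bad_odd_four h1 h3 a b c
    · exact bad_odd_even h1 h2 h3 (by omega) a b c

theorem four_le_card {s t : ℕ} (hs : 3 ≤ s) (ht : 3 ≤ t) (h : NoThree s t)
    (S : Finset (Fin s × Fin t)) (hS : IsOuterResolving (tor s t) S) : 4 ≤ S.card := by
  have h3 := three_le_card hs ht S hS
  obtain ⟨m, rfl⟩ : ∃ m, s = m + 1 := ⟨s - 1, by omega⟩
  obtain ⟨l, rfl⟩ : ∃ l, t = l + 1 := ⟨t - 1, by omega⟩
  by_contra hcon
  have hc : S.card = 3 := by omega
  exact not_res_three hs ht S hc (bad_of_noThree hs ht h) hS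

/-- The previous bound, with the factors in either order. -/
theorem four_le_card' {s t : ℕ} (hs : 3 ≤ s) (ht : 3 ≤ t) (h : NoThree s t ∨ NoThree t s)
    (S : Finset (Fin s × Fin t)) (hS : IsOuterResolving (tor s t) S) : 4 ≤ S.card := by
  rcases h with h | h
  · exact four_le_card hs ht h S hS
  · have := four_le_card ht hs h _ (resolving_swap hs ht S hS)
    rwa [Finset.card_map] at this

end Pool.Agent.Lib.MP_7f5033_co
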