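import Pool.Agent.Lib.MP_7f5033_co.Sound3

/-!
# Upper bounds for single tori by a finite check
-/

set_option autoImplicit false

open SimpleGraph

namespace Pool.Agent.Lib.MP_7f5033_co

/-- Sum of powers of `8` of the distances from the point `i` to the points of `L`; points are
stored as `a * t + b`. -/
noncomputable def VL (s t : ℕ) (L : List ℕ) (i : ℕ) : ℕ :=
  List.rec (motive := fun _ => ℕ) 0 (fun u _ acc =>
    Nat.add (Nat.pow 8 (Nat.add (cd s (Nat.div i t) (Nat.div u t))
      (cd t (Nat.mod i t) (Nat.mod u t)))) acc) L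

/-- Is the value at `i` different from the values at all `j < n`? -/
noncomputable def differs (V : ℕ → ℕ) (i : ℕ) (n : ℕ) : Bool :=
  Nat.rec (motive := fun _ => Bool) true (fun j ih =>
    Bool.rec (motive := fun _ => Bool) ih false (Nat.beq (V i) (V j))) n

/-- Are the values at the points outside `L` pairwise different? -/
noncomputable def uniq (V : ℕ → ℕ) (n : ℕ) : Bool :=
  Nat.rec (motive := fun _ => Bool) true (fun i ih =>
    Bool.rec (motive := fun _ => Bool) ih
      (Bool.rec (motive := fun _ => Bool) false ih (differs V i i))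
      (Nat.beq (Nat.mod (V i) 8) 0)) n

theorem differs_sound {V : ℕ → ℕ} {i n : ℕ} (h : differs V i n = true) :
    ∀ j < n, V i ≠ V j := by
  induction n with
  | zero => intro j hj; omega
  | succ n ih =>
    have h' : (Bool.rec (motive := fun _ => Bool) (differs V i n) false
      (Nat.beq (V i) (V n)) : Bool) = true := h
    cases hb : Nat.beq (V i) (V n) with
    | true =>
      rw [hb] at h'
      cases h'
    | false =>
      rw [hb] at h'
      intro j hj
      rcases Nat.lt_succ_iff_lt_or_eq.1 hj with h1 | h1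
      · exact ih h' j h1
      · subst h1
        intro he
        rw [he, Nat.beq_refl] at hb
        cases hb

theorem uniq_sound {V : ℕ → ℕ} {n : ℕ} (h : uniq V n = true) :
    ∀ i < n, V i % 8 = 0 → ∀ j < i, V i ≠ V j := by
  induction n with
  | zero => intro i hi; omega
  | succ n ih =>
    have h' : (Bool.rec (motive := fun _ => Bool) (uniq V n)
      (Bool.rec (motive := fun _ => Bool) false (uniq V n) (differs V n n))
      (Nat.beq (V n % 8) 0) : Bool) = true := h
    cases hb : Nat.beq (V n % 8) 0 with
    | false =>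
      rw [hb] at h'
      intro i hi hi8
      rcases Nat.lt_succ_iff_lt_or_eq.1 hi with h1 | h1
      · exact ih h' i h1 hi8
      · subst h1
        rw [hi8] at hb
        cases hb
    | true =>
      rw [hb] at h'
      obtain ⟨h2, h3⟩ := boolrec_bool h'
      intro i hi hi8
      rcases Nat.lt_succ_iff_lt_or_eq.1 hi with h1 | h1
      · exact ih h3 i h1 hi8
      · subst h1
        exact differs_sound h2

/-- The vertex with number `u`. -/
def ptOf (s t : ℕ) (hs : 0 < s) (ht : 0 < t) (u : ℕ) : Fin s × Fin t :=
  (⟨(u / t) % s, Nat.mod_lt _ hs⟩, ⟨u % t, Nat.mod_lt _ ht⟩)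

theorem num_lt {s t : ℕ} (x : Fin s × Fin t) : x.1.val * t + x.2.val < s * t := by
  have h1 := x.1.isLt
  have h2 := x.2.isLt
  calc x.1.val * t + x.2.val < x.1.val * t + t := by omega
    _ = (x.1.val + 1) * t := by ring
    _ ≤ s * t := Nat.mul_le_mul_right _ h1

theorem num_div {s t : ℕ} (x : Fin s × Fin t) : (x.1.val * t + x.2.val) / t = x.1.val := by
  have h2 := x.2.isLt
  rw [Nat.mul_comm, Nat.mul_add_div (by omega), Nat.div_eq_of_lt h2, add_zero]

theorem num_mod {s t : ℕ} (x : Fin s × Fin t) : (x.1.val * t + x.2.val) % t = x.2.val := by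
  have h2 := x.2.isLt
  rw [Nat.mul_comm, Nat.mul_add_mod, Nat.mod_eq_of_lt h2]

theorem VL_eq {s t : ℕ} (hs : 0 < s) (ht : 0 < t) (L : List ℕ) (hL : ∀ u ∈ L, u < s * t)
    (x : Fin s × Fin t) :
    VL s t L (x.1.val * t + x.2.val) =
      (((L.map (ptOf s t hs ht)).map (tdf x)).map (fun a => 8 ^ a)).sum := by
  induction L with
  | nil => rfl
  | cons u L ih =>
    have e : VL s t (u :: L) (x.1.val * t + x.2.val) =
      8 ^ (cd s ((x.1.val * t + x.2.val) / t) (u / t) +
        cd t ((x.1.val * t + x.2.val) % t) (u % t)) + VL s t L (x.1.val * t + x.2.val) := rfl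
    rw [e, ih (fun v hv => hL v (List.mem_cons_of_mem _ hv)), num_div, num_mod]
    simp only [List.map_cons, List.sum_cons]
    congr 2
    unfold tdf ptOf
    simp only
    have hu : u / t < s := by
      apply (Nat.div_lt_iff_lt_mul ht).2
      exact hL u (List.mem_cons_self)
    rw [Nat.mod_eq_of_lt hu]

/-- Upper bound for `odim` from the finite check. -/
theorem odim_le_of_uniq {s t n k : ℕ} (hs : 3 ≤ s) (ht : 3 ≤ t) (L : List ℕ)
    (hL : ∀ u ∈ L, u < s * t) (hnd : L.Nodup) (hn : s * t = n) (hk : L.length = k)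
    (h : uniq (VL s t L) n = true) : odim (tor s t) ≤ k := by
  have h0s : 0 < s := by omega
  have h0t : 0 < t := by omega
  have hnd' : (L.map (ptOf s t h0s h0t)).Nodup := by
    apply List.Nodup.map_on _ hnd
    intro u hu v hv huv
    unfold ptOf at huv
    have h1 := congrArg (fun z => z.1.val) huv
    have h2 := congrArg (fun z => z.2.val) huv
    simp only at h1 h2
    rw [Nat.mod_eq_of_lt ((Nat.div_lt_iff_lt_mul h0t).2 (hL u hu)),
      Nat.mod_eq_of_lt ((Nat.div_lt_iff_lt_mul h0t).2 (hL v hv))] at h1
    rw [← Nat.div_add_mod u t, ← Nat.div_add_mod v t, h1, h2]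
  have := odim_le_of_list hs ht (L.map (ptOf s t h0s h0t)) hnd' (by
    intro x y hx hy hm
    have hsum : VL s t L (x.1.val * t + x.2.val) = VL s t L (y.1.val * t + y.2.val) := by
      rw [VL_eq h0s h0t L hL, VL_eq h0s h0t L hL]
      have := congrArg (fun m => (Multiset.map (fun a => 8 ^ a) m).sum) hm
      simpa using this
    have hmod : ∀ z : Fin s × Fin t, z ∉ L.map (ptOf s t h0s h0t) →
        VL s t L (z.1.val * t + z.2.val) % 8 = 0 := by
      intro z hz
      rw [VL_eq h0s h0t L hL]
      generalize L.map (ptOf s t h0s h0t) = L' at hz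
      induction L' with
      | nil => rfl
      | cons a L' ih =>
        rw [List.mem_cons, not_or] at hz
        simp only [List.map_cons, List.sum_cons]
        rw [Nat.add_mod, ih hz.2, pow8_mod (fun h0 => hz.1 (tdf_eq_zero h0))]
    have hnum : x.1.val * t + x.2.val = y.1.val * t + y.2.val := by
      rcases lt_trichotomy (x.1.val * t + x.2.val) (y.1.val * t + y.2.val) with h1 | h1 | h1
      · exact absurd hsum.symm (uniq_sound h _ (hn ▸ num_lt y) (hmod y hy) _ h1)
      · exact h1
      · exact absurd hsum (uniq_sound h _ (hn ▸ num_lt x) (hmod x hx) _ h1)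
    apply Prod.ext
    · apply Fin.ext
      rw [← num_div x, ← num_div y, hnum]
    · apply Fin.ext
      rw [← num_mod x, ← num_mod y, hnum])
  rw [List.length_map, hk] at this
  exact this

end Pool.Agent.Lib.MP_7f5033_co
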