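import Pool.Agent.Lib.MP_7f5033_co.Basic
import Pool.Agent.Lib.MP_7f5033_co.FamBase

/-!
# Families of resolving sets with a fixed second cycle length
-/

set_option autoImplicit false

open SimpleGraph

namespace Pool.Agent.Lib.MP_7f5033_co

/-- Four points `(0,0), (0,a), (0,b), (1,c)` resolve the torus if the sums of powers of `8` with
the distances as exponents determine the coordinates. -/
theorem odim_le_four_pow {s t : ℕ} (hs : 3 ≤ s) (ht : 3 ≤ t) (a b c : ℕ) (ha : a < t) (hb : b < t)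
    (hc : c < t) (ha0 : a ≠ 0) (hb0 : b ≠ 0) (hab : a ≠ b)
    (h : ∀ i j i' j' : ℕ, i < s → j < t → i' < s → j' < t →
      8 ^ (cd s i 0 + cd t j 0 + 1) + 8 ^ (cd s i 0 + cd t j a + 1) +
        8 ^ (cd s i 0 + cd t j b + 1) + 8 ^ (cd s i 1 + cd t j c + 1) =
      8 ^ (cd s i' 0 + cd t j' 0 + 1) + 8 ^ (cd s i' 0 + cd t j' a + 1) +
        8 ^ (cd s i' 0 + cd t j' b + 1) + 8 ^ (cd s i' 1 + cd t j' c + 1) → i = i' ∧ j = j') :
    odim (tor s t) ≤ 4 := by
  have := odim_le_of_list hs ht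
    [(⟨0, by omega⟩, ⟨0, by omega⟩), (⟨0, by omega⟩, ⟨a, ha⟩), (⟨0, by omega⟩, ⟨b, hb⟩),
      (⟨1, by omega⟩, ⟨c, hc⟩)] (by
        simp [ha0.symm, hb0.symm, hab]) (by
    intro x y _ _ hm
    have h1 : ({cd s x.1.val 0 + cd t x.2.val 0, cd s x.1.val 0 + cd t x.2.val a,
        cd s x.1.val 0 + cd t x.2.val b, cd s x.1.val 1 + cd t x.2.val c} : Multiset ℕ) =
        {cd s y.1.val 0 + cd t y.2.val 0, cd s y.1.val 0 + cd t y.2.val a,
        cd s y.1.val 0 + cd t y.2.val b, cd s y.1.val 1 + cd t y.2.val c} := hm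
    have h2 := congrArg (fun m => (m.map (fun z => 8 ^ (z + 1))).sum) h1
    simp only [Multiset.insert_eq_cons, Multiset.map_cons, Multiset.map_singleton,
      Multiset.sum_cons, Multiset.sum_singleton] at h2
    have h3 := h _ _ _ _ x.1.isLt x.2.isLt y.1.isLt y.2.isLt (by
      omega)
    apply Prod.ext
    · exact Fin.ext h3.1
    · exact Fin.ext h3.2)
  simpa using this

/-- The sum of powers of `8` for second coordinate `j` and shift `k`. -/
def G (t a b c j k : ℕ) : ℕ :=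
  8 ^ (cd t j 0 + 1) + 8 ^ (cd t j a + 1) + 8 ^ (cd t j b + 1) + 8 ^ (cd t j c + k)

/-- The finite check for a fixed `t`. -/
def litCheck (t a b c : ℕ) (ev : Bool) : Bool :=
  ((List.range t).all fun j => (List.range 3).all fun k => Nat.blt (G t a b c j k) (8 ^ t)) &&
  (List.range t).all fun j => (List.range 3).all fun k => (List.range t).all fun j' =>
    (List.range 3).all fun k' => (List.range t).all fun δ =>
    (ev && (Nat.beq k 1 || Nat.beq k' 1)) || (Nat.beq k 1 && (Nat.blt 0 δ || Nat.blt 1 k')) ||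
    (Nat.beq k' 1 && Nat.blt (2 * δ + 1) k) || (Nat.beq δ 0 && Nat.beq j j' && Nat.beq k k') ||
    !(Nat.beq (G t a b c j k) (8 ^ δ * G t a b c j' k'))

/-- What the finite check for a fixed `t` says. -/
def litProp (t a b c : ℕ) (ev : Bool) : Prop :=
  (∀ j < t, ∀ k < 3, G t a b c j k < 8 ^ t) ∧
  ∀ j < t, ∀ k < 3, ∀ j' < t, ∀ k' < 3, ∀ δ < t,
    (ev = true ∧ (k = 1 ∨ k' = 1)) ∨ (k = 1 ∧ (δ ≠ 0 ∨ 1 < k')) ∨ (k' = 1 ∧ 2 * δ + 1 < k) ∨
    (δ = 0 ∧ j = j' ∧ k = k') ∨ G t a b c j k ≠ 8 ^ δ * G t a b c j' k'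

theorem litProp_of_check {t a b c : ℕ} {ev : Bool} (h : litCheck t a b c ev = true) :
    litProp t a b c ev := by
  unfold litCheck at h
  rw [Bool.and_eq_true] at h
  obtain ⟨h1, h2⟩ := h
  simp only [List.all_eq_true, List.mem_range] at h1 h2
  refine ⟨fun j hj k hk => ?_, fun j hj k hk j' hj' k' hk' δ hδ => ?_⟩
  · have := h1 j hj k hk
    rwa [Nat.blt_eq] at this
  · have := h2 j hj k hk j' hj' k' hk' δ hδ
    simp only [Bool.or_eq_true, Bool.and_eq_true, Nat.beq_eq, Nat.blt_eq,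
      Bool.not_eq_true'] at this
    have hne : ∀ x y : ℕ, Nat.beq x y = false → x ≠ y := by
      intro x y hxy hxy'
      subst hxy'
      rw [Nat.beq_refl] at hxy
      cases hxy
    rcases this with (((h | h) | h) | h) | h
    · left; exact h
    · right; left; exact ⟨h.1, by omega⟩
    · right; right; left; exact h
    · right; right; right; left; exact ⟨h.1.1, h.1.2, h.2⟩
    · right; right; right; right; exact hne _ _ h

theorem lit_core {t a b c : ℕ} {ev : Bool} (hl : litProp t a b c ev) {j k j' k' x x' : ℕ}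
    (hj : j < t) (hk : k < 3) (hj' : j' < t) (hk' : k' < 3)
    (hev : ev = true → k ≠ 1 ∧ k' ≠ 1)
    (h1 : k = 1 → 2 * x' + k' ≤ 2 * x + 1) (h1' : k' = 1 → 2 * x + k ≤ 2 * x' + 1)
    (hxx : x ≤ x') (he : 8 ^ x * G t a b c j k = 8 ^ x' * G t a b c j' k') :
    x = x' ∧ k = k' ∧ j = j' := by
  obtain ⟨δ, rfl⟩ := Nat.exists_eq_add_of_le hxx
  rw [pow_add, mul_assoc] at he
  have he2 : G t a b c j k = 8 ^ δ * G t a b c j' k' :=
    Nat.eq_of_mul_eq_mul_left (by positivity) he
  have hδ : δ < t := by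
    by_contra hcon
    have hg := hl.1 j hj k hk
    have hpos : 0 < G t a b c j' k' := by unfold G; positivity
    have : 8 ^ t ≤ 8 ^ δ := Nat.pow_le_pow_right (by norm_num) (by omega)
    have h3 : 8 ^ δ * 1 ≤ 8 ^ δ * G t a b c j' k' := Nat.mul_le_mul_left _ hpos
    omega
  rcases hl.2 j hj k hk j' hj' k' hk' δ hδ with h | h | h | h | h
  · have := hev h.1
    omega
  · have := h1 h.1
    omega
  · have := h1' h.1
    omega
  · omega
  · exact absurd he2 h

theorem odim_le_lit {s t a b c : ℕ} {ev : Bool} (hs : 3 ≤ s) (hsev : ev = true → s % 2 = 0)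
    (ht : 3 ≤ t) (ha : a < t) (hb : b < t)
    (hc : c < t) (ha0 : a ≠ 0) (hb0 : b ≠ 0) (hab : a ≠ b) (hl : litProp t a b c ev) :
    odim (tor s t) ≤ 4 := by
  apply odim_le_four_pow hs ht a b c ha hb hc ha0 hb0 hab
  intro i j i' j' hi hj hi' hj' hm
  obtain ⟨e, he, hp⟩ := iprof hs hi
  obtain ⟨e', he', hp'⟩ := iprof hs hi'
  have hb1 := hp
  have hb1' := hp'
  unfold IP at hb1 hb1'
  obtain ⟨k, hk⟩ : ∃ k : ℕ, (k : ℤ) = e + 1 := ⟨(e + 1).toNat, by omega⟩
  obtain ⟨k', hk'⟩ : ∃ k' : ℕ, (k' : ℤ) = e' + 1 := ⟨(e' + 1).toNat, by omega⟩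
  have hG : ∀ (i j k : ℕ), cd s i 1 + 1 = cd s i 0 + k →
      8 ^ (cd s i 0 + cd t j 0 + 1) + 8 ^ (cd s i 0 + cd t j a + 1) +
        8 ^ (cd s i 0 + cd t j b + 1) + 8 ^ (cd s i 1 + cd t j c + 1) =
      8 ^ (cd s i 0) * G t a b c j k := by
    intro i j k hk
    have h4 : cd s i 1 + cd t j c + 1 = cd s i 0 + (cd t j c + k) := by omega
    rw [h4]
    unfold G
    ring
  rw [hG i j k (by omega), hG i' j' k' (by omega)] at hm
  have fin : cd s i 0 = cd s i' 0 ∧ k = k' ∧ j = j' := by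
    rcases le_total (cd s i 0) (cd s i' 0) with hle | hle
    · refine lit_core hl hj (by omega) hj' (by omega) ?_ (by omega) (by omega) hle hm
      intro hev
      have := hsev hev
      omega
    · have := lit_core hl hj' (by omega) hj (by omega) (by
        intro hev
        have := hsev hev
        omega) (by omega) (by omega) hle hm.symm
      omega
  obtain ⟨f1, f2, f3⟩ := fin
  refine ⟨?_, f3⟩
  have hee : e = e' := by omega
  rw [← f1, ← hee] at hp'
  have := ip_inj hp hp'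
  omega

theorem lit12 : litProp 12 3 7 8 true := litProp_of_check (by decide +kernel)
theorem lit15 : litProp 15 4 7 8 false := litProp_of_check (by decide +kernel)
theorem lit16 : litProp 16 4 9 15 false := litProp_of_check (by decide +kernel)
theorem lit17 : litProp 17 4 9 8 true := litProp_of_check (by decide +kernel)
theorem lit18 : litProp 18 5 11 10 false := litProp_of_check (by decide +kernel)

end Pool.Agent.Lib.MP_7f5033_co
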