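import Pool.Agent.Lib.MP_7f5033_co.Defs
import Pool.Agent.Lib.MP_7f5033_co.Dist

/-!
# Multisets with two, three and four elements, and upper bounds for `odim`
-/

set_option autoImplicit false

open SimpleGraph

namespace Pool.Agent.Lib.MP_7f5033_co

theorem ms_one {a a' : ℕ} (h : ({a} : Multiset ℕ) = {a'}) : a = a' := by
  simpa using h

theorem ms_cons {a a' : ℕ} {m m' : Multiset ℕ} (h : a ::ₘ m = a' ::ₘ m') :
    (a = a' ∧ m = m') ∨ (a ≠ a' ∧ ∃ cs, m = a' ::ₘ cs ∧ m' = a ::ₘ cs) := by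
  exact Multiset.cons_eq_cons.1 h

theorem ms_two {a b a' b' : ℕ} (h : ({a, b} : Multiset ℕ) = {a', b'}) :
    (a = a' ∧ b = b') ∨ (a = b' ∧ b = a') := by
  have h0 := h
  have ha : a ∈ ({a', b'} : Multiset ℕ) := by rw [← h]; simp
  simp only [Multiset.insert_eq_cons, Multiset.mem_cons, Multiset.mem_singleton] at ha
  rcases ha with rfl | rfl
  · left
    refine ⟨rfl, ?_⟩
    simpa using h
  · right
    refine ⟨rfl, ?_⟩
    have : ({a, b} : Multiset ℕ) = {a, a'} := by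
      rw [h]; exact Multiset.pair_comm _ _
    simpa using this

theorem ms_three {a b c a' b' c' : ℕ} (h : ({a, b, c} : Multiset ℕ) = {a', b', c'}) :
    (a = a' ∧ ({b, c} : Multiset ℕ) = {b', c'}) ∨ (a = b' ∧ ({b, c} : Multiset ℕ) = {a', c'}) ∨
    (a = c' ∧ ({b, c} : Multiset ℕ) = {a', b'}) := by
  have ha : a ∈ ({a', b', c'} : Multiset ℕ) := by rw [← h]; simp
  simp only [Multiset.insert_eq_cons, Multiset.mem_cons, Multiset.mem_singleton] at ha
  rcases ha with rfl | rfl | rfl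
  · left
    refine ⟨rfl, ?_⟩
    simpa using h
  · right; left
    refine ⟨rfl, ?_⟩
    have : ({a, b, c} : Multiset ℕ) = {a, a', c'} := by
      rw [h]; exact Multiset.cons_swap _ _ _
    simpa using this
  · right; right
    refine ⟨rfl, ?_⟩
    have : ({a, b, c} : Multiset ℕ) = {a, a', b'} := by
      rw [h]
      simp only [Multiset.insert_eq_cons]
      rw [show ({a} : Multiset ℕ) = a ::ₘ 0 from rfl, Multiset.cons_swap b' a, Multiset.cons_swap a' a]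
      rfl
    simpa using this

theorem ms_four {a b c d a' b' c' d' : ℕ}
    (h : ({a, b, c, d} : Multiset ℕ) = {a', b', c', d'}) :
    (a = a' ∧ ({b, c, d} : Multiset ℕ) = {b', c', d'}) ∨
    (a = b' ∧ ({b, c, d} : Multiset ℕ) = {a', c', d'}) ∨
    (a = c' ∧ ({b, c, d} : Multiset ℕ) = {a', b', d'}) ∨
    (a = d' ∧ ({b, c, d} : Multiset ℕ) = {a', b', c'}) := by
  have ha : a ∈ ({a', b', c', d'} : Multiset ℕ) := by rw [← h]; simp
  simp only [Multiset.insert_eq_cons, Multiset.mem_cons, Multiset.mem_singleton] at ha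
  rcases ha with rfl | rfl | rfl | rfl
  · left
    refine ⟨rfl, ?_⟩
    simpa using h
  · right; left
    refine ⟨rfl, ?_⟩
    have : ({a, b, c, d} : Multiset ℕ) = {a, a', c', d'} := by
      rw [h]; exact Multiset.cons_swap _ _ _
    simpa using this
  · right; right; left
    refine ⟨rfl, ?_⟩
    have : ({a, b, c, d} : Multiset ℕ) = {a, a', b', d'} := by
      rw [h]
      simp only [Multiset.insert_eq_cons]
      rw [Multiset.cons_swap b' a, Multiset.cons_swap a' a]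
    simpa using this
  · right; right; right
    refine ⟨rfl, ?_⟩
    have : ({a, b, c, d} : Multiset ℕ) = {a, a', b', c'} := by
      rw [h]
      simp only [Multiset.insert_eq_cons]
      rw [show ({a} : Multiset ℕ) = a ::ₘ 0 from rfl, Multiset.cons_swap c' a,
        Multiset.cons_swap b' a, Multiset.cons_swap a' a]
      rfl
    simpa using this

/-- Equality of two three-element multisets, as a disjunction of six cases. -/
theorem ms_three' {a b c a' b' c' : ℕ} (h : ({a, b, c} : Multiset ℕ) = {a', b', c'}) :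
    (a = a' ∧ b = b' ∧ c = c') ∨ (a = a' ∧ b = c' ∧ c = b') ∨
    (a = b' ∧ b = a' ∧ c = c') ∨ (a = b' ∧ b = c' ∧ c = a') ∨
    (a = c' ∧ b = a' ∧ c = b') ∨ (a = c' ∧ b = b' ∧ c = a') := by
  rcases ms_three h with ⟨h1, h2⟩ | ⟨h1, h2⟩ | ⟨h1, h2⟩ <;> rcases ms_two h2 with h3 | h3 <;> tauto

/-- Equality of two four-element multisets, as a disjunction of 24 cases. -/
theorem ms_four' {a b c d a' b' c' d' : ℕ}
    (h : ({a, b, c, d} : Multiset ℕ) = {a', b', c', d'}) :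
    (a = a' ∧ ((b = b' ∧ c = c' ∧ d = d') ∨ (b = b' ∧ c = d' ∧ d = c') ∨
      (b = c' ∧ c = b' ∧ d = d') ∨ (b = c' ∧ c = d' ∧ d = b') ∨
      (b = d' ∧ c = b' ∧ d = c') ∨ (b = d' ∧ c = c' ∧ d = b'))) ∨
    (a = b' ∧ ((b = a' ∧ c = c' ∧ d = d') ∨ (b = a' ∧ c = d' ∧ d = c') ∨
      (b = c' ∧ c = a' ∧ d = d') ∨ (b = c' ∧ c = d' ∧ d = a') ∨
      (b = d' ∧ c = a' ∧ d = c') ∨ (b = d' ∧ c = c' ∧ d = a'))) ∨
    (a = c' ∧ ((b = a' ∧ c = b' ∧ d = d') ∨ (b = a' ∧ c = d' ∧ d = b') ∨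
      (b = b' ∧ c = a' ∧ d = d') ∨ (b = b' ∧ c = d' ∧ d = a') ∨
      (b = d' ∧ c = a' ∧ d = b') ∨ (b = d' ∧ c = b' ∧ d = a'))) ∨
    (a = d' ∧ ((b = a' ∧ c = b' ∧ d = c') ∨ (b = a' ∧ c = c' ∧ d = b') ∨
      (b = b' ∧ c = a' ∧ d = c') ∨ (b = b' ∧ c = c' ∧ d = a') ∨
      (b = c' ∧ c = a' ∧ d = b') ∨ (b = c' ∧ c = b' ∧ d = a'))) := by
  rcases ms_four h with ⟨h1, h2⟩ | ⟨h1, h2⟩ | ⟨h1, h2⟩ | ⟨h1, h2⟩
  · exact Or.inl ⟨h1, ms_three' h2⟩
  · exact Or.inr (Or.inl ⟨h1, ms_three' h2⟩)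
  · exact Or.inr (Or.inr (Or.inl ⟨h1, ms_three' h2⟩))
  · exact Or.inr (Or.inr (Or.inr ⟨h1, ms_three' h2⟩))

end Pool.Agent.Lib.MP_7f5033_co
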