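import Pool.Agent.Lib.MP_7f5033_co.Basic
import Pool.Agent.Lib.MP_7f5033_co.Multi

/-!
# A resolving set with three elements for `C_3 □ C_{2h}`
-/

set_option autoImplicit false

open SimpleGraph

namespace Pool.Agent.Lib.MP_7f5033_co

/-- Regimes of the second coordinate for the points `0, 4` modulo `2h`. -/
def JPT (h j a b : ℤ) : Prop :=
  (a = j ∧ b = 4 - j ∧ 0 ≤ j ∧ j ≤ 4) ∨
  (a = j ∧ b = j - 4 ∧ 5 ≤ j ∧ j ≤ h) ∨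
  (a = 2 * h - j ∧ b = j - 4 ∧ h + 1 ≤ j ∧ j ≤ h + 4) ∨
  (a = 2 * h - j ∧ b = 2 * h + 4 - j ∧ h + 5 ≤ j ∧ j ≤ 2 * h - 1)

theorem jprofT {h j : ℕ} (hh : 6 ≤ h) (hj : j < 2 * h) :
    JPT h j (cd (2 * h) j 0) (cd (2 * h) j 4) := by
  unfold JPT cd
  rcases le_or_gt (j : ℤ) 4 with g0 | g0
  · left; refine ⟨?_, ?_, ?_, ?_⟩ <;> omega
  rcases le_or_gt (j : ℤ) h with g1 | g1
  · right; left; refine ⟨?_, ?_, ?_, ?_⟩ <;> omega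
  rcases le_or_gt (j : ℤ) (h + 4) with g2 | g2
  · right; right; left; refine ⟨?_, ?_, ?_, ?_⟩ <;> omega
  right; right; right; refine ⟨?_, ?_, ?_, ?_⟩ <;> omega

theorem coreT {h j j' x y x' y' a b a' b' : ℤ} (hh : 6 ≤ h)
    (hi : (x = 0 ∧ y = 1) ∨ (x = 1 ∧ y = 0) ∨ (x = 1 ∧ y = 1))
    (hi' : (x' = 0 ∧ y' = 1) ∨ (x' = 1 ∧ y' = 0) ∨ (x' = 1 ∧ y' = 1))
    (hj : JPT h j a b) (hj' : JPT h j' a' b')
    (hm : (x + a = x' + a' ∧ x + b = x' + b' ∧ y + a = y' + a') ∨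
      (x + a = x' + a' ∧ x + b = y' + a' ∧ y + a = x' + b') ∨
      (x + a = x' + b' ∧ x + b = x' + a' ∧ y + a = y' + a') ∨
      (x + a = x' + b' ∧ x + b = y' + a' ∧ y + a = x' + a') ∨
      (x + a = y' + a' ∧ x + b = x' + a' ∧ y + a = x' + b') ∨
      (x + a = y' + a' ∧ x + b = x' + b' ∧ y + a = x' + a')) :
    x = x' ∧ y = y' ∧ j = j' := by
  unfold JPT at hj hj'
  rcases hj with ⟨rfl, rfl, h3, h4⟩ | ⟨rfl, rfl, h3, h4⟩ | ⟨rfl, rfl, h3, h4⟩ |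
    ⟨rfl, rfl, h3, h4⟩ <;>
  rcases hj' with ⟨rfl, rfl, h3', h4'⟩ | ⟨rfl, rfl, h3', h4'⟩ | ⟨rfl, rfl, h3', h4'⟩ |
    ⟨rfl, rfl, h3', h4'⟩ <;>
  rcases hi with ⟨rfl, rfl⟩ | ⟨rfl, rfl⟩ | ⟨rfl, rfl⟩ <;>
  rcases hi' with ⟨rfl, rfl⟩ | ⟨rfl, rfl⟩ | ⟨rfl, rfl⟩ <;>
  rcases hm with m | m | m | m | m | m <;> omega

theorem odim_le_three {h : ℕ} (hh : 6 ≤ h) : odim (tor 3 (2 * h)) ≤ 3 := by
  have := odim_le_of_list (s := 3) (t := 2 * h) le_rfl (by omega)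
    [(⟨0, by omega⟩, ⟨0, by omega⟩), (⟨0, by omega⟩, ⟨4, by omega⟩),
      (⟨1, by omega⟩, ⟨0, by omega⟩)] (by simp) (by
    intro x y _ _ hm
    have h1 : ({cd 3 x.1.val 0 + cd (2 * h) x.2.val 0, cd 3 x.1.val 0 + cd (2 * h) x.2.val 4,
        cd 3 x.1.val 1 + cd (2 * h) x.2.val 0} : Multiset ℕ) =
        {cd 3 y.1.val 0 + cd (2 * h) y.2.val 0, cd 3 y.1.val 0 + cd (2 * h) y.2.val 4,
        cd 3 y.1.val 1 + cd (2 * h) y.2.val 0} := hm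
    have h2 := ms_three' h1
    have hx := x.1.isLt
    have hy := y.1.isLt
    have key : ∀ i : ℕ, i < 3 → ((cd 3 i 0 = 0 ∧ cd 3 i 1 = 1 ∧ i = 0) ∨
        (cd 3 i 0 = 1 ∧ cd 3 i 1 = 0 ∧ i = 1) ∨ (cd 3 i 0 = 1 ∧ cd 3 i 1 = 1 ∧ i = 2)) := by
      intro i hi
      interval_cases i <;> decide
    have kx := key _ hx
    have ky := key _ hy
    have := coreT (h := (h : ℤ)) (x := cd 3 x.1.val 0) (y := cd 3 x.1.val 1)
      (x' := cd 3 y.1.val 0) (y' := cd 3 y.1.val 1) (by omega) (by omega) (by omega)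
      (jprofT hh x.2.isLt) (jprofT hh y.2.isLt) (by exact_mod_cast h2)
    apply Prod.ext
    · apply Fin.ext; omega
    · apply Fin.ext; omega)
  simpa using this

end Pool.Agent.Lib.MP_7f5033_co
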