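import Pool.Agent.Lib.MP_7f5033_co.UpperFam
import Pool.Agent.Lib.MP_7f5033_co.UpperLit
import Pool.Agent.Lib.MP_7f5033_co.UpperThree
import Pool.Agent.Lib.MP_7f5033_co.UpperFin
import Pool.Agent.Lib.MP_7f5033_co.LowerFour
import Pool.Agent.Lib.MP_7f5033_co.Single1
import Pool.Agent.Lib.MP_7f5033_co.Single2
import Pool.Agent.Lib.MP_7f5033_co.Single3
import Pool.Agent.Lib.MP_7f5033_co.Single4
import Pool.Agent.Lib.MP_7f5033_co.Single5
import Pool.Agent.Lib.MP_7f5033_co.Single6
import Pool.Agent.Lib.MP_7f5033_co.Single7
import Pool.Agent.Lib.MP_7f5033_co.Single8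
import Pool.Agent.Lib.MP_7f5033_co.Single9
import Pool.Agent.Lib.MP_7f5033_co.Single10
import Pool.Agent.Lib.MP_7f5033_co.Single11
import Pool.Agent.Lib.MP_7f5033_co.Single12

/-!
# The outer multiset dimension of all tori
-/

set_option autoImplicit false

open SimpleGraph

namespace Pool.Agent.Lib.MP_7f5033_co

/-- Value four from a resolving set with four elements. -/
theorem eq_four {s t : ℕ} (hs : 3 ≤ s) (ht : 3 ≤ t) (h : NoThree s t ∨ NoThree t s)
    (hu : odim (tor s t) ≤ 4) : odim (tor s t) = 4 :=
  le_antisymm hu (le_odim (fun S hS => four_le_card' hs ht h S hS))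

/-- Value four, with the factors swapped. -/
theorem eq_four_swap {s t : ℕ} (hs : 3 ≤ s) (ht : 3 ≤ t) (h : NoThree s t ∨ NoThree t s)
    (hu : odim (tor t s) ≤ 4) : odim (tor s t) = 4 := by
  rw [odim_swap hs ht] at hu
  exact eq_four hs ht h hu

theorem eq_three {h : ℕ} (hh : 6 ≤ h) : odim (tor 3 (2 * h)) = 3 :=
  le_antisymm (odim_le_three hh) (le_odim (fun S hS => three_le_card (by omega) (by omega) S hS))

theorem le_lit12 {s : ℕ} (hs : 3 ≤ s) (h2 : s % 2 = 0) : odim (tor s 12) ≤ 4 :=
  odim_le_lit hs (fun _ => h2) (by norm_num) (by norm_num) (by norm_num) (by norm_num)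
    (by norm_num) (by norm_num) (by norm_num) lit12

theorem le_lit15 {s : ℕ} (hs : 3 ≤ s) : odim (tor s 15) ≤ 4 :=
  odim_le_lit hs (fun h => by cases h) (by norm_num) (by norm_num) (by norm_num) (by norm_num)
    (by norm_num) (by norm_num) (by norm_num) lit15

theorem le_lit16 {s : ℕ} (hs : 3 ≤ s) : odim (tor s 16) ≤ 4 :=
  odim_le_lit hs (fun h => by cases h) (by norm_num) (by norm_num) (by norm_num) (by norm_num)
    (by norm_num) (by norm_num) (by norm_num) lit16

theorem le_lit17 {s : ℕ} (hs : 3 ≤ s) (h2 : s % 2 = 0) : odim (tor s 17) ≤ 4 :=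
  odim_le_lit hs (fun _ => h2) (by norm_num) (by norm_num) (by norm_num) (by norm_num)
    (by norm_num) (by norm_num) (by norm_num) lit17

theorem le_lit18 {s : ℕ} (hs : 3 ≤ s) : odim (tor s 18) ≤ 4 :=
  odim_le_lit hs (fun h => by cases h) (by norm_num) (by norm_num) (by norm_num) (by norm_num)
    (by norm_num) (by norm_num) (by norm_num) lit18

theorem up_3_13 : odim (tor 3 13) ≤ 4 :=
  odim_le_of_uniq (n := 39) (by norm_num) (by norm_num) [0, 3, 7, 19] (by decide) (by decide)
    (by norm_num) rfl (by decide +kernel)

theorem up_3_17 : odim (tor 3 17) ≤ 4 :=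
  odim_le_of_uniq (n := 51) (by norm_num) (by norm_num) [0, 2, 21, 30] (by decide) (by decide)
    (by norm_num) rfl (by decide +kernel)

theorem up_5_10 : odim (tor 5 10) ≤ 4 :=
  odim_le_of_uniq (n := 50) (by norm_num) (by norm_num) [0, 11, 23, 38] (by decide) (by decide)
    (by norm_num) rfl (by decide +kernel)

theorem up_5_12 : odim (tor 5 12) ≤ 4 :=
  odim_le_of_uniq (n := 60) (by norm_num) (by norm_num) [0, 6, 14, 27] (by decide) (by decide)
    (by norm_num) rfl (by decide +kernel)

theorem up_5_14 : odim (tor 5 14) ≤ 4 :=
  odim_le_of_uniq (n := 70) (by norm_num) (by norm_num) [0, 15, 28, 51] (by decide) (by decide)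
    (by norm_num) rfl (by decide +kernel)

theorem up_5_17 : odim (tor 5 17) ≤ 4 :=
  odim_le_of_uniq (n := 85) (by norm_num) (by norm_num) [0, 4, 9, 43] (by decide) (by decide)
    (by norm_num) rfl (by decide +kernel)

theorem case_3 (s : ℕ) (hs : 3 ≤ s) (hst : s ≤ 3) : odim (tor s 3) = value s 3 := by
  interval_cases s
  · exact val_3_3

theorem case_4 (s : ℕ) (hs : 3 ≤ s) (hst : s ≤ 4) : odim (tor s 4) = value s 4 := by
  interval_cases s
  · exact val_3_4
  · exact val_4_4

theorem case_5 (s : ℕ) (hs : 3 ≤ s) (hst : s ≤ 5) : odim (tor s 5) = value s 5 := by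
  interval_cases s
  · exact val_3_5
  · exact val_4_5
  · exact val_5_5

theorem case_6 (s : ℕ) (hs : 3 ≤ s) (hst : s ≤ 6) : odim (tor s 6) = value s 6 := by
  interval_cases s
  · exact val_3_6
  · exact val_4_6
  · exact val_5_6
  · exact val_6_6

theorem case_7 (s : ℕ) (hs : 3 ≤ s) (hst : s ≤ 7) : odim (tor s 7) = value s 7 := by
  interval_cases s
  · exact val_3_7
  · exact val_4_7
  · exact val_5_7
  · exact val_6_7
  · exact val_7_7

theorem case_8 (s : ℕ) (hs : 3 ≤ s) (hst : s ≤ 8) : odim (tor s 8) = value s 8 := by
  interval_cases s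
  · exact val_3_8
  · exact val_4_8
  · exact val_5_8
  · exact val_6_8
  · exact val_7_8
  · exact val_8_8

theorem case_9 (s : ℕ) (hs : 3 ≤ s) (hst : s ≤ 9) : odim (tor s 9) = value s 9 := by
  interval_cases s
  · exact val_3_9
  · exact val_4_9
  · exact val_5_9
  · exact val_6_9
  · exact val_7_9
  · exact val_8_9
  · exact val_9_9

theorem case_10 (s : ℕ) (hs : 3 ≤ s) (hst : s ≤ 10) : odim (tor s 10) = value s 10 := by
  interval_cases s
  · exact val_3_10
  · exact val_4_10
  · exact eq_four (by norm_num) (by norm_num) (by unfold NoThree; norm_num) up_5_10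
  · exact val_6_10
  · exact val_7_10
  · exact val_8_10
  · exact val_9_10
  · exact val_10_10

theorem case_11 (s : ℕ) (hs : 3 ≤ s) (hst : s ≤ 11) : odim (tor s 11) = value s 11 := by
  interval_cases s
  · exact val_3_11
  · exact val_4_11
  · exact val_5_11
  · exact val_6_11
  · exact val_7_11
  · exact val_8_11
  · exact val_9_11
  · exact val_10_11
  · exact val_11_11

theorem case_12 (s : ℕ) (hs : 3 ≤ s) (hst : s ≤ 12) : odim (tor s 12) = value s 12 := by
  interval_cases s
  · exact eq_three (h := 6) (by norm_num)
  · exact eq_four (by norm_num) (by norm_num) (by unfold NoThree; norm_num) (le_lit12 (by norm_num) (by norm_num))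
  · exact eq_four (by norm_num) (by norm_num) (by unfold NoThree; norm_num) up_5_12
  · exact eq_four (by norm_num) (by norm_num) (by unfold NoThree; norm_num) (le_lit12 (by norm_num) (by norm_num))
  · exact val_7_12
  · exact eq_four (by norm_num) (by norm_num) (by unfold NoThree; norm_num) (le_lit12 (by norm_num) (by norm_num))
  · exact val_9_12
  · exact eq_four (by norm_num) (by norm_num) (by unfold NoThree; norm_num) (le_lit12 (by norm_num) (by norm_num))
  · exact val_11_12
  · exact eq_four (by norm_num) (by norm_num) (by unfold NoThree; norm_num) (le_lit12 (by norm_num) (by norm_num))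

theorem case_13 (s : ℕ) (hs : 3 ≤ s) (hst : s ≤ 13) : odim (tor s 13) = value s 13 := by
  interval_cases s
  · exact eq_four (by norm_num) (by norm_num) (by unfold NoThree; norm_num) up_3_13
  · exact val_4_13
  · exact val_5_13
  · exact val_6_13
  · exact val_7_13
  · exact val_8_13
  · exact val_9_13
  · exact val_10_13
  · exact val_11_13
  · exact val_12_13
  · exact val_13_13

theorem case_14 (s : ℕ) (hs : 3 ≤ s) (hst : s ≤ 14) : odim (tor s 14) = value s 14 := by
  interval_cases s
  · exact eq_three (h := 7) (by norm_num)
  · exact eq_four (by norm_num) (by norm_num) (by unfold NoThree; norm_num) (odim_le_famA (h := 7) (by norm_num) (by norm_num) (by norm_num))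
  · exact eq_four (by norm_num) (by norm_num) (by unfold NoThree; norm_num) up_5_14
  · exact eq_four (by norm_num) (by norm_num) (by unfold NoThree; norm_num) (odim_le_famA (h := 7) (by norm_num) (by norm_num) (by norm_num))
  · exact val_7_14
  · exact eq_four (by norm_num) (by norm_num) (by unfold NoThree; norm_num) (odim_le_famA (h := 7) (by norm_num) (by norm_num) (by norm_num))
  · exact val_9_14
  · exact eq_four (by norm_num) (by norm_num) (by unfold NoThree; norm_num) (odim_le_famA (h := 7) (by norm_num) (by norm_num) (by norm_num))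
  · exact val_11_14
  · exact eq_four (by norm_num) (by norm_num) (by unfold NoThree; norm_num) (odim_le_famA (h := 7) (by norm_num) (by norm_num) (by norm_num))
  · exact val_13_14
  · exact eq_four (by norm_num) (by norm_num) (by unfold NoThree; norm_num) (odim_le_famA (h := 7) (by norm_num) (by norm_num) (by norm_num))

theorem case_15 (s : ℕ) (hs : 3 ≤ s) (hst : s ≤ 15) : odim (tor s 15) = value s 15 := by
  interval_cases s
  · exact eq_four (by norm_num) (by norm_num) (by unfold NoThree; norm_num) (le_lit15 (by norm_num))
  · exact eq_four (by norm_num) (by norm_num) (by unfold NoThree; norm_num) (le_lit15 (by norm_num))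
  · exact eq_four (by norm_num) (by norm_num) (by unfold NoThree; norm_num) (le_lit15 (by norm_num))
  · exact eq_four (by norm_num) (by norm_num) (by unfold NoThree; norm_num) (le_lit15 (by norm_num))
  · exact eq_four (by norm_num) (by norm_num) (by unfold NoThree; norm_num) (le_lit15 (by norm_num))
  · exact eq_four (by norm_num) (by norm_num) (by unfold NoThree; norm_num) (le_lit15 (by norm_num))
  · exact eq_four (by norm_num) (by norm_num) (by unfold NoThree; norm_num) (le_lit15 (by norm_num))
  · exact eq_four (by norm_num) (by norm_num) (by unfold NoThree; norm_num) (le_lit15 (by norm_num))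
  · exact eq_four (by norm_num) (by norm_num) (by unfold NoThree; norm_num) (le_lit15 (by norm_num))
  · exact eq_four (by norm_num) (by norm_num) (by unfold NoThree; norm_num) (le_lit15 (by norm_num))
  · exact eq_four (by norm_num) (by norm_num) (by unfold NoThree; norm_num) (le_lit15 (by norm_num))
  · exact eq_four (by norm_num) (by norm_num) (by unfold NoThree; norm_num) (le_lit15 (by norm_num))
  · exact eq_four (by norm_num) (by norm_num) (by unfold NoThree; norm_num) (le_lit15 (by norm_num))

theorem case_16 (s : ℕ) (hs : 3 ≤ s) (hst : s ≤ 16) : odim (tor s 16) = value s 16 := by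
  interval_cases s
  · exact eq_three (h := 8) (by norm_num)
  · exact eq_four (by norm_num) (by norm_num) (by unfold NoThree; norm_num) (le_lit16 (by norm_num))
  · exact eq_four (by norm_num) (by norm_num) (by unfold NoThree; norm_num) (le_lit16 (by norm_num))
  · exact eq_four (by norm_num) (by norm_num) (by unfold NoThree; norm_num) (le_lit16 (by norm_num))
  · exact eq_four (by norm_num) (by norm_num) (by unfold NoThree; norm_num) (le_lit16 (by norm_num))
  · exact eq_four (by norm_num) (by norm_num) (by unfold NoThree; norm_num) (le_lit16 (by norm_num))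
  · exact eq_four (by norm_num) (by norm_num) (by unfold NoThree; norm_num) (le_lit16 (by norm_num))
  · exact eq_four (by norm_num) (by norm_num) (by unfold NoThree; norm_num) (le_lit16 (by norm_num))
  · exact eq_four (by norm_num) (by norm_num) (by unfold NoThree; norm_num) (le_lit16 (by norm_num))
  · exact eq_four (by norm_num) (by norm_num) (by unfold NoThree; norm_num) (le_lit16 (by norm_num))
  · exact eq_four (by norm_num) (by norm_num) (by unfold NoThree; norm_num) (le_lit16 (by norm_num))
  · exact eq_four (by norm_num) (by norm_num) (by unfold NoThree; norm_num) (le_lit16 (by norm_num))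
  · exact eq_four (by norm_num) (by norm_num) (by unfold NoThree; norm_num) (le_lit16 (by norm_num))
  · exact eq_four (by norm_num) (by norm_num) (by unfold NoThree; norm_num) (le_lit16 (by norm_num))

theorem case_17 (s : ℕ) (hs : 3 ≤ s) (hst : s ≤ 17) : odim (tor s 17) = value s 17 := by
  interval_cases s
  · exact eq_four (by norm_num) (by norm_num) (by unfold NoThree; norm_num) up_3_17
  · exact eq_four (by norm_num) (by norm_num) (by unfold NoThree; norm_num) (le_lit17 (by norm_num) (by norm_num))
  · exact eq_four (by norm_num) (by norm_num) (by unfold NoThree; norm_num) up_5_17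
  · exact eq_four (by norm_num) (by norm_num) (by unfold NoThree; norm_num) (le_lit17 (by norm_num) (by norm_num))
  · exact val_7_17
  · exact eq_four (by norm_num) (by norm_num) (by unfold NoThree; norm_num) (le_lit17 (by norm_num) (by norm_num))
  · exact val_9_17
  · exact eq_four (by norm_num) (by norm_num) (by unfold NoThree; norm_num) (le_lit17 (by norm_num) (by norm_num))
  · exact val_11_17
  · exact eq_four (by norm_num) (by norm_num) (by unfold NoThree; norm_num) (le_lit17 (by norm_num) (by norm_num))
  · exact val_13_17
  · exact eq_four (by norm_num) (by norm_num) (by unfold NoThree; norm_num) (le_lit17 (by norm_num) (by norm_num))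
  · exact eq_four_swap (by norm_num) (by norm_num) (by unfold NoThree; norm_num) (le_lit15 (by norm_num))
  · exact eq_four (by norm_num) (by norm_num) (by unfold NoThree; norm_num) (le_lit17 (by norm_num) (by norm_num))
  · exact val_17_17

theorem case_18 (s : ℕ) (hs : 3 ≤ s) (hst : s ≤ 18) : odim (tor s 18) = value s 18 := by
  interval_cases s
  · exact eq_three (h := 9) (by norm_num)
  · exact eq_four (by norm_num) (by norm_num) (by unfold NoThree; norm_num) (le_lit18 (by norm_num))
  · exact eq_four (by norm_num) (by norm_num) (by unfold NoThree; norm_num) (le_lit18 (by norm_num))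
  · exact eq_four (by norm_num) (by norm_num) (by unfold NoThree; norm_num) (le_lit18 (by norm_num))
  · exact eq_four (by norm_num) (by norm_num) (by unfold NoThree; norm_num) (le_lit18 (by norm_num))
  · exact eq_four (by norm_num) (by norm_num) (by unfold NoThree; norm_num) (le_lit18 (by norm_num))
  · exact eq_four (by norm_num) (by norm_num) (by unfold NoThree; norm_num) (le_lit18 (by norm_num))
  · exact eq_four (by norm_num) (by norm_num) (by unfold NoThree; norm_num) (le_lit18 (by norm_num))
  · exact eq_four (by norm_num) (by norm_num) (by unfold NoThree; norm_num) (le_lit18 (by norm_num))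
  · exact eq_four (by norm_num) (by norm_num) (by unfold NoThree; norm_num) (le_lit18 (by norm_num))
  · exact eq_four (by norm_num) (by norm_num) (by unfold NoThree; norm_num) (le_lit18 (by norm_num))
  · exact eq_four (by norm_num) (by norm_num) (by unfold NoThree; norm_num) (le_lit18 (by norm_num))
  · exact eq_four (by norm_num) (by norm_num) (by unfold NoThree; norm_num) (le_lit18 (by norm_num))
  · exact eq_four (by norm_num) (by norm_num) (by unfold NoThree; norm_num) (le_lit18 (by norm_num))
  · exact eq_four (by norm_num) (by norm_num) (by unfold NoThree; norm_num) (le_lit18 (by norm_num))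
  · exact eq_four (by norm_num) (by norm_num) (by unfold NoThree; norm_num) (le_lit18 (by norm_num))

theorem case_large (s t : ℕ) (hs : 3 ≤ s) (ht : 19 ≤ t) : odim (tor s t) = value s t := by
  have hv : value s t = if s = 3 ∧ t % 2 = 0 then 3 else 4 := by
    unfold value
    split_ifs <;> omega
  rw [hv]
  split_ifs with h3
  · obtain ⟨rfl, h2⟩ := h3
    obtain ⟨h, rfl⟩ : ∃ h, t = 2 * h := ⟨t / 2, by omega⟩
    exact eq_three (by omega)
  · apply eq_four hs (by omega)
    · unfold NoThree
      omega
    · rcases Nat.mod_two_eq_zero_or_one t with h2 | h2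
      · obtain ⟨h, rfl⟩ : ∃ h, t = 2 * h := ⟨t / 2, by omega⟩
        exact odim_le_famC hs (by omega)
      · obtain ⟨h, rfl⟩ : ∃ h, t = 2 * h + 1 := ⟨t / 2, by omega⟩
        exact odim_le_famB hs (by omega)

theorem main_le (s t : ℕ) (hs : 3 ≤ s) (hst : s ≤ t) : odim (tor s t) = value s t := by
  rcases Nat.lt_or_ge t 19 with h | h
  · have h3 : 3 ≤ t := by omega
    interval_cases t
    · exact case_3 s hs hst
    · exact case_4 s hs hst
    · exact case_5 s hs hst
    · exact case_6 s hs hst
    · exact case_7 s hs hst
    · exact case_8 s hs hst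
    · exact case_9 s hs hst
    · exact case_10 s hs hst
    · exact case_11 s hs hst
    · exact case_12 s hs hst
    · exact case_13 s hs hst
    · exact case_14 s hs hst
    · exact case_15 s hs hst
    · exact case_16 s hs hst
    · exact case_17 s hs hst
    · exact case_18 s hs hst
  · exact case_large s t hs h

theorem main (s t : ℕ) (hs : 3 ≤ s) (ht : 3 ≤ t) : odim (tor s t) = torusOdim s t := by
  unfold torusOdim
  rcases le_total s t with h | h
  · rw [min_eq_left h, max_eq_right h]
    exact main_le s t hs h
  · rw [min_eq_right h, max_eq_left h, ← odim_swap hs ht]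
    exact main_le t s ht h

end Pool.Agent.Lib.MP_7f5033_co
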