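import Pool.Agent.Lib.MP_7f5033_co.TwoOrb

/-!
# No resolving set with three elements
-/

set_option autoImplicit false

namespace Pool.Agent.Lib.MP_7f5033_co

theorem ms_rot (u v w : ℕ) : ({v, w, u} : Multiset ℕ) = {u, v, w} := by
  ext x
  simp only [Multiset.insert_eq_cons, Multiset.count_cons, Multiset.count_singleton]
  ring

theorem ms_swap (u v w : ℕ) : ({v, u, w} : Multiset ℕ) = {u, v, w} := by
  ext x
  simp only [Multiset.insert_eq_cons, Multiset.count_cons, Multiset.count_singleton]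
  ring

/-- Three points do not resolve the torus. -/
def Bad3 {s t : ℕ} (a b c : ZMod s × ZMod t) : Prop :=
  ∃ x y : ZMod s × ZMod t, x ≠ y ∧ (x ≠ a ∧ x ≠ b ∧ x ≠ c) ∧ (y ≠ a ∧ y ≠ b ∧ y ≠ c) ∧
    ({nt (x - a), nt (x - b), nt (x - c)} : Multiset ℕ) = {nt (y - a), nt (y - b), nt (y - c)}

theorem Bad3.rot {s t : ℕ} {a b c : ZMod s × ZMod t} (h : Bad3 a b c) : Bad3 b c a := by
  obtain ⟨x, y, h1, ⟨h2, h3, h4⟩, ⟨h5, h6, h7⟩, h8⟩ := h
  exact ⟨x, y, h1, ⟨h3, h4, h2⟩, ⟨h6, h7, h5⟩,
    (ms_rot _ _ _).trans (h8.trans (ms_rot _ _ _).symm)⟩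

theorem Bad3.swap {s t : ℕ} {a b c : ZMod s × ZMod t} (h : Bad3 a b c) : Bad3 b a c := by
  obtain ⟨x, y, h1, ⟨h2, h3, h4⟩, ⟨h5, h6, h7⟩, h8⟩ := h
  exact ⟨x, y, h1, ⟨h3, h2, h4⟩, ⟨h6, h5, h7⟩,
    (ms_swap _ _ _).trans (h8.trans (ms_swap _ _ _).symm)⟩

theorem bad_of_orb {s t : ℕ} [NeZero s] [NeZero t] {a b c z : ZMod s × ZMod t}
    (h : Orb (a + b - c - c) z) (ha : z ≠ a - c) (hb : z ≠ b - c) : Bad3 a b c := by
  obtain ⟨h1, h2⟩ := h
  have hz : z ≠ 0 := by
    intro hz
    apply h2
    have h3 : nt (a + b - c - c - z) = 0 := by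
      rw [← h1, hz]
      unfold nt
      simp [nz_zero]
    have h4 := nt_eq_zero h3
    rw [h4, hz]
  have hwz : a + b - c - c - z ≠ 0 := by
    intro hw
    apply h2
    have h3 : nt z = 0 := by
      rw [h1, hw]
      unfold nt
      simp [nz_zero]
    have h4 := nt_eq_zero h3
    rw [hw, h4]
  refine ⟨c + z, a + b - c - z, ?_, ⟨?_, ?_, ?_⟩, ⟨?_, ?_, ?_⟩, ?_⟩
  · intro h
    apply h2
    linear_combination h
  · intro h
    apply ha
    linear_combination h
  · intro h
    apply hb
    linear_combination h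
  · intro h
    apply hz
    linear_combination h
  · intro h
    apply hb
    linear_combination -h
  · intro h
    apply ha
    linear_combination -h
  · intro h
    apply hwz
    linear_combination h
  · have e1 : c + z - c = z := by ring
    have e2 : a + b - c - z - c = a + b - c - c - z := by ring
    have e3 : a + b - c - z - b = -(c + z - a) := by ring
    have e4 : a + b - c - z - a = -(c + z - b) := by ring
    rw [e1, e2, e3, e4, nt_neg, nt_neg, ← h1]
    exact ms_swap _ _ _

theorem bad_of_TO {s t : ℕ} [NeZero s] [NeZero t] {a b c : ZMod s × ZMod t}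
    (h : TO (a + b - c - c)) : Bad3 a b c := by
  obtain ⟨z, z', h1, h2, h3, h4⟩ := h
  by_cases ha : z = a - c
  · apply bad_of_orb h2
    · rw [← ha]; exact h3
    · intro hb
      apply h4
      rw [ha, hb]
      ring
  · by_cases hb : z = b - c
    · apply bad_of_orb h2
      · intro ha'
        apply h4
        rw [hb, ha']
        ring
      · rw [← hb]; exact h3
    · exact bad_of_orb h1 ha hb

/-- Some rotation of the three points is bad. -/
theorem bad_of_some {s t : ℕ} {a b c : ZMod s × ZMod t}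
    (h : Bad3 a b c ∨ Bad3 b c a ∨ Bad3 c a b) : Bad3 a b c := by
  rcases h with h | h | h
  · exact h
  · exact h.rot.rot
  · exact h.rot

/-! ## Both lengths odd, at least five -/

theorem bad_odd_odd {s t : ℕ} [NeZero s] [NeZero t] (hs : s % 2 = 1) (ht : t % 2 = 1)
    (hs5 : 5 ≤ s) (ht5 : 5 ≤ t) (a b c : ZMod s × ZMod t) : Bad3 a b c := by
  apply bad_of_TO
  obtain ⟨P, hP, hPw⟩ := exists_rep (a + b - c - c).1
  obtain ⟨Q, hQ, hQw⟩ := exists_rep (a + b - c - c).2
  exact TO.signs hPw hQw (to_odd_odd hs ht hs5 ht5 hP hQ)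

/-! ## Parity -/

/-- Parity of a residue modulo an even number. -/
def par {n : ℕ} (hn : n % 2 = 0) : ZMod n →+* ZMod 2 :=
  ZMod.castHom (Nat.dvd_of_mod_eq_zero hn) (ZMod 2)

theorem z2_cases (x : ZMod 2) : x = 0 ∨ x = 1 := by
  revert x; decide

theorem z2_add (x : ZMod 2) : x + x = 0 := by
  revert x; decide

theorem par_natCast {n : ℕ} (hn : n % 2 = 0) (P : ℕ) :
    par hn (P : ZMod n) = (P : ZMod 2) := by
  simp [par]

theorem z2_nat (P : ℕ) : ((P : ZMod 2) = 0 ↔ P % 2 = 0) := by
  rw [ZMod.natCast_eq_zero_iff]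
  exact Nat.dvd_iff_mod_eq_zero

theorem z2_nat_eq (P Q : ℕ) : ((P : ZMod 2) = (Q : ZMod 2) ↔ P % 2 = Q % 2) := by
  rw [ZMod.natCast_eq_natCast_iff']

theorem par_rep {n : ℕ} (hn : n % 2 = 0) {x : ZMod n} {P : ℕ}
    (h : x = (P : ZMod n) ∨ x = -(P : ZMod n)) : par hn x = (P : ZMod 2) := by
  rcases h with rfl | rfl
  · exact par_natCast hn P
  · rw [map_neg, par_natCast hn P]
    rcases z2_cases (P : ZMod 2) with h | h <;> rw [h] <;> decide

/-! ## Both lengths even -/

theorem to_of_par {s t : ℕ} [NeZero s] [NeZero t] (hs : s % 2 = 0) (ht : t % 2 = 0)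
    (hs4 : 4 ≤ s) (ht4 : 4 ≤ t) (h6 : 6 ≤ s ∨ 6 ≤ t) (a b c : ZMod s × ZMod t)
    (h : par hs a.1 + par ht a.2 = par hs b.1 + par ht b.2) : TO (a + b - c - c) := by
  obtain ⟨P, hP, hPw⟩ := exists_rep (a + b - c - c).1
  obtain ⟨Q, hQ, hQw⟩ := exists_rep (a + b - c - c).2
  refine TO.signs hPw hQw (to_even_even hs ht hs4 ht4 h6 hP hQ ?_)
  rw [← z2_nat_eq, ← par_rep hs hPw, ← par_rep ht hQw]
  simp only [Prod.fst_sub, Prod.snd_sub, Prod.fst_add, Prod.snd_add, map_sub, map_add]
  have e1 := z2_add (par hs c.1)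
  have e2 := z2_add (par ht c.2)
  have e3 := z2_add (par hs b.1)
  have e4 := z2_add (par ht a.2)
  linear_combination h - e1 + e2 + e3 - e4

theorem bad_even_even {s t : ℕ} [NeZero s] [NeZero t] (hs : s % 2 = 0) (ht : t % 2 = 0)
    (hs4 : 4 ≤ s) (ht4 : 4 ≤ t) (h6 : 6 ≤ s ∨ 6 ≤ t) (a b c : ZMod s × ZMod t) :
    Bad3 a b c := by
  apply bad_of_some
  have key : ∀ x y z : ZMod 2, x = y ∨ y = z ∨ z = x := by decide
  rcases key (par hs a.1 + par ht a.2) (par hs b.1 + par ht b.2) (par hs c.1 + par ht c.2) with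
    h | h | h
  · exact Or.inl (bad_of_TO (to_of_par hs ht hs4 ht4 h6 a b c h))
  · exact Or.inr (Or.inl (bad_of_TO (to_of_par hs ht hs4 ht4 h6 b c a h)))
  · exact Or.inr (Or.inr (bad_of_TO (to_of_par hs ht hs4 ht4 h6 c a b h)))

/-! ## First length odd, second even -/

theorem not_to_odd_even {s t : ℕ} [NeZero s] [NeZero t] (hs : s % 2 = 1) (ht : t % 2 = 0)
    (hs5 : 5 ≤ s) (ht6 : 6 ≤ t) (w : ZMod s × ZMod t) (h : ¬ TO w) :
    ∃ c : ℤ, (c : ZMod s) = w.1 ∧ par ht w.2 = 1 + (c : ZMod 2) ∧ -1 ≤ c ∧ c ≤ 1 := by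
  obtain ⟨P, hP, hPw⟩ := exists_rep w.1
  obtain ⟨Q, hQ, hQw⟩ := exists_rep w.2
  have hpar := par_rep ht hQw
  by_cases h1 : P = 0 ∧ Q % 2 = 1
  · refine ⟨0, ?_, ?_, by norm_num, by norm_num⟩
    · rcases hPw with e | e <;> rw [e, h1.1] <;> simp
    · rw [hpar]
      have : (Q : ZMod 2) = ((1 : ℕ) : ZMod 2) := by rw [z2_nat_eq]; omega
      rw [this]; simp
  by_cases h2 : P = 1 ∧ Q % 2 = 0 ∧ Q ≠ 0
  · have hq : (Q : ZMod 2) = 0 := (z2_nat Q).2 h2.2.1
    rcases hPw with e | e
    · refine ⟨1, ?_, ?_, by norm_num, by norm_num⟩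
      · rw [e, h2.1]; simp
      · rw [hpar, hq]; simp; decide
    · refine ⟨-1, ?_, ?_, by norm_num, by norm_num⟩
      · rw [e, h2.1]; simp
      · rw [hpar, hq]; simp; decide
  exfalso
  apply h
  exact TO.signs hPw hQw (to_odd_even hs ht hs5 ht6 hP hQ h1 h2)

theorem bad_odd_even {s t : ℕ} [NeZero s] [NeZero t] (hs : s % 2 = 1) (ht : t % 2 = 0)
    (hs5 : 5 ≤ s) (ht6 : 6 ≤ t) (a b c : ZMod s × ZMod t) : Bad3 a b c := by
  apply bad_of_some
  by_contra hcon
  push Not at hcon
  obtain ⟨h1, h2, h3⟩ := hcon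
  obtain ⟨c1, k1, l1, m1, n1⟩ := not_to_odd_even hs ht hs5 ht6 _ (fun h => h1 (bad_of_TO h))
  obtain ⟨c2, k2, l2, m2, n2⟩ := not_to_odd_even hs ht hs5 ht6 _ (fun h => h2 (bad_of_TO h))
  obtain ⟨c3, k3, l3, m3, n3⟩ := not_to_odd_even hs ht hs5 ht6 _ (fun h => h3 (bad_of_TO h))
  have hsum : ((c1 + c2 + c3 : ℤ) : ZMod s) = 0 := by
    push_cast
    rw [k1, k2, k3]
    simp only [Prod.fst_sub, Prod.fst_add]
    ring
  rw [ZMod.intCast_zmod_eq_zero_iff_dvd] at hsum
  have hz : c1 + c2 + c3 = 0 := by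
    obtain ⟨k, hk⟩ := hsum
    have hk1 : k < 1 := by
      by_contra hc
      have : (s : ℤ) * 1 ≤ s * k := mul_le_mul_of_nonneg_left (by omega) (by omega)
      omega
    have hk2 : -1 < k := by
      by_contra hc
      have : (s : ℤ) * k ≤ s * (-1) := mul_le_mul_of_nonneg_left (by omega) (by omega)
      omega
    have : k = 0 := by omega
    rw [hk, this]; simp
  have hp : par ht (a + b - c - c).2 + par ht (b + c - a - a).2 + par ht (c + a - b - b).2 = 0 := by
    rw [← map_add, ← map_add]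
    have : (a + b - c - c).2 + (b + c - a - a).2 + (c + a - b - b).2 = 0 := by
      simp only [Prod.snd_sub, Prod.snd_add]
      ring
    rw [this, map_zero]
  rw [l1, l2, l3] at hp
  have h5 : ((c1 + c2 + c3 : ℤ) : ZMod 2) = 0 := by rw [hz]; simp
  push_cast at h5
  have h6 : (3 : ZMod 2) = 0 := by linear_combination hp - h5
  exact absurd h6 (by decide)

/-! ## First length odd, second length four -/

theorem sol_mid {n : ℕ} [NeZero n] (hn : n % 2 = 1) (p : ZMod n) :
    ∃ (m : ZMod n) (c : ℕ), Sol p m c c := by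
  obtain ⟨P, hP, hPw⟩ := exists_rep p
  obtain ⟨z, a, b, hz, hab⟩ := odd_sol (v := 0) hn hP (by omega)
  obtain rfl : a = b := by omega
  rcases hPw with rfl | rfl
  · exact ⟨z, a, hz⟩
  · refine ⟨-z, a, ?_⟩
    unfold Sol at *
    refine ⟨by rw [nz_neg]; exact hz.1, ?_⟩
    have : -(P : ZMod n) - -z = -((P : ZMod n) - z) := by ring
    rw [this, nz_neg]
    exact hz.2

theorem four_cases (x : ZMod 4) (h : par (n := 4) rfl x = 0) : x = 0 ∨ x = 2 := by
  have : ∀ x : ZMod 4, x = 0 ∨ x = 2 ∨ x = 1 ∨ x = 3 := by decide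
  rcases this x with h' | h' | h' | h'
  · exact Or.inl h'
  · exact Or.inr h'
  · exfalso
    rw [h', map_one] at h
    exact absurd h (by decide)
  · exfalso
    have e : (3 : ZMod 4) = ((3 : ℕ) : ZMod 4) := rfl
    rw [h', e, par_natCast] at h
    exact absurd h (by decide)

theorem four_pigeon : ∀ x y : ZMod 4, (x = 0 ∨ x = 2) → (y = 0 ∨ y = 2) →
    x = 0 ∨ y = 0 ∨ x = y := by
  intro x y hx hy
  rcases hx with rfl | rfl <;> rcases hy with rfl | rfl <;> simp

/-- Two points with equal second coordinate, third point at even distance. -/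
theorem bad_four_eq {s : ℕ} [NeZero s] (hs : s % 2 = 1) (hs5 : 5 ≤ s) (a b c : ZMod s × ZMod 4)
    (h : a.2 = b.2) (h' : par (n := 4) rfl a.2 = par (n := 4) rfl c.2) : Bad3 a b c := by
  have hw2 : (a + b - c - c).2 = 0 := by
    have h0 : par (n := 4) rfl (a.2 - c.2) = 0 := by rw [map_sub, h', sub_self]
    have h1 := four_cases _ h0
    have : (a + b - c - c).2 = 2 * (a.2 - c.2) := by
      simp only [Prod.snd_sub, Prod.snd_add]
      rw [← h]
      ring
    rw [this]
    rcases h1 with h1 | h1 <;> rw [h1] <;> decide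
  obtain ⟨m, k, hm⟩ := sol_mid hs (a + b - c - c).1
  unfold Sol at hm
  have h0 : par (n := 4) rfl (a.2 - c.2) = 0 := by rw [map_sub, h', sub_self]
  have h1 : par (n := 4) rfl (b.2 - c.2) = 0 := by rw [map_sub, ← h, h', sub_self]
  apply bad_of_orb (z := (m, 1))
  · refine ⟨?_, ?_⟩
    · unfold nt
      rw [Prod.fst_sub, Prod.snd_sub, hw2]
      simp only [zero_sub, nz_neg]
      omega
    · intro hh
      have := congrArg Prod.snd hh
      rw [Prod.snd_sub, hw2] at this
      change (1 : ZMod 4) = 0 - 1 at this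
      exact absurd this (by decide)
  · intro hh
    have := congrArg Prod.snd hh
    simp only [Prod.snd_sub] at this
    rw [← this, map_one] at h0
    exact absurd h0 (by decide)
  · intro hh
    have := congrArg Prod.snd hh
    simp only [Prod.snd_sub] at this
    rw [← this, map_one] at h1
    exact absurd h1 (by decide)

theorem to_four {s : ℕ} [NeZero s] (hs : s % 2 = 1) (hs5 : 5 ≤ s) (w : ZMod s × ZMod 4)
    (h : (w.1 ≠ 0 ∧ par (n := 4) rfl w.2 = 1) ∨ (w.1 = 0 ∧ par (n := 4) rfl w.2 = 0)) : TO w := by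
  obtain ⟨P, hP, hPw⟩ := exists_rep w.1
  obtain ⟨Q, hQ, hQw⟩ := exists_rep w.2
  have hpar := par_rep (n := 4) rfl hQw
  refine TO.signs hPw hQw (to_odd_four hs hs5 hP hQ ?_)
  rcases h with ⟨h1, h2⟩ | ⟨h1, h2⟩
  · left
    rw [h2] at hpar
    refine ⟨?_, ?_⟩
    · rintro rfl
      apply h1
      rcases hPw with e | e <;> rw [e] <;> simp
    · have : ((1 : ℕ) : ZMod 2) = (Q : ZMod 2) := by rw [← hpar]; simp
      rw [z2_nat_eq] at this
      omega
  · right
    rw [h2] at hpar
    refine ⟨?_, (z2_nat Q).1 hpar.symm⟩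
    by_contra hP0
    have hne := natCast_ne (n := s) (a := P) (b := 0) (by omega) (by omega) hP0
    rw [h1] at hPw
    rcases hPw with e | e
    · exact hne (by rw [← e]; simp)
    · apply hne
      have : (P : ZMod s) = 0 := by linear_combination e
      rw [this]; simp

/-- Parities: `a` and `b` agree, `c` differs. -/
theorem bad_four_two {s : ℕ} [NeZero s] (hs : s % 2 = 1) (hs5 : 5 ≤ s) (a b c : ZMod s × ZMod 4)
    (h : par (n := 4) rfl a.2 = par (n := 4) rfl b.2)
    (h' : par (n := 4) rfl c.2 ≠ par (n := 4) rfl a.2) : Bad3 a b c := by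
  apply bad_of_some
  have hc : par (n := 4) rfl c.2 = par (n := 4) rfl a.2 + 1 := by
    revert h'
    generalize par (n := 4) rfl c.2 = u
    generalize par (n := 4) rfl a.2 = v
    revert u v
    decide
  have w1 : par (n := 4) rfl (b + c - a - a).2 = 1 := by
    simp only [Prod.snd_sub, Prod.snd_add, map_sub, map_add]
    rw [hc, ← h]; ring
  have w2 : par (n := 4) rfl (c + a - b - b).2 = 1 := by
    simp only [Prod.snd_sub, Prod.snd_add, map_sub, map_add]
    rw [hc, ← h]; ring
  have w3 : par (n := 4) rfl (a + b - c - c).2 = 0 := by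
    simp only [Prod.snd_sub, Prod.snd_add, map_sub, map_add]
    rw [hc, ← h]
    have : (2 : ZMod 2) = 0 := by decide
    linear_combination -this
  by_cases k1 : (b + c - a - a).1 = 0
  · by_cases k2 : (c + a - b - b).1 = 0
    · left
      apply bad_of_TO
      apply to_four hs hs5
      right
      refine ⟨?_, w3⟩
      simp only [Prod.fst_sub, Prod.fst_add] at k1 k2 ⊢
      linear_combination -k1 - k2
    · exact Or.inr (Or.inr (bad_of_TO (to_four hs hs5 _ (Or.inl ⟨k2, w2⟩))))
  · exact Or.inr (Or.inl (bad_of_TO (to_four hs hs5 _ (Or.inl ⟨k1, w1⟩))))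

theorem bad_odd_four {s : ℕ} [NeZero s] (hs : s % 2 = 1) (hs5 : 5 ≤ s)
    (a b c : ZMod s × ZMod 4) : Bad3 a b c := by
  by_cases h1 : par (n := 4) rfl a.2 = par (n := 4) rfl b.2
  · by_cases h2 : par (n := 4) rfl c.2 = par (n := 4) rfl a.2
    · -- all parities agree
      have ha : par (n := 4) rfl (a.2 - c.2) = 0 := by rw [map_sub, h2, sub_self]
      have hb : par (n := 4) rfl (b.2 - c.2) = 0 := by rw [map_sub, h2, h1, sub_self]
      rcases four_pigeon _ _ (four_cases _ ha) (four_cases _ hb) with h | h | h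
      · -- a.2 = c.2
        have : a.2 = c.2 := sub_eq_zero.1 h
        exact bad_of_some (Or.inr (Or.inr (bad_four_eq hs hs5 c a b this.symm (by rw [← this, h1]))))
      · have : b.2 = c.2 := sub_eq_zero.1 h
        exact bad_of_some (Or.inr (Or.inl (bad_four_eq hs hs5 b c a this h1.symm)))
      · have : a.2 = b.2 := by linear_combination h
        exact bad_four_eq hs hs5 a b c this h2.symm
    · exact bad_four_two hs hs5 a b c h1 h2
  · by_cases h2 : par (n := 4) rfl b.2 = par (n := 4) rfl c.2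
    · exact bad_of_some (Or.inr (Or.inl (bad_four_two hs hs5 b c a h2 h1)))
    · have h3 : par (n := 4) rfl c.2 = par (n := 4) rfl a.2 := by
        revert h1 h2
        generalize par (n := 4) rfl c.2 = u
        generalize par (n := 4) rfl a.2 = v
        generalize par (n := 4) rfl b.2 = w
        revert u v w
        decide
      exact bad_of_some (Or.inr (Or.inr (bad_four_two hs hs5 c a b h3 h2)))

/-! ## First length three, second odd and at least five -/

theorem three_cases : ∀ x : ZMod 3, x = 0 ∨ x = 1 ∨ x = -1 := by decide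

theorem nz_three : ∀ x : ZMod 3, x ≠ 0 → nz x = 1 := by decide

/-- A solution with value `-1` in the second coordinate. -/
theorem sol_neg_one {n : ℕ} [NeZero n] (hn : n % 2 = 1) (q : ZMod n) (hq : q ≠ 0) :
    ∃ (y : ZMod n) (c : ℕ), Sol q y c (c + 1) := by
  obtain ⟨Q, hQ, hQw⟩ := exists_rep q
  have hQ0 : 1 ≤ Q := by
    rcases Nat.eq_zero_or_pos Q with h | h
    · exfalso
      apply hq
      rw [h] at hQw
      rcases hQw with e | e <;> rw [e] <;> simp
    · exact h
  obtain ⟨z, a, b, hz, hab⟩ := odd_sol (v := 1) hn hQ (by omega)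
  subst hab
  have hz' := hz.flip
  rcases hQw with rfl | rfl
  · exact ⟨_, b, hz'⟩
  · refine ⟨-((Q : ZMod n) - z), b, ?_⟩
    unfold Sol at *
    refine ⟨by rw [nz_neg]; exact hz'.1, ?_⟩
    have : -(Q : ZMod n) - -((Q : ZMod n) - z) = -((Q : ZMod n) - ((Q : ZMod n) - z)) := by ring
    rw [this, nz_neg]
    exact hz'.2

/-- First coordinates: `a` and `b` agree, `c` differs. -/
theorem bad_three_two {t : ℕ} [NeZero t] (ht : t % 2 = 1) (ht5 : 5 ≤ t) (a b c : ZMod 3 × ZMod t)
    (h : a.1 = b.1) (h' : c.1 ≠ a.1) : Bad3 a b c := by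
  have hw1 : (a + b - c - c).1 = c.1 - a.1 := by
    simp only [Prod.fst_sub, Prod.fst_add]
    rw [← h]
    have : (3 : ZMod 3) = 0 := by decide
    linear_combination (a.1 - c.1) * this
  have hne : c.1 - a.1 ≠ 0 := sub_ne_zero.2 h'
  by_cases hw2 : (a + b - c - c).2 = 0
  · apply bad_of_TO
    have hS : Sol (c.1 - a.1) (-(c.1 - a.1)) 1 1 := by
      unfold Sol
      refine ⟨?_, ?_⟩
      · rw [nz_neg]; exact nz_three _ hne
      · have : c.1 - a.1 - -(c.1 - a.1) = -(c.1 - a.1) := by
          have : (3 : ZMod 3) = 0 := by decide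
          linear_combination (c.1 - a.1) * this
        rw [this, nz_neg]; exact nz_three _ hne
    have := (to_zero_five (s := t) (by omega) hS).swap
    rw [← hw1, ← hw2] at this
    exact this
  · obtain ⟨y, k, hy⟩ := sol_neg_one ht _ hw2
    unfold Sol at hy
    apply bad_of_orb (z := (c.1 - a.1, y))
    · refine ⟨?_, ?_⟩
      · unfold nt
        rw [Prod.fst_sub, Prod.snd_sub, hw1]
        simp only [sub_self]
        rw [nz_three _ hne, nz_zero, hy.1, hy.2]
        omega
      · intro hh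
        have := congrArg Prod.fst hh
        rw [Prod.fst_sub, hw1] at this
        simp only [sub_self] at this
        exact hne this
    · intro hh
      have h1 := congrArg Prod.fst hh
      simp only [Prod.fst_sub] at h1
      apply hne
      have : (3 : ZMod 3) = 0 := by decide
      linear_combination (c.1 - a.1) * this - h1
    · intro hh
      have h1 := congrArg Prod.fst hh
      simp only [Prod.fst_sub] at h1
      rw [← h] at h1
      apply hne
      have : (3 : ZMod 3) = 0 := by decide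
      linear_combination (c.1 - a.1) * this - h1

/-- Sum of first coordinates zero: either bad, or `a` and `b` have the same second coordinate. -/
theorem bad_three_zero {t : ℕ} [NeZero t] (ht : t % 2 = 1) (ht5 : 5 ≤ t) (a b c : ZMod 3 × ZMod t)
    (h : a.1 + b.1 + c.1 = 0) : Bad3 a b c ∨ ((a + b - c - c).2 ≠ 0 ∧ a.2 = b.2) := by
  have hw1 : (a + b - c - c).1 = 0 := by
    simp only [Prod.fst_sub, Prod.fst_add]
    have : (3 : ZMod 3) = 0 := by decide
    linear_combination h - c.1 * this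
  by_cases hw2 : (a + b - c - c).2 = 0
  · left
    apply bad_of_TO
    have hS : Sol (0 : ZMod 3) 0 0 0 := by
      unfold Sol
      simp [nz_zero]
    have := (to_zero_five (s := t) (by omega) hS).swap
    rw [← hw1, ← hw2] at this
    exact this
  · obtain ⟨m, k, hm⟩ := sol_mid ht (a + b - c - c).2
    unfold Sol at hm
    have horb : Orb (a + b - c - c) ((1 : ZMod 3), m) := by
      refine ⟨?_, ?_⟩
      · unfold nt
        rw [Prod.fst_sub, Prod.snd_sub, hw1]
        simp only [zero_sub, nz_neg]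
        omega
      · intro hh
        have := congrArg Prod.fst hh
        rw [Prod.fst_sub, hw1] at this
        change (1 : ZMod 3) = 0 - 1 at this
        exact absurd this (by decide)
    have hmm : m = (a + b - c - c).2 - m := by
      have hx : nz m = nz ((a + b - c - c).2 - m) := by rw [hm.1, hm.2]
      obtain ⟨P, hP, hPw⟩ := exists_rep m
      obtain ⟨Q, hQ, hQw⟩ := exists_rep ((a + b - c - c).2 - m)
      have e1 : nz m = P := by
        rcases hPw with e | e
        · rw [e, nz_natCast hP]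
        · rw [e, nz_neg, nz_natCast hP]
      have e2 : nz ((a + b - c - c).2 - m) = Q := by
        rcases hQw with e | e
        · rw [e, nz_natCast hQ]
        · rw [e, nz_neg, nz_natCast hQ]
      have hPQ : P = Q := by omega
      subst hPQ
      rcases hPw with f1 | f1 <;> rcases hQw with f2 | f2
      · rw [f2, f1]
      · exfalso; apply hw2; linear_combination f1 + f2
      · exfalso; apply hw2; linear_combination f1 + f2
      · rw [f2, f1]
    by_cases ha : ((1 : ZMod 3), m) = a - c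
    · right
      refine ⟨hw2, ?_⟩
      have h2 := congrArg Prod.snd ha
      simp only [Prod.snd_sub, Prod.snd_add] at h2 hmm
      linear_combination hmm - 2 * h2
    · by_cases hb : ((1 : ZMod 3), m) = b - c
      · right
        refine ⟨hw2, ?_⟩
        have h2 := congrArg Prod.snd hb
        simp only [Prod.snd_sub, Prod.snd_add] at h2 hmm
        linear_combination -hmm + 2 * h2
      · left
        exact bad_of_orb horb ha hb

theorem bad_three_odd {t : ℕ} [NeZero t] (ht : t % 2 = 1) (ht5 : 5 ≤ t)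
    (a b c : ZMod 3 × ZMod t) : Bad3 a b c := by
  have key : ∀ x y z : ZMod 3, x + y + z = 0 ∨ (x = y ∧ z ≠ x) ∨ (y = z ∧ x ≠ y) ∨
      (z = x ∧ y ≠ z) := by decide
  rcases key a.1 b.1 c.1 with h | h | h | h
  · rcases bad_three_zero ht ht5 a b c h with h1 | ⟨h1, h2⟩
    · exact h1
    · rcases bad_three_zero ht ht5 b c a (by linear_combination h) with h3 | ⟨h3, h4⟩
      · exact bad_of_some (Or.inr (Or.inl h3))
      · exfalso
        apply h1
        simp only [Prod.snd_sub, Prod.snd_add]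
        linear_combination h2 + 2 * h4
  · exact bad_three_two ht ht5 a b c h.1 h.2
  · exact bad_of_some (Or.inr (Or.inl (bad_three_two ht ht5 b c a h.1 h.2)))
  · exact bad_of_some (Or.inr (Or.inr (bad_three_two ht ht5 c a b h.1 h.2)))

end Pool.Agent.Lib.MP_7f5033_co
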