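import Pool.Agent.Lib.MP_7f5033_co.Basic

/-!
# The norm on `ZMod n` and reflections
-/

set_option autoImplicit false

namespace Pool.Agent.Lib.MP_7f5033_co

/-- Distance of `x` to `0` in the cycle `ZMod n`. -/
def nz {n : ℕ} (x : ZMod n) : ℕ := min x.val (n - x.val)

theorem nz_natCast {n P : ℕ} [NeZero n] (h : 2 * P ≤ n) : nz (P : ZMod n) = P := by
  have hn : 0 < n := Nat.pos_of_ne_zero (NeZero.ne n)
  unfold nz
  rw [ZMod.val_natCast_of_lt (by omega)]
  omega

theorem nz_neg {n : ℕ} [NeZero n] (x : ZMod n) : nz (-x) = nz x := by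
  unfold nz
  rw [ZMod.neg_val]
  have := ZMod.val_lt x
  split_ifs with h
  · subst h
    simp
  · omega

theorem nz_zero {n : ℕ} [NeZero n] : nz (0 : ZMod n) = 0 := by
  unfold nz
  rw [ZMod.val_zero]
  simp

theorem nz_eq_zero {n : ℕ} [NeZero n] {x : ZMod n} (h : nz x = 0) : x = 0 := by
  unfold nz at h
  have := ZMod.val_lt x
  rw [← ZMod.val_eq_zero]
  omega

theorem exists_rep {n : ℕ} [NeZero n] (x : ZMod n) :
    ∃ P : ℕ, 2 * P ≤ n ∧ (x = (P : ZMod n) ∨ x = -(P : ZMod n)) := by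
  have := ZMod.val_lt x
  rcases le_or_gt (2 * x.val) n with h | h
  · exact ⟨x.val, h, Or.inl (ZMod.natCast_zmod_val x).symm⟩
  · refine ⟨n - x.val, by omega, Or.inr ?_⟩
    rw [Nat.cast_sub (by omega), ZMod.natCast_zmod_val, ZMod.natCast_self]
    ring

theorem cd_eq_nz {n : ℕ} [NeZero n] (x y : ZMod n) : cd n x.val y.val = nz (x - y) := by
  have hx := ZMod.val_lt x
  have hy := ZMod.val_lt y
  rcases le_total y.val x.val with h | h
  · unfold cd nz
    rw [ZMod.val_sub h]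
    have e1 : (x.val - y.val) + (y.val - x.val) = x.val - y.val := by omega
    rw [e1]
  · rw [← nz_neg, neg_sub]
    unfold cd nz
    rw [ZMod.val_sub h]
    have e1 : (x.val - y.val) + (y.val - x.val) = y.val - x.val := by omega
    rw [e1]

/-- A near solution: if `a + b = P` and `a, b ≤ n / 2`, then `z = a` has norm `a` and `P - z` has
norm `b`. -/
theorem near_sol {n a b P : ℕ} [NeZero n] (ha : 2 * a ≤ n) (hb : 2 * b ≤ n) (h : a + b = P) :
    nz (a : ZMod n) = a ∧ nz ((P : ZMod n) - (a : ZMod n)) = b := by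
  refine ⟨nz_natCast ha, ?_⟩
  have : (P : ZMod n) - (a : ZMod n) = (b : ZMod n) := by
    rw [← h]; push_cast; ring
  rw [this, nz_natCast hb]

/-- A far solution: if `a + b + P = n` and `a, b ≤ n / 2`, then `z = -a` has norm `a` and `P - z`
has norm `b`. -/
theorem far_sol {n a b P : ℕ} [NeZero n] (ha : 2 * a ≤ n) (hb : 2 * b ≤ n) (h : a + b + P = n) :
    nz (-(a : ZMod n)) = a ∧ nz ((P : ZMod n) - -(a : ZMod n)) = b := by
  refine ⟨by rw [nz_neg]; exact nz_natCast ha, ?_⟩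
  have h2 : ((a + b + P : ℕ) : ZMod n) = 0 := by rw [h]; exact ZMod.natCast_self n
  push_cast at h2
  have : (P : ZMod n) - -(a : ZMod n) = -(b : ZMod n) := by
    linear_combination h2
  rw [this, nz_neg, nz_natCast hb]

/-- Two small naturals are different modulo `n`. -/
theorem natCast_ne {n a b : ℕ} [NeZero n] (ha : a < n) (hb : b < n) (h : a ≠ b) :
    (a : ZMod n) ≠ (b : ZMod n) := by
  intro hab
  apply h
  have := congrArg ZMod.val hab
  rwa [ZMod.val_natCast_of_lt ha, ZMod.val_natCast_of_lt hb] at this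

theorem natCast_ne_neg {n a b : ℕ} [NeZero n] (h0 : 0 < a + b) (h : a + b < n) :
    (a : ZMod n) ≠ -(b : ZMod n) := by
  intro hab
  have h1 : ((a + b : ℕ) : ZMod n) = ((0 : ℕ) : ZMod n) := by
    push_cast
    rw [hab]; ring
  exact natCast_ne h (by omega) (by omega) h1

/-- `z` solves `|z| - |p - z| = v` in a cycle; written additively. -/
def Sol {n : ℕ} (p z : ZMod n) (a b : ℕ) : Prop := nz z = a ∧ nz (p - z) = b

/-- Norm on the torus. -/
def nt {s t : ℕ} (z : ZMod s × ZMod t) : ℕ := nz z.1 + nz z.2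

theorem nt_neg {s t : ℕ} [NeZero s] [NeZero t] (z : ZMod s × ZMod t) : nt (-z) = nt z := by
  unfold nt
  rw [Prod.fst_neg, Prod.snd_neg, nz_neg, nz_neg]

theorem nt_eq_zero {s t : ℕ} [NeZero s] [NeZero t] {z : ZMod s × ZMod t} (h : nt z = 0) :
    z = 0 := by
  unfold nt at h
  apply Prod.ext
  · exact nz_eq_zero (by omega)
  · exact nz_eq_zero (by omega)

/-- `z` lies in a good orbit of the reflection `z ↦ w - z`. -/
def Orb {s t : ℕ} (w z : ZMod s × ZMod t) : Prop := nt z = nt (w - z) ∧ z ≠ w - z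

/-- There are two different good orbits of the reflection `z ↦ w - z`. -/
def TO {s t : ℕ} (w : ZMod s × ZMod t) : Prop :=
  ∃ z z' : ZMod s × ZMod t, Orb w z ∧ Orb w z' ∧ z' ≠ z ∧ z' ≠ w - z

theorem TO.neg_fst {s t : ℕ} [NeZero s] [NeZero t] {a : ZMod s} {b : ZMod t} (h : TO (a, b)) :
    TO (-a, b) := by
  obtain ⟨⟨z1, z2⟩, ⟨z1', z2'⟩, ⟨h1, h2⟩, ⟨h3, h4⟩, h5, h6⟩ := h
  refine ⟨(-z1, z2), (-z1', z2'), ⟨?_, ?_⟩, ⟨?_, ?_⟩, ?_, ?_⟩
  · unfold nt at *
    simp only [Prod.fst_sub, Prod.snd_sub] at *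
    rw [nz_neg, h1, ← nz_neg (a - z1)]
    congr 2
    ring
  · intro h
    apply h2
    simp only [Prod.mk_sub_mk, Prod.mk.injEq] at *
    refine ⟨?_, h.2⟩
    have := h.1
    linear_combination -this
  · unfold nt at *
    simp only [Prod.fst_sub, Prod.snd_sub] at *
    rw [nz_neg, h3, ← nz_neg (a - z1')]
    congr 2
    ring
  · intro h
    apply h4
    simp only [Prod.mk_sub_mk, Prod.mk.injEq] at *
    refine ⟨?_, h.2⟩
    have := h.1
    linear_combination -this
  · intro h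
    apply h5
    simp only [Prod.mk.injEq] at *
    exact ⟨neg_injective h.1, h.2⟩
  · intro h
    apply h6
    simp only [Prod.mk_sub_mk, Prod.mk.injEq] at *
    refine ⟨?_, h.2⟩
    have := h.1
    linear_combination -this

theorem TO.swap {s t : ℕ} {a : ZMod s} {b : ZMod t} (h : TO (a, b)) : TO (b, a) := by
  obtain ⟨⟨z1, z2⟩, ⟨z1', z2'⟩, ⟨h1, h2⟩, ⟨h3, h4⟩, h5, h6⟩ := h
  refine ⟨(z2, z1), (z2', z1'), ⟨?_, ?_⟩, ⟨?_, ?_⟩, ?_, ?_⟩
  · unfold nt at *
    simp only [Prod.fst_sub, Prod.snd_sub] at *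
    omega
  · intro h
    apply h2
    simp only [Prod.mk_sub_mk, Prod.mk.injEq] at *
    exact ⟨h.2, h.1⟩
  · unfold nt at *
    simp only [Prod.fst_sub, Prod.snd_sub] at *
    omega
  · intro h
    apply h4
    simp only [Prod.mk_sub_mk, Prod.mk.injEq] at *
    exact ⟨h.2, h.1⟩
  · intro h
    apply h5
    simp only [Prod.mk.injEq] at *
    exact ⟨h.2, h.1⟩
  · intro h
    apply h6
    simp only [Prod.mk_sub_mk, Prod.mk.injEq] at *
    exact ⟨h.2, h.1⟩

theorem TO.neg_snd {s t : ℕ} [NeZero s] [NeZero t] {a : ZMod s} {b : ZMod t} (h : TO (a, b)) :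
    TO (a, -b) := h.swap.neg_fst.swap

/-- `TO` for all sign choices. -/
theorem TO.signs {s t : ℕ} [NeZero s] [NeZero t] {a a' : ZMod s} {b b' : ZMod t}
    (ha : a' = a ∨ a' = -a) (hb : b' = b ∨ b' = -b) (h : TO (a, b)) : TO (a', b') := by
  rcases ha with rfl | rfl <;> rcases hb with rfl | rfl
  · exact h
  · exact h.neg_snd
  · exact h.neg_fst
  · exact h.neg_fst.neg_snd

/-- Building two orbits from solutions in the coordinates with `v ≠ 0`: same `v`. -/
theorem TO.of_sol_same {s t : ℕ} {p : ZMod s} {q : ZMod t} {z1 z1' : ZMod s} {z2 z2' : ZMod t}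
    {a b a' b' c d c' d' : ℕ} (h1 : Sol p z1 a b) (h2 : Sol q z2 c d) (h1' : Sol p z1' a' b')
    (h2' : Sol q z2' c' d') (he : a + c = b + d) (he' : a' + c' = b' + d')
    (hv : a ≠ b) (hv' : (a : ℤ) - b = a' - b') (hne : z1 ≠ z1' ∨ z2 ≠ z2') :
    TO (p, q) := by
  unfold Sol at h1 h2 h1' h2'
  have k1 : nz z1 ≠ nz (p - z1) := by rw [h1.1, h1.2]; exact hv
  have k1' : nz z1' ≠ nz (p - z1') := by rw [h1'.1, h1'.2]; omega
  refine ⟨(z1, z2), (z1', z2'), ⟨?_, ?_⟩, ⟨?_, ?_⟩, ?_, ?_⟩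
  · unfold nt
    simp only [Prod.fst_sub, Prod.snd_sub]
    omega
  · intro h
    simp only [Prod.mk_sub_mk, Prod.mk.injEq] at h
    apply k1
    rw [← h.1]
  · unfold nt
    simp only [Prod.fst_sub, Prod.snd_sub]
    omega
  · intro h
    simp only [Prod.mk_sub_mk, Prod.mk.injEq] at h
    apply k1'
    rw [← h.1]
  · intro h
    simp only [Prod.mk.injEq] at h
    rcases hne with hne | hne
    · exact hne h.1.symm
    · exact hne h.2.symm
  · intro h
    simp only [Prod.mk_sub_mk, Prod.mk.injEq] at h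
    have e1 : nz z1' = b := by rw [h.1]; exact h1.2
    have e2 : nz (p - z1') = a := by rw [h.1, sub_sub_cancel]; exact h1.1
    omega

/-- Building two orbits from solutions with different positive values of `v`. -/
theorem TO.of_sol_diff {s t : ℕ} {p : ZMod s} {q : ZMod t} {z1 z1' : ZMod s} {z2 z2' : ZMod t}
    {a b a' b' c d c' d' : ℕ} (h1 : Sol p z1 a b) (h2 : Sol q z2 c d) (h1' : Sol p z1' a' b')
    (h2' : Sol q z2' c' d') (he : a + c = b + d) (he' : a' + c' = b' + d')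
    (hv : b < a) (hv' : (a : ℤ) - b < a' - b') :
    TO (p, q) := by
  unfold Sol at h1 h2 h1' h2'
  have k1 : nz z1 ≠ nz (p - z1) := by rw [h1.1, h1.2]; omega
  have k1' : nz z1' ≠ nz (p - z1') := by rw [h1'.1, h1'.2]; omega
  refine ⟨(z1, z2), (z1', z2'), ⟨?_, ?_⟩, ⟨?_, ?_⟩, ?_, ?_⟩
  · unfold nt
    simp only [Prod.fst_sub, Prod.snd_sub]
    omega
  · intro h
    simp only [Prod.mk_sub_mk, Prod.mk.injEq] at h
    apply k1
    rw [← h.1]
  · unfold nt
    simp only [Prod.fst_sub, Prod.snd_sub]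
    omega
  · intro h
    simp only [Prod.mk_sub_mk, Prod.mk.injEq] at h
    apply k1'
    rw [← h.1]
  · intro h
    simp only [Prod.mk.injEq] at h
    have e1 := h1'.1
    have e2 := h1'.2
    rw [h.1] at e1 e2
    omega
  · intro h
    simp only [Prod.mk_sub_mk, Prod.mk.injEq] at h
    have e1 : nz z1' = b := by rw [h.1]; exact h1.2
    have e2 : nz (p - z1') = a := by rw [h.1, sub_sub_cancel]; exact h1.1
    omega

/-- Building two orbits when the first coordinate of `w` is `0`. -/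
theorem TO.of_zero {s t : ℕ} [NeZero s] {q : ZMod t} {x x' : ZMod s} {m m' : ZMod t} {c c' : ℕ}
    (h2 : Sol q m c c) (h2' : Sol q m' c' c') (hx : x ≠ -x) (hx' : x' ≠ -x')
    (hne : x ≠ x' ∨ m ≠ m') (hne' : x' ≠ -x ∨ m' ≠ q - m) :
    TO ((0 : ZMod s), q) := by
  unfold Sol at h2 h2'
  refine ⟨(x, m), (x', m'), ⟨?_, ?_⟩, ⟨?_, ?_⟩, ?_, ?_⟩
  · unfold nt
    simp only [Prod.fst_sub, Prod.snd_sub, zero_sub, nz_neg]
    omega
  · intro h
    simp only [Prod.mk_sub_mk, Prod.mk.injEq, zero_sub] at h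
    exact hx h.1
  · unfold nt
    simp only [Prod.fst_sub, Prod.snd_sub, zero_sub, nz_neg]
    omega
  · intro h
    simp only [Prod.mk_sub_mk, Prod.mk.injEq, zero_sub] at h
    exact hx' h.1
  · intro h
    simp only [Prod.mk.injEq] at h
    rcases hne with hne | hne
    · exact hne h.1.symm
    · exact hne h.2.symm
  · intro h
    simp only [Prod.mk_sub_mk, Prod.mk.injEq, zero_sub] at h
    rcases hne' with hne | hne
    · exact hne h.1
    · exact hne h.2

end Pool.Agent.Lib.MP_7f5033_co
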