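import Pool.Agent.Lib.MP_7f5033_co.Check

/-!
# Digits and bits of the tables used by the checker
-/

set_option autoImplicit false

namespace Pool.Agent.Lib.MP_7f5033_co

theorem force_eq (f : ℕ → ℕ) (n : ℕ) : force f n = f n := by
  cases n <;> rfl

theorem dig_def (w F x : ℕ) : dig w F x = F / 2 ^ (w * x) % 2 ^ w := by
  have : dig w F x = (F >>> (w * x)) % 2 ^ w := rfl
  rw [this, Nat.shiftRight_eq_div_pow]

theorem dig_lt (w F x : ℕ) : dig w F x < 2 ^ w := by
  rw [dig_def]
  exact Nat.mod_lt _ (by positivity)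

theorem dig_zero (w F : ℕ) : dig w F 0 = F % 2 ^ w := by
  rw [dig_def]; simp

theorem dig_succ (w F x : ℕ) : dig w F (x + 1) = dig w (F / 2 ^ w) x := by
  rw [dig_def, dig_def, Nat.div_div_eq_div_mul, ← pow_add]
  congr 3
  ring

/-- Digits add up if there is no carry. -/
theorem dig_add (w : ℕ) : ∀ (n F H : ℕ), (∀ j ≤ n, dig w F j + dig w H j < 2 ^ w) →
    dig w (F + H) n = dig w F n + dig w H n := by
  intro n
  induction n with
  | zero =>
    intro F H h
    have h0 := h 0 le_rfl
    rw [dig_zero, dig_zero] at h0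
    rw [dig_zero, dig_zero, dig_zero, Nat.add_mod, Nat.mod_eq_of_lt h0]
  | succ n ih =>
    intro F H h
    have h0 := h 0 (by omega)
    rw [dig_zero, dig_zero] at h0
    rw [dig_succ, dig_succ, dig_succ]
    have e : (F + H) / 2 ^ w = F / 2 ^ w + H / 2 ^ w := by
      rw [Nat.add_div (by positivity)]
      rw [if_neg (by omega)]
      rfl
    rw [e]
    apply ih
    intro j hj
    have := h (j + 1) (by omega)
    rwa [dig_succ, dig_succ] at this

theorem dig_shift (w F k j : ℕ) : dig w (Nat.shiftRight F (w * k)) j = dig w F (j + k) := by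
  have e : Nat.shiftRight F (w * k) = F / 2 ^ (w * k) := Nat.shiftRight_eq_div_pow F (w * k)
  rw [e, dig_def, dig_def, Nat.div_div_eq_div_mul, ← pow_add]
  congr 3
  ring

theorem dig_single {w h v : ℕ} (hw : h < w) (j : ℕ) :
    dig w (2 ^ (h + w * v)) j = if j = v then 2 ^ h else 0 := by
  rw [dig_def]
  split_ifs with hj
  · subst hj
    rw [pow_add, Nat.mul_div_cancel _ (by positivity)]
    exact Nat.mod_eq_of_lt (Nat.pow_lt_pow_right (by norm_num) hw)
  · rcases lt_or_gt_of_ne hj with hlt | hgt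
    · have e : 2 ^ (h + w * v) = 2 ^ (w * j) * (2 ^ w * 2 ^ (h + w * (v - j - 1))) := by
        rw [← pow_add, ← pow_add]
        congr 1
        obtain ⟨d, rfl⟩ : ∃ d, v = j + 1 + d := ⟨v - j - 1, by omega⟩
        have : j + 1 + d - j - 1 = d := by omega
        rw [this]
        ring
      rw [e, Nat.mul_div_cancel_left _ (by positivity)]
      exact Nat.mul_mod_right _ _
    · have : 2 ^ (h + w * v) / 2 ^ (w * j) = 0 := by
        apply Nat.div_eq_of_lt
        apply Nat.pow_lt_pow_right (by norm_num)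
        obtain ⟨d, rfl⟩ : ∃ d, j = v + 1 + d := ⟨j - v - 1, by omega⟩
        have : w * (v + 1 + d) = w * v + w + w * d := by ring
        have h2 : 0 ≤ w * d := Nat.zero_le _
        omega
      rw [this]
      simp

/-- The digits of a number given by a sum of digits. -/
theorem dig_sum (w : ℕ) (a : ℕ → ℕ) (T : ℕ → ℕ) (h0 : T 0 = 0)
    (hT : ∀ n, T (n + 1) = T n + a n * 2 ^ (w * n)) (ha : ∀ n, a n < 2 ^ w) (n : ℕ) :
    T n < 2 ^ (w * n) ∧ ∀ j, dig w (T n) j = if j < n then a j else 0 := by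
  induction n with
  | zero =>
    refine ⟨by rw [h0]; positivity, fun j => ?_⟩
    rw [h0, dig_def]
    simp
  | succ n ih =>
    obtain ⟨ih1, ih2⟩ := ih
    have hlt : T (n + 1) < 2 ^ (w * (n + 1)) := by
      rw [hT, mul_add, mul_one, pow_add]
      have h1 : a n + 1 ≤ 2 ^ w := ha n
      calc T n + a n * 2 ^ (w * n) < 2 ^ (w * n) + a n * 2 ^ (w * n) := by omega
        _ = (a n + 1) * 2 ^ (w * n) := by ring
        _ ≤ 2 ^ w * 2 ^ (w * n) := Nat.mul_le_mul_right _ h1
        _ = 2 ^ (w * n) * 2 ^ w := by ring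
    refine ⟨hlt, fun j => ?_⟩
    rcases lt_trichotomy j n with hj | hj | hj
    · rw [if_pos (by omega)]
      have := ih2 j
      rw [if_pos hj] at this
      rw [← this, hT, dig_def, dig_def]
      obtain ⟨d, rfl⟩ : ∃ d, n = j + 1 + d := ⟨n - j - 1, by omega⟩
      have e : a (j + 1 + d) * 2 ^ (w * (j + 1 + d)) =
          2 ^ (w * j) * (2 ^ w * (a (j + 1 + d) * 2 ^ (w * d))) := by
        have : w * (j + 1 + d) = w * j + w + w * d := by ring
        rw [this, pow_add, pow_add]
        ring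
      rw [e, Nat.add_mul_div_left _ _ (by positivity), Nat.add_mul_mod_self_left]
    · subst hj
      rw [if_pos (by omega), hT, dig_def, Nat.add_mul_div_right _ _ (by positivity),
        Nat.div_eq_of_lt ih1, zero_add]
      exact Nat.mod_eq_of_lt (ha j)
    · rw [if_neg (by omega), dig_def]
      have : T (n + 1) / 2 ^ (w * j) = 0 := by
        apply Nat.div_eq_of_lt
        exact lt_of_lt_of_le hlt (Nat.pow_le_pow_right (by norm_num)
          (Nat.mul_le_mul_left _ hj))
      rw [this]
      simp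

theorem shiftLeft_one (k : ℕ) : Nat.shiftLeft 1 k = 2 ^ k := by
  have : Nat.shiftLeft 1 k = 1 <<< k := rfl
  rw [this, Nat.shiftLeft_eq, one_mul]

/-- Digits of the table `mkP`. -/
theorem dig_mkP {s t w : ℕ} (hw : ∀ i, 8 ^ dd s t i < 2 ^ w) (n j : ℕ) :
    dig w (mkP s t w n) j = if j < n then 8 ^ dd s t j else 0 := by
  refine (dig_sum w (fun i => 8 ^ dd s t i) (fun n => mkP s t w n) rfl ?_ hw n).2 j
  intro n
  change mkP s t w n + Nat.shiftLeft 1 (3 * dd s t n + w * n) = _
  rw [shiftLeft_one, pow_add, pow_mul]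
  norm_num

/-- Digits of the markers. -/
theorem dig_mkK {s t w h : ℕ} (hw : h < w) (n j : ℕ) :
    dig w (mkK s t w h n) j = if j < n then (if inWin s t j = true then 0 else 2 ^ h) else 0 := by
  refine (dig_sum w (fun i => if inWin s t i = true then 0 else 2 ^ h)
    (fun n => mkK s t w h n) rfl ?_ ?_ n).2 j
  · intro n
    change cond (inWin s t n) (mkK s t w h n) (mkK s t w h n + Nat.shiftLeft 1 (h + w * n)) = _
    rw [shiftLeft_one, pow_add]
    cases inWin s t n <;> simp
  · intro n
    split_ifs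
    · positivity
    · exact Nat.pow_lt_pow_right (by norm_num) hw

theorem testBit_shiftLeft_one (k j : ℕ) :
    Nat.testBit (Nat.shiftLeft 1 k) j = decide (j = k) := by
  rw [shiftLeft_one, Nat.testBit_two_pow]
  by_cases h : k = j
  · subst h; simp
  · simp [h, Ne.symm h]

theorem testBit_lor' (a b j : ℕ) :
    Nat.testBit (Nat.lor a b) j = (Nat.testBit a j || Nat.testBit b j) :=
  Nat.testBit_or a b j

theorem testBit_land' (a b j : ℕ) :
    Nat.testBit (Nat.land a b) j = (Nat.testBit a j && Nat.testBit b j) :=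
  Nat.testBit_and a b j

theorem testBit_xor' (a b j : ℕ) :
    Nat.testBit (Nat.xor a b) j = (Nat.testBit a j ^^ Nat.testBit b j) :=
  Nat.testBit_xor a b j

theorem testBit_shiftRight' (a k j : ℕ) :
    Nat.testBit (Nat.shiftRight a k) j = Nat.testBit a (k + j) :=
  Nat.testBit_shiftRight a

/-- Bits of the distance table. -/
theorem testBit_mkM (s t l n j : ℕ) :
    Nat.testBit (mkM s t l n) j = true ↔ ∃ i < n, j = l * dd s t i + i := by
  induction n with
  | zero =>
    have : mkM s t l 0 = 0 := rfl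
    rw [this]
    simp
  | succ n ih =>
    change Nat.testBit (Nat.lor (mkM s t l n) (Nat.shiftLeft 1 (l * dd s t n + n))) j = true ↔ _
    rw [testBit_lor', testBit_shiftLeft_one, Bool.or_eq_true, ih, decide_eq_true_eq]
    constructor
    · rintro (⟨i, hi, h⟩ | h)
      · exact ⟨i, by omega, h⟩
      · exact ⟨n, by omega, h⟩
    · rintro ⟨i, hi, h⟩
      rcases Nat.lt_succ_iff_lt_or_eq.1 hi with h1 | h1
      · exact Or.inl ⟨i, h1, h⟩
      · subst h1; exact Or.inr h

theorem testBit_mkM' {s t l : ℕ} {i k : ℕ} (hi : i < l) :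
    Nat.testBit (mkM s t l l) (l * k + i) = true ↔ dd s t i = k := by
  rw [testBit_mkM]
  constructor
  · rintro ⟨i', hi', h⟩
    have h1 : (l * k + i) / l = (l * dd s t i' + i') / l := by rw [h]
    have h2 : (l * k + i) % l = (l * dd s t i' + i') % l := by rw [h]
    have hl : 0 < l := by omega
    rw [Nat.mul_add_div hl, Nat.mul_add_div hl, Nat.div_eq_of_lt hi, Nat.div_eq_of_lt hi'] at h1
    rw [Nat.mul_add_mod, Nat.mul_add_mod, Nat.mod_eq_of_lt hi, Nat.mod_eq_of_lt hi'] at h2
    subst h2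
    omega
  · intro h
    exact ⟨i, hi, by rw [h]⟩

/-- Bits of the window. -/
theorem testBit_mkW (s t n j : ℕ) :
    Nat.testBit (mkW s t n) j = true ↔ j < n ∧ inWin s t j = true := by
  induction n with
  | zero =>
    have : mkW s t 0 = 0 := rfl
    rw [this]
    simp
  | succ n ih =>
    change Nat.testBit (cond (inWin s t n) (Nat.lor (mkW s t n) (Nat.shiftLeft 1 n))
      (mkW s t n)) j = true ↔ _
    cases hn : inWin s t n with
    | false =>
      simp only [cond_false]
      rw [ih]
      constructor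
      · rintro ⟨h1, h2⟩; exact ⟨by omega, h2⟩
      · rintro ⟨h1, h2⟩
        refine ⟨?_, h2⟩
        rcases Nat.lt_succ_iff_lt_or_eq.1 h1 with h | h
        · exact h
        · subst h; rw [hn] at h2; cases h2
    | true =>
      simp only [cond_true]
      rw [testBit_lor', testBit_shiftLeft_one, Bool.or_eq_true, ih, decide_eq_true_eq]
      constructor
      · rintro (⟨h1, h2⟩ | h)
        · exact ⟨by omega, h2⟩
        · subst h; exact ⟨by omega, hn⟩
      · rintro ⟨h1, h2⟩
        rcases Nat.lt_succ_iff_lt_or_eq.1 h1 with h | h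
        · exact Or.inl ⟨h, h2⟩
        · exact Or.inr h

/-- Bits of a row of the distance table. -/
theorem testBit_row {s t l r i : ℕ} :
    Nat.testBit (row l (mkM s t l l) r) i = true ↔ i < l ∧ dd s t i = r := by
  have e : row l (mkM s t l l) r = (mkM s t l l >>> (l * r)) % 2 ^ l := rfl
  rw [e, Nat.testBit_mod_two_pow, Nat.testBit_shiftRight]
  constructor
  · intro h
    rw [Bool.and_eq_true, decide_eq_true_eq] at h
    exact ⟨h.1, (testBit_mkM' h.1).1 h.2⟩
  · rintro ⟨h1, h2⟩
    rw [Bool.and_eq_true, decide_eq_true_eq]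
    exact ⟨h1, (testBit_mkM' h1).2 h2⟩

theorem testBit_orsh {k z i : ℕ} (h : Nat.testBit (orsh k z) i = true) :
    ∃ e : ℕ, (e = 0 ∨ e = 1) ∧ Nat.testBit z (i + k * e) = true := by
  unfold orsh at h
  rw [testBit_lor', testBit_shiftRight', Bool.or_eq_true] at h
  rcases h with h | h
  · exact ⟨0, Or.inl rfl, by simpa using h⟩
  · exact ⟨1, Or.inr rfl, by rw [mul_one, Nat.add_comm]; exact h⟩

/-- Bits of the bisector mask. -/
theorem testBit_bis {s t l d i : ℕ} (h : Nat.testBit (bis l (mkM s t l l) d) i = true) :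
    ∃ k : ℕ, Nat.testBit (mkM s t l l) (l * k + i) = true ∧
      Nat.testBit (mkM s t l l) (l * k + (i + d)) = true := by
  have e : bis l (mkM s t l l) d = (orsh l (orsh (l * 2) (orsh (l * 4) (orsh (l * 8)
    (orsh (l * 16) (Nat.land (mkM s t l l) (Nat.shiftRight (mkM s t l l) d))))))) % 2 ^ l := rfl
  rw [e, Nat.testBit_mod_two_pow, Bool.and_eq_true] at h
  obtain ⟨_, h⟩ := h
  obtain ⟨e1, _, h⟩ := testBit_orsh h
  obtain ⟨e2, _, h⟩ := testBit_orsh h
  obtain ⟨e3, _, h⟩ := testBit_orsh h
  obtain ⟨e4, _, h⟩ := testBit_orsh h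
  obtain ⟨e5, _, h⟩ := testBit_orsh h
  rw [testBit_land', testBit_shiftRight', Bool.and_eq_true] at h
  refine ⟨e1 + 2 * e2 + 4 * e3 + 8 * e4 + 16 * e5, ?_, ?_⟩
  · have : l * (e1 + 2 * e2 + 4 * e3 + 8 * e4 + 16 * e5) + i =
        i + l * e1 + l * 2 * e2 + l * 4 * e3 + l * 8 * e4 + l * 16 * e5 := by ring
    rw [this]; exact h.1
  · have : l * (e1 + 2 * e2 + 4 * e3 + 8 * e4 + 16 * e5) + (i + d) =
        d + (i + l * e1 + l * 2 * e2 + l * 4 * e3 + l * 8 * e4 + l * 16 * e5) := by ring
    rw [this]; exact h.2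

theorem dd_of_bis {s t l d i : ℕ} (hi : i + d < l)
    (h : Nat.testBit (bis l (mkM s t l l) d) i = true) : dd s t i = dd s t (i + d) := by
  obtain ⟨k, h1, h2⟩ := testBit_bis h
  rw [testBit_mkM' (by omega)] at h1
  rw [testBit_mkM' hi] at h2
  rw [h1, h2]

/-- Bits of a ball. -/
theorem testBit_mkBall {s t l r i : ℕ} :
    Nat.testBit (mkBall l (mkM s t l l) r) i = true ↔ i < l ∧ 1 ≤ dd s t i ∧ dd s t i ≤ r := by
  induction r with
  | zero =>
    have : mkBall l (mkM s t l l) 0 = 0 := rfl
    rw [this]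
    simp only [Nat.zero_testBit]
    constructor
    · intro h; cases h
    · intro h; omega
  | succ r ih =>
    change Nat.testBit (Nat.lor (mkBall l (mkM s t l l) r) (row l (mkM s t l l) (r + 1))) i =
      true ↔ _
    rw [testBit_lor', Bool.or_eq_true, ih, testBit_row]
    omega

end Pool.Agent.Lib.MP_7f5033_co
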