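import Pool.Agent.Lib.MP_7f5033_co.Sound1
import Pool.Agent.Lib.MP_7f5033_co.Basic

/-!
# Soundness of the checker
-/

set_option autoImplicit false

namespace Pool.Agent.Lib.MP_7f5033_co

theorem cdm_eq {n a : ℕ} : cdm n a = min (a % n) (n - a % n) := by
  change cond (Nat.ble (2 * (a % n)) n) (a % n) (n - a % n) = _
  cases h : Nat.ble (2 * (a % n)) n with
  | true =>
    have := Nat.le_of_ble_eq_true h
    simp only [cond_true]
    omega
  | false =>
    have : ¬ (2 * (a % n) ≤ n) := by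
      intro h'
      rw [Nat.ble_eq_true_of_le h'] at h
      cases h
    simp only [cond_false]
    omega

theorem cdm_add {n a b : ℕ} (ha : a < n) (hb : b < n) : cdm n (a + (n - b)) = cd n a b := by
  rw [cdm_eq]
  unfold cd
  rcases le_or_gt b a with h | h
  · have e : a + (n - b) = (a - b) + n := by omega
    rw [e, Nat.add_mod_right, Nat.mod_eq_of_lt (by omega)]
    omega
  · rw [Nat.mod_eq_of_lt (by omega)]
    omega

theorem cdm_le {n a : ℕ} : cdm n a ≤ n / 2 := by
  rw [cdm_eq]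
  omega

theorem dd_le (s t i : ℕ) : dd s t i ≤ s / 2 + t / 2 :=
  Nat.add_le_add cdm_le cdm_le

theorem inWin_iff (s t i : ℕ) : inWin s t i = true ↔ i / (2 * t) < s ∧ i % (2 * t) < t := by
  change (Nat.blt (i / (2 * t)) s && Nat.blt (i % (2 * t)) t) = true ↔ _
  rw [Bool.and_eq_true, Nat.blt_eq, Nat.blt_eq]

/-- Distance of two points given by indices. -/
def dN (s t x u : ℕ) : ℕ := cd s (x / (2 * t)) (u / (2 * t)) + cd t (x % (2 * t)) (u % (2 * t))

theorem dN_comm (s t x u : ℕ) : dN s t x u = dN s t u x := by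
  unfold dN
  rw [cd_comm s, cd_comm t]

theorem dN_self (s t x : ℕ) : dN s t x x = 0 := by
  unfold dN
  rw [cd_self, cd_self]

theorem dN_eq_zero {s t x u : ℕ} (hx : inWin s t x = true) (hu : inWin s t u = true)
    (h : dN s t x u = 0) : x = u := by
  rw [inWin_iff] at hx hu
  unfold dN at h
  have h1 := cd_eq_zero hx.1 hu.1 (Nat.eq_zero_of_add_eq_zero_right h)
  have h2 := cd_eq_zero hx.2 hu.2 (Nat.eq_zero_of_add_eq_zero_left h)
  rw [← Nat.div_add_mod x (2 * t), ← Nat.div_add_mod u (2 * t), h1, h2]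

/-- The index of a difference of two points. -/
theorem idx_diff {s t x u : ℕ} (hx : inWin s t x = true) (hu : inWin s t u = true) :
    (x + (s * (2 * t) + t - u)) / (2 * t) = x / (2 * t) + (s - u / (2 * t)) ∧
    (x + (s * (2 * t) + t - u)) % (2 * t) = x % (2 * t) + (t - u % (2 * t)) := by
  rw [inWin_iff] at hx hu
  obtain ⟨hx1, hx2⟩ := hx
  obtain ⟨hu1, hu2⟩ := hu
  set W := 2 * t with hW
  have ht : 0 < W := by omega
  have ex := Nat.div_add_mod x W
  have eu := Nat.div_add_mod u W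
  set xa := x / W
  set xb := x % W
  set ua := u / W
  set ub := u % W
  obtain ⟨d, hd⟩ : ∃ d, s = ua + d := ⟨s - ua, by omega⟩
  have key : x + (s * W + t - u) = W * (xa + d) + (xb + (t - ub)) := by
    have h1 : s * W = W * ua + W * d := by rw [hd]; ring
    have h2 : W * (xa + d) = W * xa + W * d := by ring
    omega
  have hlt : xb + (t - ub) < W := by omega
  have hs : s - ua = d := by omega
  rw [key, hs]
  constructor
  · rw [Nat.mul_add_div ht, Nat.div_eq_of_lt hlt, add_zero]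
  · rw [Nat.mul_add_mod, Nat.mod_eq_of_lt hlt]

theorem dd_diff {s t x u : ℕ} (hx : inWin s t x = true) (hu : inWin s t u = true) :
    dd s t (x + (s * (2 * t) + t - u)) = dN s t x u := by
  have h := idx_diff hx hu
  rw [inWin_iff] at hx hu
  change cdm s ((x + (s * (2 * t) + t - u)) / (2 * t)) +
    cdm t ((x + (s * (2 * t) + t - u)) % (2 * t)) = _
  rw [h.1, h.2, cdm_add hx.1 hu.1, cdm_add hx.2 hu.2]
  rfl

theorem idx_lt {s t x u : ℕ} (hx : inWin s t x = true) (hu : inWin s t u = true) :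
    x + (s * (2 * t) + t - u) < 2 * (s * (2 * t)) := by
  have h := idx_diff hx hu
  rw [inWin_iff] at hx hu
  have ht : 0 < 2 * t := by omega
  have h1 : (x + (s * (2 * t) + t - u)) / (2 * t) < 2 * s := by
    rw [h.1, two_mul s]
    exact Nat.add_lt_add_of_lt_of_le hx.1 (Nat.sub_le _ _)
  have h2 := (Nat.div_lt_iff_lt_mul ht).1 h1
  calc _ < 2 * s * (2 * t) := h2
    _ = 2 * (s * (2 * t)) := by ring

theorem win_lt {s t x : ℕ} (hx : inWin s t x = true) : x < s * (2 * t) - t := by
  rw [inWin_iff] at hx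
  obtain ⟨h1, h2⟩ := hx
  have ex := Nat.div_add_mod x (2 * t)
  set xa := x / (2 * t)
  set xb := x % (2 * t)
  obtain ⟨d, rfl⟩ : ∃ d, s = xa + 1 + d := ⟨s - xa - 1, by omega⟩
  have e : (xa + 1 + d) * (2 * t) = 2 * t * xa + 2 * t + d * (2 * t) := by ring
  have : 0 ≤ d * (2 * t) := Nat.zero_le _
  omega

/-- The digit value of a single point. -/
def gv (s t i : ℕ) : ℕ := if i < 2 * (s * (2 * t)) then 8 ^ dd s t i else 0

theorem gv_le (s t i : ℕ) : gv s t i ≤ 8 ^ (s / 2 + t / 2) := by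
  unfold gv
  split_ifs
  · exact Nat.pow_le_pow_right (by norm_num) (dd_le s t i)
  · exact Nat.zero_le _

/-- The sum of digit values over a set of points. -/
def SU (s t : ℕ) (U : Finset ℕ) (x : ℕ) : ℕ :=
  ∑ u ∈ U, gv s t (x + (s * (2 * t) + t - u))

theorem SU_le (s t : ℕ) (U : Finset ℕ) (x : ℕ) :
    SU s t U x ≤ U.card * 8 ^ (s / 2 + t / 2) := by
  unfold SU
  calc _ ≤ ∑ _u ∈ U, 8 ^ (s / 2 + t / 2) := Finset.sum_le_sum (fun u _ => gv_le s t _)
    _ = _ := by rw [Finset.sum_const, smul_eq_mul]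

theorem SU_insert {s t v : ℕ} {U : Finset ℕ} (hv : v ∉ U) (x : ℕ) :
    SU s t (insert v U) x = gv s t (x + (s * (2 * t) + t - v)) + SU s t U x := by
  unfold SU
  rw [Finset.sum_insert hv]

theorem gv_diff {s t x u : ℕ} (hx : inWin s t x = true) (hu : inWin s t u = true) :
    gv s t (x + (s * (2 * t) + t - u)) = 8 ^ dN s t x u := by
  unfold gv
  rw [if_pos (idx_lt hx hu), dd_diff hx hu]

theorem pow8_mod {k : ℕ} (h : k ≠ 0) : 8 ^ k % 8 = 0 := by
  obtain ⟨m, rfl⟩ := Nat.exists_eq_succ_of_ne_zero h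
  rw [pow_succ]
  exact Nat.mul_mod_left _ _

theorem SU_mod {s t x : ℕ} {U : Finset ℕ} (hx : inWin s t x = true)
    (hU : ∀ u ∈ U, inWin s t u = true) :
    SU s t U x % 8 = if x ∈ U then 1 else 0 := by
  induction U using Finset.induction_on with
  | empty => simp [SU]
  | insert v U hv ih =>
    have ih' := ih (fun u hu => hU u (Finset.mem_insert_of_mem hu))
    have hvw := hU v (Finset.mem_insert_self _ _)
    rw [SU_insert hv, gv_diff hx hvw, Nat.add_mod, ih']
    by_cases hxv : x = v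
    · subst hxv
      rw [dN_self, if_neg hv, if_pos (Finset.mem_insert_self _ _)]
      rfl
    · have h0 : dN s t x v ≠ 0 := fun h => hxv (dN_eq_zero hx hvw h)
      rw [pow8_mod h0]
      by_cases hxU : x ∈ U
      · rw [if_pos hxU, if_pos (Finset.mem_insert_of_mem hxU)]
      · rw [if_neg hxU, if_neg]
        rw [Finset.mem_insert, not_or]
        exact ⟨hxv, hxU⟩

/-- `V` does not resolve, in terms of indices. -/
def NR (s t : ℕ) (V : Finset ℕ) : Prop :=
  ∃ x y, inWin s t x = true ∧ inWin s t y = true ∧ x ≠ y ∧ x ∉ V ∧ y ∉ V ∧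
    SU s t V x = SU s t V y

/-- The first table represents the set `U`. -/
def RepF (s t w h : ℕ) (U : Finset ℕ) (F : ℕ) : Prop :=
  ∀ x < 2 * (s * (2 * t) - t), dig w F x =
    SU s t U x + if inWin s t x = true ∧ x ∉ U then 0 else 2 ^ h

/-- The second table represents the set `U`. -/
def RepG (s t w h : ℕ) (U : Finset ℕ) (G : ℕ) : Prop :=
  ∀ x < 2 * (s * (2 * t) - t), dig w G x =
    SU s t U x + if inWin s t x = true then 0 else 2 * 2 ^ h

theorem dig_mkP' {s t w : ℕ} (hw : ∀ i, 8 ^ dd s t i < 2 ^ w) (j : ℕ) :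
    dig w (mkP s t w (2 * (s * (2 * t)))) j = gv s t j := by
  rw [dig_mkP hw]
  rfl

/-- Size assumption: the sums never reach the markers. -/
def Big (s t h : ℕ) : Prop := 7 * 8 ^ (s / 2 + t / 2) < 2 ^ h

theorem SU_lt {s t h : ℕ} (hb : Big s t h) {U : Finset ℕ} (hU : U.card ≤ 7) (x : ℕ) :
    SU s t U x < 2 ^ h := by
  have h1 := SU_le s t U x
  have h2 : U.card * 8 ^ (s / 2 + t / 2) ≤ 7 * 8 ^ (s / 2 + t / 2) :=
    Nat.mul_le_mul_right _ hU
  unfold Big at hb
  omega

theorem gv_lt {s t h : ℕ} (hb : Big s t h) (i : ℕ) : gv s t i < 2 ^ h := by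
  have := gv_le s t i
  unfold Big at hb
  omega

theorem two_pow_w {h : ℕ} : 2 ^ (h + 2) = 4 * 2 ^ h := by
  rw [pow_add]; ring

theorem pow_dd_lt {s t h : ℕ} (hb : Big s t h) (i : ℕ) : 8 ^ dd s t i < 2 ^ (h + 2) := by
  have h1 : 8 ^ dd s t i ≤ 8 ^ (s / 2 + t / 2) :=
    Nat.pow_le_pow_right (by norm_num) (dd_le s t i)
  rw [two_pow_w]
  unfold Big at hb
  omega

theorem RepF_insert {s t h F v : ℕ} {U : Finset ℕ} (hb : Big s t h) (hU : U.card + 1 ≤ 7)
    (hv : v ∉ U) (hvw : inWin s t v = true) (hF : RepF s t (h + 2) h U F) :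
    RepF s t (h + 2) h (insert v U)
      (addF (s * (2 * t) + t) (h + 2) h (mkP s t (h + 2) (2 * (s * (2 * t)))) F v) := by
  intro x hx
  have e : addF (s * (2 * t) + t) (h + 2) h (mkP s t (h + 2) (2 * (s * (2 * t)))) F v =
      (F + Nat.shiftRight (mkP s t (h + 2) (2 * (s * (2 * t))))
        ((h + 2) * (s * (2 * t) + t - v))) + 2 ^ (h + (h + 2) * v) := by
    rw [← shiftLeft_one]; rfl
  have hd1 : ∀ j, dig (h + 2) (Nat.shiftRight (mkP s t (h + 2) (2 * (s * (2 * t))))
      ((h + 2) * (s * (2 * t) + t - v))) j = gv s t (j + (s * (2 * t) + t - v)) := by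
    intro j
    rw [dig_shift, dig_mkP' (pow_dd_lt hb)]
  have hd2 : ∀ j, dig (h + 2) (2 ^ (h + (h + 2) * v)) j = if j = v then 2 ^ h else 0 := by
    intro j
    exact dig_single (by omega) j
  have hsum : ∀ j ≤ x, dig (h + 2) (F + Nat.shiftRight (mkP s t (h + 2) (2 * (s * (2 * t))))
        ((h + 2) * (s * (2 * t) + t - v))) j =
      SU s t (insert v U) j + if inWin s t j = true ∧ j ∉ U then 0 else 2 ^ h := by
    intro j hj
    have hle : ∀ j' ≤ j, dig (h + 2) F j' + dig (h + 2)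
        (Nat.shiftRight (mkP s t (h + 2) (2 * (s * (2 * t))))
        ((h + 2) * (s * (2 * t) + t - v))) j' < 2 ^ (h + 2) := by
      intro j' hj'
      rw [hd1, hF j' (by omega), two_pow_w]
      have h1 := SU_lt hb (U := U) (by omega) j'
      have h2 := gv_lt hb (j' + (s * (2 * t) + t - v))
      split_ifs <;> omega
    rw [dig_add _ _ _ _ hle, hd1, hF j (by omega), SU_insert hv]
    ring
  rw [e, dig_add]
  · rw [hsum x le_rfl, hd2]
    by_cases hxv : x = v
    · subst hxv
      rw [if_pos ⟨hvw, hv⟩, if_pos rfl, if_neg]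
      · ring
      · rintro ⟨_, h2⟩
        exact h2 (Finset.mem_insert_self _ _)
    · rw [if_neg hxv]
      have : (inWin s t x = true ∧ x ∉ insert v U) ↔ (inWin s t x = true ∧ x ∉ U) := by
        rw [Finset.mem_insert, not_or]
        tauto
      simp only [this, add_zero]
  · intro j hj
    rw [hsum j hj, hd2, two_pow_w]
    have h1 := SU_lt hb (U := insert v U) (by rw [Finset.card_insert_of_notMem hv]; omega) j
    split_ifs <;> omega

theorem RepG_insert {s t h G v : ℕ} {U : Finset ℕ} (hb : Big s t h) (hU : U.card + 1 ≤ 7)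
    (hv : v ∉ U) (hG : RepG s t (h + 2) h U G) :
    RepG s t (h + 2) h (insert v U)
      (addG (s * (2 * t) + t) (h + 2) (mkP s t (h + 2) (2 * (s * (2 * t)))) G v) := by
  intro x hx
  have e : addG (s * (2 * t) + t) (h + 2) (mkP s t (h + 2) (2 * (s * (2 * t)))) G v =
      G + Nat.shiftRight (mkP s t (h + 2) (2 * (s * (2 * t))))
        ((h + 2) * (s * (2 * t) + t - v)) := rfl
  have hd1 : ∀ j, dig (h + 2) (Nat.shiftRight (mkP s t (h + 2) (2 * (s * (2 * t))))
      ((h + 2) * (s * (2 * t) + t - v))) j = gv s t (j + (s * (2 * t) + t - v)) := by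
    intro j
    rw [dig_shift, dig_mkP' (pow_dd_lt hb)]
  rw [e, dig_add]
  · rw [hd1, hG x hx, SU_insert hv]
    ring
  · intro j hj
    rw [hd1, hG j (by omega), two_pow_w]
    have h1 := SU_lt hb (U := insert v U) (by rw [Finset.card_insert_of_notMem hv]; omega) j
    rw [SU_insert hv] at h1
    split_ifs <;> omega

theorem RepF_empty (s t h : ℕ) :
    RepF s t (h + 2) h ∅ (mkK s t (h + 2) h (2 * (s * (2 * t) - t))) := by
  intro x hx
  rw [dig_mkK (by omega), if_pos hx]
  simp [SU]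

theorem RepG_empty (s t h : ℕ) :
    RepG s t (h + 2) h ∅ (2 * mkK s t (h + 2) h (2 * (s * (2 * t) - t))) := by
  intro x hx
  have hd : ∀ j ≤ x, dig (h + 2) (mkK s t (h + 2) h (2 * (s * (2 * t) - t))) j =
      if inWin s t j = true then 0 else 2 ^ h := by
    intro j hj
    rw [dig_mkK (by omega), if_pos (by omega)]
  rw [two_mul, dig_add]
  · rw [hd x le_rfl]
    simp only [SU, Finset.sum_empty, zero_add]
    split_ifs <;> ring
  · intro j hj
    rw [hd j hj, two_pow_w]
    have : 0 < 2 ^ h := by positivity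
    split_ifs <;> omega

end Pool.Agent.Lib.MP_7f5033_co
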