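import Pool.Agent.Lib.MP_7f5033_co.Sound2

/-!
# Soundness of the checker: leaves, inner nodes and the top level
-/

set_option autoImplicit false

namespace Pool.Agent.Lib.MP_7f5033_co

theorem boolrec_nat {b : Bool} {x y : ℕ} :
    (Bool.rec (motive := fun _ => ℕ) x y b : ℕ) = if b = true then y else x := by
  cases b <;> rfl

theorem boolrec_bool {b : Bool} {y : Bool}
    (h : (Bool.rec (motive := fun _ => Bool) false y b : Bool) = true) : b = true ∧ y = true := by
  cases b
  · cases h
  · exact ⟨rfl, h⟩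

/-- The common part of the soundness of a kill. -/
theorem nr_of_eq {s t x y v : ℕ} {U : Finset ℕ}
    (hUw : ∀ u ∈ U, inWin s t u = true) (hv : v ∉ U) (hvw : inWin s t v = true)
    (hx : inWin s t x = true) (hxU : x ∉ U) (hy : inWin s t y = true) (hxy : x ≠ y)
    (hxv : x ≠ v) (hyv : y ≠ v)
    (he : SU s t U x + 8 ^ dN s t x v = SU s t U y + 8 ^ dN s t y v) :
    NR s t (insert v U) := by
  have hx0 : dN s t x v ≠ 0 := fun h => hxv (dN_eq_zero hx hvw h)
  have hy0 : dN s t y v ≠ 0 := fun h => hyv (dN_eq_zero hy hvw h)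
  have m1 := SU_mod hx hUw
  have m2 := SU_mod hy hUw
  have p1 := pow8_mod hx0
  have p2 := pow8_mod hy0
  rw [if_neg hxU] at m1
  have hyU : y ∉ U := by
    intro hyU
    rw [if_pos hyU] at m2
    omega
  refine ⟨x, y, hx, hy, hxy, ?_, ?_, ?_⟩
  · rw [Finset.mem_insert, not_or]; exact ⟨hxv, hxU⟩
  · rw [Finset.mem_insert, not_or]; exact ⟨hyv, hyU⟩
  · rw [SU_insert hv, SU_insert hv, gv_diff hx hvw, gv_diff hy hvw]
    omega

theorem killE_sound {s t h F G y d v : ℕ} {U : Finset ℕ} (hb : Big s t h) (hU : U.card + 1 ≤ 7)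
    (hUw : ∀ u ∈ U, inWin s t u = true) (hv : v ∉ U) (hvw : inWin s t v = true)
    (hF : RepF s t (h + 2) h U F) (hG : RepG s t (h + 2) h U G)
    (hy : y < s * (2 * t) - t) (hd : 1 ≤ d) (hd' : d ≤ s * (2 * t) - t)
    (hk : Nat.testBit (killE (s * (2 * t) + t) (h + 2) (2 * (s * (2 * t)))
      (mkM s t (2 * (s * (2 * t))) (2 * (s * (2 * t)))) F G y d) v = true) :
    NR s t (insert v U) := by
  unfold killE at hk
  rw [boolrec_nat] at hk
  split_ifs at hk with hc
  · rw [Nat.beq_eq] at hc
    change dig (h + 2) F (y + d) = dig (h + 2) G y at hc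
    rw [hF (y + d) (by omega), hG y (by omega)] at hc
    have l1 := SU_lt hb (U := U) (by omega) (y + d)
    have l2 := SU_lt hb (U := U) (by omega) y
    have hpos : 0 < 2 ^ h := by positivity
    have hxw : inWin s t (y + d) = true ∧ (y + d) ∉ U := by
      by_contra hcon
      rw [if_neg hcon] at hc
      split_ifs at hc <;> omega
    have hyw : inWin s t y = true := by
      by_contra hcon
      rw [if_neg hcon, if_pos hxw] at hc
      omega
    rw [if_pos hxw, if_pos hyw, add_zero, add_zero] at hc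
    obtain ⟨hxw, hxU⟩ := hxw
    rw [testBit_shiftRight', force_eq] at hk
    have hk' : Nat.testBit (bis (2 * (s * (2 * t))) (mkM s t (2 * (s * (2 * t)))
        (2 * (s * (2 * t)))) d) (v + (s * (2 * t) + t - (y + d))) = true := by
      rw [Nat.add_comm]; exact hk
    have i1 := idx_lt hvw hyw
    have yl := win_lt hyw
    have xl := win_lt hxw
    have e1 : v + (s * (2 * t) + t - (y + d)) + d = v + (s * (2 * t) + t - y) := by omega
    have hdd := dd_of_bis (by omega) hk'
    rw [e1, dd_diff hvw hxw, dd_diff hvw hyw] at hdd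
    have hxv : y + d ≠ v := by
      intro hxv
      rw [hxv, dN_self] at hdd
      have := dN_eq_zero hvw hyw hdd.symm
      omega
    have hyv : y ≠ v := by
      intro hyv
      rw [hyv, dN_self] at hdd
      rw [hyv] at hxw
      have := dN_eq_zero hvw hxw hdd
      omega
    refine nr_of_eq hUw hv hvw hxw hxU hyw (by omega) hxv hyv ?_
    rw [dN_comm s t (y + d) v, dN_comm s t y v, hdd, hc]
  · rw [Nat.zero_testBit] at hk
    cases hk

theorem killG_sound {s t h F G x y a b v : ℕ} {U : Finset ℕ} (hb : Big s t h)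
    (hU : U.card + 1 ≤ 7)
    (hUw : ∀ u ∈ U, inWin s t u = true) (hv : v ∉ U) (hvw : inWin s t v = true)
    (hF : RepF s t (h + 2) h U F) (hG : RepG s t (h + 2) h U G)
    (hx : x < s * (2 * t) - t) (hy : y < s * (2 * t) - t) (ha : 1 ≤ a) (hab : a < b)
    (hk : Nat.testBit (killG (s * (2 * t) + t) (h + 2) (2 * (s * (2 * t)))
      (mkM s t (2 * (s * (2 * t))) (2 * (s * (2 * t)))) F G x y a b) v = true) :
    NR s t (insert v U) := by
  unfold killG at hk
  rw [boolrec_nat] at hk
  split_ifs at hk with hc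
  · rw [Nat.beq_eq] at hc
    change dig (h + 2) F x + 8 ^ a = dig (h + 2) G y + 8 ^ b at hc
    rw [testBit_land', testBit_shiftRight', testBit_shiftRight', force_eq, force_eq,
      Bool.and_eq_true, testBit_row, testBit_row] at hk
    obtain ⟨⟨k1, k2⟩, k3, k4⟩ := hk
    rw [hF x (by omega), hG y (by omega)] at hc
    have l1 := SU_le s t U x
    have l2 := SU_le s t U y
    have hpos : 0 < 2 ^ h := by positivity
    have pa : 8 ^ a ≤ 8 ^ (s / 2 + t / 2) := by
      rw [← k2]; exact Nat.pow_le_pow_right (by norm_num) (dd_le s t _)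
    have pb : 8 ^ b ≤ 8 ^ (s / 2 + t / 2) := by
      rw [← k4]; exact Nat.pow_le_pow_right (by norm_num) (dd_le s t _)
    have qa : 0 < 8 ^ a := by positivity
    have qb : 0 < 8 ^ b := by positivity
    have hb' := hb
    unfold Big at hb'
    have hU6 : U.card * 8 ^ (s / 2 + t / 2) ≤ 6 * 8 ^ (s / 2 + t / 2) :=
      Nat.mul_le_mul_right _ (by omega)
    have hxw : inWin s t x = true ∧ x ∉ U := by
      by_contra hcon
      rw [if_neg hcon] at hc
      split_ifs at hc <;> omega
    have hyw : inWin s t y = true := by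
      by_contra hcon
      rw [if_neg hcon, if_pos hxw] at hc
      omega
    rw [if_pos hxw, if_pos hyw, add_zero, add_zero] at hc
    obtain ⟨hxw, hxU⟩ := hxw
    rw [Nat.add_comm (Nat.sub _ _) v] at k2 k4
    have k2' : dd s t (v + (s * (2 * t) + t - x)) = a := k2
    have k4' : dd s t (v + (s * (2 * t) + t - y)) = b := k4
    rw [dd_diff hvw hxw] at k2'
    rw [dd_diff hvw hyw] at k4'
    have hxv : x ≠ v := by
      intro hxv
      rw [hxv, dN_self] at k2'
      omega
    have hyv : y ≠ v := by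
      intro hyv
      rw [hyv, dN_self] at k4'
      omega
    have hxy : x ≠ y := by
      intro hxy
      rw [hxy] at k2'
      omega
    refine nr_of_eq hUw hv hvw hxw hxU hyw hxy hxv hyv ?_
    rw [dN_comm s t x v, dN_comm s t y v, k2', k4', hc]
  · rw [Nat.zero_testBit] at hk
    cases hk

theorem kill_sound {s t h F G c v : ℕ} {U : Finset ℕ} (hR : 0 < s * (2 * t) - t)
    (hb : Big s t h) (hU : U.card + 1 ≤ 7)
    (hUw : ∀ u ∈ U, inWin s t u = true) (hv : v ∉ U) (hvw : inWin s t v = true)
    (hF : RepF s t (h + 2) h U F) (hG : RepG s t (h + 2) h U G)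
    (hk : Nat.testBit (kill (s * (2 * t) + t) (h + 2) (2 * (s * (2 * t))) (s * (2 * t) - t)
      (mkM s t (2 * (s * (2 * t))) (2 * (s * (2 * t)))) F G c) v = true) :
    NR s t (insert v U) := by
  unfold kill at hk
  rw [boolrec_nat] at hk
  split_ifs at hk with hc
  · refine killE_sound hb hU hUw hv hvw hF hG ?_ ?_ ?_ hk
    · exact Nat.mod_lt _ hR
    · exact Nat.succ_le_succ (Nat.zero_le _)
    · exact Nat.mod_lt _ hR
  · refine killG_sound hb hU hUw hv hvw hF hG ?_ ?_ ?_ ?_ hk
    · exact Nat.mod_lt _ hR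
    · exact Nat.mod_lt _ hR
    · exact Nat.succ_le_succ (Nat.zero_le _)
    · apply Nat.succ_lt_succ
      apply Nat.lt_succ_of_le
      exact Nat.le_add_right _ _

theorem kills_sound {C w l R M F G body n v : ℕ}
    (h : Nat.testBit (kills C w l R M F G body n) v = true) :
    ∃ c, Nat.testBit (kill C w l R M F G c) v = true := by
  induction n with
  | zero =>
    have : kills C w l R M F G body 0 = 0 := rfl
    rw [this, Nat.zero_testBit] at h
    cases h
  | succ n ih =>
    have e : kills C w l R M F G body (n + 1) = Nat.lor (kill C w l R M F G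
      (Nat.mod (Nat.shiftRight body (Nat.mul 28 n)) 268435456))
      (kills C w l R M F G body n) := rfl
    rw [e, testBit_lor', Bool.or_eq_true] at h
    rcases h with h | h
    · exact ⟨_, h⟩
    · exact ih h

/-- What a sound check for `n + 1` further points means. -/
def Sound {α : Type} (s t h ball n : ℕ) (chk : α → ℕ → ℕ → ℕ → Bool) : Prop :=
  ∀ (c : α) (F G K : ℕ) (U : Finset ℕ), U.card + (n + 1) ≤ 7 →
    (∀ u ∈ U, inWin s t u = true) → RepF s t (h + 2) h U F → RepG s t (h + 2) h U G →
    chk c F G K = true → ∀ T : Finset ℕ, T.card = n + 1 →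
    (∀ v ∈ T, Nat.testBit K v = true ∧ inWin s t v = true ∧ v ∉ U) →
    (∀ v ∈ T, ∀ v' ∈ T, v ≠ v' → Nat.testBit ball (s * (2 * t) + t - v + v') = true) →
    NR s t (U ∪ T)

theorem leaf_sound {s t h ball : ℕ} (hR : 0 < s * (2 * t) - t) (hb : Big s t h) :
    Sound s t h ball 0 (leaf (s * (2 * t) + t) (h + 2) (2 * (s * (2 * t))) (s * (2 * t) - t)
      (mkM s t (2 * (s * (2 * t))) (2 * (s * (2 * t))))) := by
  intro c F G K U hU hUw hF hG hc T hT hTK _
  obtain ⟨v, rfl⟩ := Finset.card_eq_one.1 hT
  obtain ⟨h1, h2, h3⟩ := hTK v (Finset.mem_singleton_self v)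
  unfold leaf at hc
  rw [Nat.beq_eq] at hc
  rw [← hc, testBit_land', Bool.and_eq_true] at h1
  obtain ⟨_, h1⟩ := h1
  obtain ⟨c', hc'⟩ := kills_sound h1
  have := kill_sound hR hb hU hUw h3 h2 hF hG hc'
  rwa [Finset.union_comm, ← Finset.insert_eq]

theorem walk_sound {α : Type} {s t h ball n : ℕ} {child : α → ℕ → ℕ → ℕ → Bool}
    (hb : Big s t h) (hch : Sound s t h ball n child) (cs : List α) (F G : ℕ) (U : Finset ℕ)
    (hU : U.card + (n + 2) ≤ 7) (hUw : ∀ u ∈ U, inWin s t u = true)
    (hF : RepF s t (h + 2) h U F) (hG : RepG s t (h + 2) h U G) : ∀ (vs K : ℕ),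
    walk (s * (2 * t) + t) (h + 2) h (mkP s t (h + 2) (2 * (s * (2 * t)))) ball child F G cs
      vs K = true → ∀ T : Finset ℕ, T.card = n + 2 →
    (∀ v ∈ T, Nat.testBit K v = true ∧ inWin s t v = true ∧ v ∉ U) →
    (∀ v ∈ T, ∀ v' ∈ T, v ≠ v' → Nat.testBit ball (s * (2 * t) + t - v + v') = true) →
    NR s t (U ∪ T) := by
  induction cs with
  | nil =>
    intro vs K hw T hT hTK _
    change Nat.beq K 0 = true at hw
    rw [Nat.beq_eq] at hw
    subst hw
    exfalso
    obtain ⟨v, hv⟩ : T.Nonempty := by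
      rw [← Finset.card_pos]; omega
    have := (hTK v hv).1
    rw [Nat.zero_testBit] at this
    cases this
  | cons c cs ih =>
    intro vs K hw T hT hTK hTT
    have hw' := boolrec_bool (b := child c
      (addF (s * (2 * t) + t) (h + 2) h (mkP s t (h + 2) (2 * (s * (2 * t)))) F (Nat.mod vs 1024))
      (addG (s * (2 * t) + t) (h + 2) (mkP s t (h + 2) (2 * (s * (2 * t)))) G (Nat.mod vs 1024))
      (Nat.land (Nat.xor K (Nat.shiftLeft 1 (Nat.mod vs 1024)))
        (Nat.shiftRight ball (Nat.sub (s * (2 * t) + t) (Nat.mod vs 1024)))))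
      (y := walk (s * (2 * t) + t) (h + 2) h (mkP s t (h + 2) (2 * (s * (2 * t)))) ball child F G
        cs (Nat.div vs 1024) (Nat.xor K (Nat.shiftLeft 1 (Nat.mod vs 1024)))) hw
    obtain ⟨hw1, hw2⟩ := hw'
    set v := Nat.mod vs 1024 with hv
    set K' := Nat.xor K (Nat.shiftLeft 1 v) with hK'
    have hbit : ∀ u, u ≠ v → Nat.testBit K u = true → Nat.testBit K' u = true := by
      intro u hu hKu
      rw [hK', testBit_xor', testBit_shiftLeft_one, hKu]
      simp [hu]
    by_cases hvT : v ∈ T
    · obtain ⟨k1, k2, k3⟩ := hTK v hvT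
      have := hch c _ _ _ (insert v U) (by rw [Finset.card_insert_of_notMem k3]; omega)
        (by
          intro u hu
          rcases Finset.mem_insert.1 hu with rfl | hu
          · exact k2
          · exact hUw u hu)
        (RepF_insert hb (by omega) k3 k2 hF) (RepG_insert hb (by omega) k3 hG) hw1 (T.erase v)
        (by rw [Finset.card_erase_of_mem hvT]; omega)
        (by
          intro u hu
          obtain ⟨hu1, hu2⟩ := Finset.mem_erase.1 hu
          obtain ⟨m1, m2, m3⟩ := hTK u hu2
          refine ⟨?_, m2, ?_⟩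
          · rw [testBit_land', testBit_shiftRight', Bool.and_eq_true]
            exact ⟨hbit u hu1 m1, hTT v hvT u hu2 (Ne.symm hu1)⟩
          · rw [Finset.mem_insert, not_or]
            exact ⟨hu1, m3⟩)
        (by
          intro u hu u' hu' hne
          exact hTT u (Finset.mem_of_mem_erase hu) u' (Finset.mem_of_mem_erase hu') hne)
      have e : insert v U ∪ T.erase v = U ∪ T := by
        ext u
        simp only [Finset.mem_union, Finset.mem_insert, Finset.mem_erase]
        constructor
        · rintro ((rfl | h) | h)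
          · exact Or.inr hvT
          · exact Or.inl h
          · exact Or.inr h.2
        · rintro (h | h)
          · exact Or.inl (Or.inr h)
          · by_cases huv : u = v
            · exact Or.inl (Or.inl huv)
            · exact Or.inr ⟨huv, h⟩
      rwa [e] at this
    · refine ih _ _ hw2 T hT ?_ hTT
      intro u hu
      obtain ⟨m1, m2, m3⟩ := hTK u hu
      exact ⟨hbit u (fun h => hvT (h ▸ hu)) m1, m2, m3⟩

theorem walkP_sound {α : Type} {s t h ball n : ℕ} {child : α → ℕ → ℕ → ℕ → Bool}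
    (hb : Big s t h) (hch : Sound s t h ball n child) :
    Sound s t h ball (n + 1) (walkP (s * (2 * t) + t) (h + 2) h
      (mkP s t (h + 2) (2 * (s * (2 * t)))) ball child) := by
  intro c F G K U hU hUw hF hG hc T hT hTK hTT
  exact walk_sound hb hch c.2 F G U (by omega) hUw hF hG c.1 K hc T (by omega) hTK hTT

theorem rowChk_sound {α : Type} {f : α → ℕ → ℕ → Bool} {W a n : ℕ} (cs : List α) :
    ∀ b0, rowChk f cs W a n b0 = true → ∀ b, b0 ≤ b → b < n → ∃ c, f c (a * W + b) (a + b) =
      true := by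
  induction cs with
  | nil =>
    intro b0 h b h1 h2
    change Nat.beq b0 n = true at h
    rw [Nat.beq_eq] at h
    omega
  | cons c cs ih =>
    intro b0 h b h1 h2
    obtain ⟨h3, h4⟩ := boolrec_bool (b := f c (a * W + b0) (a + b0))
      (y := rowChk f cs W a n (b0 + 1)) h
    rcases Nat.eq_or_lt_of_le h1 with h5 | h5
    · subst h5; exact ⟨c, h3⟩
    · exact ih (b0 + 1) h4 b h5 h2

theorem allChk_sound {α : Type} {f : α → ℕ → ℕ → Bool} {W m n : ℕ} (cs : List (List α)) :
    ∀ a0, allChk f cs W m n a0 = true → ∀ a, a0 ≤ a → a < m → ∀ b, (a = 0 → 1 ≤ b) → b < n →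
      ∃ c, f c (a * W + b) (a + b) = true := by
  induction cs with
  | nil =>
    intro a0 h a h1 h2
    change Nat.beq a0 m = true at h
    rw [Nat.beq_eq] at h
    omega
  | cons c cs ih =>
    intro a0 h a h1 h2 b hb1 hb2
    obtain ⟨h3, h4⟩ := boolrec_bool (b := rowChk f c W a0 n
        (Bool.rec (motive := fun _ => ℕ) 0 1 (Nat.beq a0 0)))
      (y := allChk f cs W m n (a0 + 1)) h
    rcases Nat.eq_or_lt_of_le h1 with h5 | h5
    · subst h5
      refine rowChk_sound c _ h3 b ?_ hb2
      rw [boolrec_nat]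
      split_ifs with h6
      · rw [Nat.beq_eq] at h6
        exact hb1 h6
      · exact Nat.zero_le _
    · exact ih (a0 + 1) h4 a h5 h2 b hb1 hb2

/-- Soundness of the whole check, in terms of indices. -/
theorem all_sound {α : Type} {s t h n : ℕ} {chk : ℕ → α → ℕ → ℕ → ℕ → Bool} (ht : 0 < t)
    (hb : Big s t h) (hn : n + 3 ≤ 7)
    (hch : ∀ ball, Sound s t h ball n (chk ball)) (cs : List (List α))
    (hall : allChk (top (s * (2 * t) + t) (h + 2) h (2 * (s * (2 * t)))
      (mkM s t (2 * (s * (2 * t))) (2 * (s * (2 * t))))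
      (mkP s t (h + 2) (2 * (s * (2 * t)))) (mkW s t (s * (2 * t) - t))
      (mkK s t (h + 2) h (2 * (s * (2 * t) - t))) chk) cs (2 * t) (s / 2 + 1) (t / 2 + 1) 0 = true)
    (a b : ℕ) (ha : a < s) (hbt : b < t) (ha2 : 2 * a ≤ s) (hb2 : 2 * b ≤ t)
    (hab : a = 0 → 1 ≤ b) (T : Finset ℕ)
    (hT : T.card = n + 1) (hTw : ∀ v ∈ T, inWin s t v = true)
    (h0T : 0 ∉ T) (huT : a * (2 * t) + b ∉ T)
    (hTT : ∀ v ∈ insert 0 (insert (a * (2 * t) + b) T), ∀ v' ∈ insert 0
      (insert (a * (2 * t) + b) T), dN s t v v' ≤ a + b) :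
    NR s t (insert 0 (insert (a * (2 * t) + b) T)) := by
  set u := a * (2 * t) + b with hu
  have h2t : 0 < 2 * t := by omega
  have h0w : inWin s t 0 = true := by
    rw [inWin_iff]; simp; omega
  have hudiv : u / (2 * t) = a := by
    rw [hu, Nat.mul_comm, Nat.mul_add_div h2t, Nat.div_eq_of_lt (by omega), add_zero]
  have humod : u % (2 * t) = b := by
    rw [hu, Nat.mul_comm, Nat.mul_add_mod, Nat.mod_eq_of_lt (by omega)]
  have huw : inWin s t u = true := by
    rw [inWin_iff, hudiv, humod]; exact ⟨ha, hbt⟩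
  have hu0 : u ≠ 0 := by
    intro hu0
    rw [hu0] at hudiv humod
    simp at hudiv humod
    omega
  obtain ⟨c, hc⟩ := allChk_sound cs 0 hall a (Nat.zero_le _) (by omega) b hab (by omega)
  set l := 2 * (s * (2 * t)) with hl
  set M := mkM s t l l with hM
  change chk (force (mkBall l M) (a + b)) c
    (addF (s * (2 * t) + t) (h + 2) h (mkP s t (h + 2) l)
      (addF (s * (2 * t) + t) (h + 2) h (mkP s t (h + 2) l)
        (mkK s t (h + 2) h (2 * (s * (2 * t) - t))) 0) u)
    (addG (s * (2 * t) + t) (h + 2) (mkP s t (h + 2) l)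
      (addG (s * (2 * t) + t) (h + 2) (mkP s t (h + 2) l)
        (2 * (mkK s t (h + 2) h (2 * (s * (2 * t) - t)))) 0) u)
    (Nat.land (mkW s t (s * (2 * t) - t)) (Nat.land (Nat.shiftRight (force (mkBall l M) (a + b))
      (s * (2 * t) + t)) (Nat.shiftRight (force (mkBall l M) (a + b))
      (Nat.sub (s * (2 * t) + t) u)))) = true at hc
  rw [force_eq] at hc
  have F0 := RepF_insert hb (U := ∅) (v := 0) (by simp) (by simp) h0w (RepF_empty s t h)
  have F1 := RepF_insert hb (v := u) (by simp) (by simpa using hu0) huw F0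
  have G0 := RepG_insert hb (U := ∅) (v := 0) (by simp) (by simp) (RepG_empty s t h)
  have G1 := RepG_insert hb (v := u) (by simp) (by simpa using hu0) G0
  have hball : ∀ v v', inWin s t v = true → inWin s t v' = true → v ≠ v' →
      dN s t v v' ≤ a + b →
      Nat.testBit (mkBall l M (a + b)) (s * (2 * t) + t - v + v') = true := by
    intro v v' hv hv' hne hd
    rw [testBit_mkBall, Nat.add_comm _ v', dd_diff hv' hv]
    refine ⟨idx_lt hv' hv, ?_, ?_⟩
    · rcases Nat.eq_zero_or_pos (dN s t v' v) with h | h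
      · exact absurd (dN_eq_zero hv' hv h).symm hne
      · exact h
    · rw [dN_comm]; exact hd
  have hm0 : (0 : ℕ) ∈ insert 0 (insert u T) := Finset.mem_insert_self _ _
  have hmu : u ∈ insert 0 (insert u T) :=
    Finset.mem_insert_of_mem (Finset.mem_insert_self _ _)
  have hmT : ∀ v ∈ T, v ∈ insert 0 (insert u T) := fun v hv =>
    Finset.mem_insert_of_mem (Finset.mem_insert_of_mem hv)
  have key := hch (mkBall l M (a + b)) c _ _ _ (insert u (insert 0 ∅)) (by
      rw [Finset.card_insert_of_notMem (by simpa using hu0)]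
      simp
      omega)
    (by
      intro v hv
      simp only [insert_empty_eq, Finset.mem_insert, Finset.mem_singleton] at hv
      rcases hv with rfl | rfl
      · exact huw
      · exact h0w) F1 G1 hc T hT
    (by
      intro v hv
      have hvw := hTw v hv
      have hv0 : v ≠ 0 := fun h => h0T (h ▸ hv)
      have hvu : v ≠ u := fun h => huT (h ▸ hv)
      refine ⟨?_, hvw, ?_⟩
      · rw [testBit_land', testBit_land', testBit_shiftRight', testBit_shiftRight',
          Bool.and_eq_true, Bool.and_eq_true, testBit_mkW]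
        refine ⟨⟨win_lt hvw, hvw⟩, ?_, ?_⟩
        · exact hball 0 v h0w hvw (Ne.symm hv0) (hTT 0 hm0 v (hmT v hv))
        · exact hball u v huw hvw (Ne.symm hvu) (hTT u hmu v (hmT v hv))
      · simp only [insert_empty_eq, Finset.mem_insert, Finset.mem_singleton, not_or]
        exact ⟨hvu, hv0⟩)
    (by
      intro v hv v' hv' hne
      exact hball v v' (hTw v hv) (hTw v' hv') hne (hTT v (hmT v hv) v' (hmT v' hv')))
  have e : insert u (insert 0 ∅) ∪ T = insert 0 (insert u T) := by
    ext x
    simp only [insert_empty_eq, Finset.mem_union, Finset.mem_insert, Finset.mem_singleton]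
    tauto
  rwa [e] at key

end Pool.Agent.Lib.MP_7f5033_co
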