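import Pool.Agent.Lib.MP_7f5033_co.Sound3
import Pool.Agent.Lib.MP_7f5033_co.LowerFour

/-!
# From the checker to vertex sets of the torus
-/

set_option autoImplicit false

open SimpleGraph

namespace Pool.Agent.Lib.MP_7f5033_co

/-! ## Sums of powers of eight determine small multisets -/

theorem ms_split (m : Multiset ℕ) :
    ∃ m1 : Multiset ℕ, m = Multiset.replicate (m.count 0) 0 + m1.map Nat.succ := by
  refine ⟨(m.filter (fun x => ¬ (x = 0))).map Nat.pred, ?_⟩
  rw [Multiset.map_map]
  have h1 : (m.filter (fun x => ¬ (x = 0))).map (Nat.succ ∘ Nat.pred) =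
      m.filter (fun x => ¬ (x = 0)) := by
    conv_rhs => rw [← Multiset.map_id (m.filter (fun x => ¬ (x = 0)))]
    apply Multiset.map_congr rfl
    intro x hx
    rw [Multiset.mem_filter] at hx
    simp only [Function.comp, id]
    exact Nat.succ_pred_eq_of_ne_zero hx.2
  rw [h1, ← Multiset.filter_eq']
  exact (Multiset.filter_add_not (fun x => x = 0) m).symm

theorem pow8_inj (N : ℕ) : ∀ m m' : Multiset ℕ, (∀ a ∈ m, a < N) → (∀ a ∈ m', a < N) →
    Multiset.card m ≤ 7 → Multiset.card m' ≤ 7 →
    (m.map (fun a => 8 ^ a)).sum = (m'.map (fun a => 8 ^ a)).sum → m = m' := by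
  induction N with
  | zero =>
    intro m m' h1 h2 _ _ _
    rw [Multiset.eq_zero_of_forall_notMem (fun a ha => absurd (h1 a ha) (by omega)),
      Multiset.eq_zero_of_forall_notMem (fun a ha => absurd (h2 a ha) (by omega))]
  | succ N ih =>
    intro m m' h1 h2 h3 h4 h5
    obtain ⟨n, hn⟩ := ms_split m
    obtain ⟨n', hn'⟩ := ms_split m'
    have hc : m.count 0 ≤ Multiset.card m := Multiset.count_le_card _ _
    have hc' : m'.count 0 ≤ Multiset.card m' := Multiset.count_le_card _ _
    have key : ∀ (k : ℕ) (q : Multiset ℕ),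
        ((Multiset.replicate k 0 + q.map Nat.succ).map (fun a => 8 ^ a)).sum =
          k + 8 * (q.map (fun a => 8 ^ a)).sum := by
      intro k q
      rw [Multiset.map_add, Multiset.sum_add, Multiset.map_replicate, Multiset.sum_replicate,
        Multiset.map_map]
      simp only [pow_zero, smul_eq_mul, mul_one]
      congr 1
      rw [← Multiset.sum_map_mul_left]
      congr 1
      apply Multiset.map_congr rfl
      intro x _
      simp only [Function.comp, Nat.succ_eq_add_one, pow_succ]
      ring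
    rw [hn, hn', key, key] at h5
    have e0 : m.count 0 = m'.count 0 := by omega
    have e1 : (n.map (fun a => 8 ^ a)).sum = (n'.map (fun a => 8 ^ a)).sum := by omega
    have b1 : ∀ a ∈ n, a < N := by
      intro a ha
      have : a + 1 ∈ m := by
        rw [hn, Multiset.mem_add]
        right
        exact Multiset.mem_map_of_mem Nat.succ ha
      have := h1 _ this
      omega
    have b2 : ∀ a ∈ n', a < N := by
      intro a ha
      have : a + 1 ∈ m' := by
        rw [hn', Multiset.mem_add]
        right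
        exact Multiset.mem_map_of_mem Nat.succ ha
      have := h2 _ this
      omega
    have c1 : Multiset.card n ≤ 7 := by
      have := congrArg Multiset.card hn
      rw [Multiset.card_add, Multiset.card_map] at this
      omega
    have c2 : Multiset.card n' ≤ 7 := by
      have := congrArg Multiset.card hn'
      rw [Multiset.card_add, Multiset.card_map] at this
      omega
    rw [hn, hn', e0, ih n n' b1 b2 c1 c2 e1]

/-! ## Indices of vertices -/

/-- The index of a vertex. -/
def vidx {s t : ℕ} (x : Fin s × Fin t) : ℕ := x.1.val * (2 * t) + x.2.val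

theorem vidx_div {s t : ℕ} (x : Fin s × Fin t) : vidx x / (2 * t) = x.1.val := by
  have h := x.2.isLt
  unfold vidx
  rw [Nat.mul_comm, Nat.mul_add_div (by omega), Nat.div_eq_of_lt (by omega), add_zero]

theorem vidx_mod {s t : ℕ} (x : Fin s × Fin t) : vidx x % (2 * t) = x.2.val := by
  have h := x.2.isLt
  unfold vidx
  rw [Nat.mul_comm, Nat.mul_add_mod, Nat.mod_eq_of_lt (by omega)]

theorem vidx_win {s t : ℕ} (x : Fin s × Fin t) : inWin s t (vidx x) = true := by
  rw [inWin_iff, vidx_div, vidx_mod]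
  exact ⟨x.1.isLt, x.2.isLt⟩

theorem vidx_inj {s t : ℕ} : Function.Injective (vidx (s := s) (t := t)) := by
  intro x y h
  apply Prod.ext
  · apply Fin.ext
    rw [← vidx_div, ← vidx_div, h]
  · apply Fin.ext
    rw [← vidx_mod, ← vidx_mod, h]

theorem exists_vidx {s t i : ℕ} (h : inWin s t i = true) : ∃ x : Fin s × Fin t, vidx x = i := by
  rw [inWin_iff] at h
  refine ⟨(⟨i / (2 * t), h.1⟩, ⟨i % (2 * t), h.2⟩), ?_⟩
  unfold vidx
  simp only
  rw [Nat.mul_comm]
  exact Nat.div_add_mod i (2 * t)

theorem dN_vidx {s t : ℕ} (x y : Fin s × Fin t) : dN s t (vidx x) (vidx y) = tdf x y := by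
  unfold dN tdf
  rw [vidx_div, vidx_div, vidx_mod, vidx_mod]

theorem SU_vidx {s t : ℕ} (S : Finset (Fin s × Fin t)) (x : Fin s × Fin t) :
    SU s t (S.image vidx) (vidx x) = (S.val.map (fun u => 8 ^ tdf x u)).sum := by
  unfold SU
  rw [Finset.sum_image (fun a _ b _ h => vidx_inj h)]
  change (S.val.map _).sum = _
  congr 1
  apply Multiset.map_congr rfl
  intro u _
  rw [gv_diff (vidx_win x) (vidx_win u), dN_vidx]

/-- From an unresolved pair of indices to an unresolved pair of vertices. -/
theorem not_res_of_NR {s t : ℕ} (hs : 3 ≤ s) (ht : 3 ≤ t) (S : Finset (Fin s × Fin t))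
    (hc : S.card ≤ 7) (h : NR s t (S.image vidx)) : ¬ IsOuterResolving (tor s t) S := by
  obtain ⟨i, j, hi, hj, hij, hiS, hjS, he⟩ := h
  obtain ⟨x, rfl⟩ := exists_vidx hi
  obtain ⟨y, rfl⟩ := exists_vidx hj
  rw [isOuterResolving_iff hs ht]
  intro hR
  apply hij
  congr 1
  apply hR x y
  · intro hx; exact hiS (Finset.mem_image_of_mem _ hx)
  · intro hy; exact hjS (Finset.mem_image_of_mem _ hy)
  · rw [SU_vidx, SU_vidx] at he
    have bound : ∀ z : Fin s × Fin t, ∀ a ∈ S.val.map (tdf z), a < s + t := by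
      intro z a ha
      rw [Multiset.mem_map] at ha
      obtain ⟨u, _, rfl⟩ := ha
      have h1 := z.1.isLt
      have h2 := z.2.isLt
      have h3 := u.1.isLt
      have h4 := u.2.isLt
      unfold tdf cd
      omega
    apply pow8_inj (s + t) _ _ (bound x) (bound y)
    · rw [Multiset.card_map]; exact hc
    · rw [Multiset.card_map]; exact hc
    · rw [Multiset.map_map, Multiset.map_map]
      exact he

/-! ## Isometries -/

theorem coord_iso {n : ℕ} [NeZero n] (p q : ZMod n) : ∃ e : ZMod n ≃ ZMod n, e p = 0 ∧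
    2 * (e q).val ≤ n ∧ ∀ x y, nz (e x - e y) = nz (x - y) := by
  by_cases h : 2 * (q - p).val ≤ n
  · refine ⟨Equiv.subRight p, by simp, by simpa using h, ?_⟩
    intro x y
    simp only [Equiv.subRight_apply]
    congr 1
    ring
  · refine ⟨Equiv.subLeft p, by simp, ?_, ?_⟩
    · have hne : q - p ≠ 0 := by
        intro h0
        apply h
        rw [h0, ZMod.val_zero]
        omega
      have e1 : (Equiv.subLeft p) q = -(q - p) := by
        simp [Equiv.subLeft_apply]
      rw [e1, ZMod.neg_val, if_neg hne]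
      have := ZMod.val_lt (q - p)
      omega
    · intro x y
      simp only [Equiv.subLeft_apply]
      rw [← nz_neg]
      congr 1
      ring

theorem torus_iso {s t : ℕ} (hs : 3 ≤ s) (ht : 3 ≤ t) (p q : Fin s × Fin t) :
    ∃ e : (Fin s × Fin t) ≃ (Fin s × Fin t), ((e p).1.val = 0 ∧ (e p).2.val = 0) ∧
      (2 * (e q).1.val ≤ s ∧ 2 * (e q).2.val ≤ t) ∧ ∀ x y, tdf (e x) (e y) = tdf x y := by
  obtain ⟨m, rfl⟩ : ∃ m, s = m + 1 := ⟨s - 1, by omega⟩
  obtain ⟨l, rfl⟩ : ∃ l, t = l + 1 := ⟨t - 1, by omega⟩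
  obtain ⟨e1, h1, h2, h3⟩ := coord_iso (n := m + 1) (id p.1 : ZMod (m + 1)) (id q.1)
  obtain ⟨e2, k1, k2, k3⟩ := coord_iso (n := l + 1) (id p.2 : ZMod (l + 1)) (id q.2)
  refine ⟨Equiv.prodCongr e1 e2, ⟨?_, ?_⟩, ⟨?_, ?_⟩, ?_⟩
  · have := congrArg ZMod.val h1
    rw [ZMod.val_zero] at this
    exact this
  · have := congrArg ZMod.val k1
    rw [ZMod.val_zero] at this
    exact this
  · exact h2
  · exact k2
  · intro x y
    rw [tdf_eq_nt, tdf_eq_nt]
    unfold nt
    exact congrArg₂ (· + ·) (h3 _ _) (k3 _ _)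

/-- Resolving sets are preserved by isometries. -/
theorem resolving_iso {s t : ℕ} (hs : 3 ≤ s) (ht : 3 ≤ t) (e : (Fin s × Fin t) ≃ (Fin s × Fin t))
    (he : ∀ x y, tdf (e x) (e y) = tdf x y) (S : Finset (Fin s × Fin t))
    (h : IsOuterResolving (tor s t) S) : IsOuterResolving (tor s t) (S.map e.toEmbedding) := by
  rw [isOuterResolving_iff hs ht] at h ⊢
  intro x y hx hy hm
  have hmem : ∀ z, z ∉ S.map e.toEmbedding → e.symm z ∉ S := by
    intro z hz hz'
    apply hz
    rw [Finset.mem_map]
    exact ⟨e.symm z, hz', by simp⟩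
  have key : ∀ z, (S.map e.toEmbedding).val.map (tdf z) = S.val.map (tdf (e.symm z)) := by
    intro z
    rw [Finset.map_val, Multiset.map_map]
    apply Multiset.map_congr rfl
    intro u _
    simp only [Function.comp, Equiv.coe_toEmbedding]
    rw [← he (e.symm z) u, Equiv.apply_symm_apply]
  rw [key, key] at hm
  have := h _ _ (hmem x hx) (hmem y hy) hm
  exact e.symm.injective this

/-- The main soundness statement. -/
theorem no_res_of_check {α : Type} {s t h n : ℕ} {chk : ℕ → α → ℕ → ℕ → ℕ → Bool}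
    (hs : 3 ≤ s) (ht : 3 ≤ t) (hb : Big s t h) (hn : n + 3 ≤ 7)
    (hch : ∀ ball, Sound s t h ball n (chk ball)) (cs : List (List α))
    (hall : allChk (top (s * (2 * t) + t) (h + 2) h (2 * (s * (2 * t)))
      (mkM s t (2 * (s * (2 * t))) (2 * (s * (2 * t))))
      (mkP s t (h + 2) (2 * (s * (2 * t)))) (mkW s t (s * (2 * t) - t))
      (mkK s t (h + 2) h (2 * (s * (2 * t) - t))) chk) cs (2 * t) (s / 2 + 1) (t / 2 + 1) 0 = true)
    (S : Finset (Fin s × Fin t)) (hS : S.card = n + 3) : ¬ IsOuterResolving (tor s t) S := by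
  intro hR
  -- a pair at maximal distance
  have hne : (S ×ˢ S).Nonempty := by
    rw [← Finset.card_pos, Finset.card_product, hS]
    positivity
  obtain ⟨⟨p, q⟩, hpq, hmax⟩ := Finset.exists_max_image (S ×ˢ S) (fun z => tdf z.1 z.2) hne
  rw [Finset.mem_product] at hpq
  obtain ⟨hpS, hqS⟩ := hpq
  have hmax' : ∀ x ∈ S, ∀ y ∈ S, tdf x y ≤ tdf p q := by
    intro x hx y hy
    exact hmax (x, y) (Finset.mem_product.2 ⟨hx, hy⟩)
  obtain ⟨e, ⟨e1, e2⟩, ⟨e3, e4⟩, e5⟩ := torus_iso hs ht p q
  have hR' := resolving_iso hs ht e e5 S hR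
  set S' := S.map e.toEmbedding with hS'
  have hpe : e p = (⟨0, by omega⟩, ⟨0, by omega⟩) := by
    apply Prod.ext
    · exact Fin.ext e1
    · exact Fin.ext e2
  have hpS' : e p ∈ S' := Finset.mem_map_of_mem _ hpS
  have hqS' : e q ∈ S' := Finset.mem_map_of_mem _ hqS
  have hcard : S'.card = n + 3 := by rw [hS', Finset.card_map, hS]
  have hmax2 : ∀ x ∈ S', ∀ y ∈ S', tdf x y ≤ tdf (e p) (e q) := by
    intro x hx y hy
    rw [hS', Finset.mem_map] at hx hy
    obtain ⟨x', hx', rfl⟩ := hx
    obtain ⟨y', hy', rfl⟩ := hy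
    have := hmax' x' hx' y' hy'
    rw [e5]
    simp only [Equiv.coe_toEmbedding]
    rw [e5]
    exact this
  have hdist : tdf (e p) (e q) = (e q).1.val + (e q).2.val := by
    unfold tdf cd
    rw [e1, e2]
    have := (e q).1.isLt
    have := (e q).2.isLt
    omega
  have hpqne : e p ≠ e q := by
    intro heq
    have h0 : tdf (e p) (e q) = 0 := by rw [heq, tdf_self]
    have hall0 : ∀ x ∈ S', x = e p := by
      intro x hx
      have := hmax2 x hx (e p) hpS'
      exact tdf_eq_zero (by omega)
    have : S'.card ≤ 1 := Finset.card_le_one.2 (fun x hx y hy => by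
      rw [hall0 x hx, hall0 y hy])
    omega
  -- the remaining points
  set T := ((S'.erase (e p)).erase (e q)).image vidx with hT
  have hqe : e q ∈ S'.erase (e p) := Finset.mem_erase.2 ⟨Ne.symm hpqne, hqS'⟩
  have hTcard : T.card = n + 1 := by
    rw [hT, Finset.card_image_of_injective _ vidx_inj, Finset.card_erase_of_mem hqe,
      Finset.card_erase_of_mem hpS', hcard]
    omega
  have hv0 : vidx (e p) = 0 := by
    unfold vidx
    rw [e1, e2]; simp
  have hvq : vidx (e q) = (e q).1.val * (2 * t) + (e q).2.val := rfl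
  have himg : S'.image vidx = insert 0 (insert ((e q).1.val * (2 * t) + (e q).2.val) T) := by
    rw [← hvq, ← hv0, hT, ← Finset.image_insert, ← Finset.image_insert,
      Finset.insert_erase hqe, Finset.insert_erase hpS']
  have h0T : (0 : ℕ) ∉ T := by
    rw [← hv0, hT, Finset.mem_image]
    rintro ⟨x, hx, hxe⟩
    have := vidx_inj hxe
    subst this
    exact (Finset.mem_erase.1 (Finset.mem_erase.1 hx).2).1 rfl
  have huT : (e q).1.val * (2 * t) + (e q).2.val ∉ T := by
    rw [← hvq, hT, Finset.mem_image]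
    rintro ⟨x, hx, hxe⟩
    have := vidx_inj hxe
    subst this
    exact (Finset.mem_erase.1 hx).1 rfl
  have key := all_sound (by omega) hb hn hch cs hall (e q).1.val (e q).2.val (e q).1.isLt
    (e q).2.isLt e3 e4 (by
      intro h0
      by_contra hcon
      apply hpqne
      rw [hpe]
      apply Prod.ext
      · exact Fin.ext h0.symm
      · apply Fin.ext
        change 0 = (e q).2.val
        omega) T hTcard (by
      intro v hv
      rw [hT, Finset.mem_image] at hv
      obtain ⟨x, _, rfl⟩ := hv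
      exact vidx_win x) h0T huT (by
      rw [← himg]
      intro v hv v' hv'
      rw [Finset.mem_image] at hv hv'
      obtain ⟨x, hx, rfl⟩ := hv
      obtain ⟨y, hy, rfl⟩ := hv'
      rw [dN_vidx, ← hdist]
      exact hmax2 x hx y hy)
  rw [← himg] at key
  exact not_res_of_NR hs ht S' (by omega) key hR'

end Pool.Agent.Lib.MP_7f5033_co
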