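import Pool.Agent.Lib.MP_7f5033_co.Sound4

/-!
# The checker with explicit parameters
-/

set_option autoImplicit false

open SimpleGraph

namespace Pool.Agent.Lib.MP_7f5033_co

/-- No set of `k` vertices of the torus `C_s □ C_t` is an outer multiset resolving set. -/
def NoRes (s t k : ℕ) : Prop :=
  ∀ S : Finset (Fin s × Fin t), S.card = k → ¬ IsOuterResolving (tor s t) S

/-- The parameters and tables used by the checker are the right ones. -/
structure Tab (s t C w h l R M P win mark : ℕ) : Prop where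
  hs : 3 ≤ s
  ht : 3 ≤ t
  hC : C = s * (2 * t) + t
  hw : w = h + 2
  hl : l = 2 * (s * (2 * t))
  hR : R = s * (2 * t) - t
  hb : Big s t h
  hM : Nat.beq (mkM s t l l) M = true
  hP : Nat.beq (mkP s t w l) P = true
  hwin : Nat.beq (mkW s t R) win = true
  hmark : Nat.beq (mkK s t w h (2 * R)) mark = true

theorem Rpos {s t : ℕ} (hs : 3 ≤ s) (ht : 3 ≤ t) : 0 < s * (2 * t) - t := by
  have : 3 * (2 * t) ≤ s * (2 * t) := Nat.mul_le_mul_right _ hs
  omega

theorem noRes3 {s t C w h l R M P win mark W m n : ℕ} (T : Tab s t C w h l R M P win mark)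
    (hW : W = 2 * t) (hm : m = s / 2 + 1) (hn : n = t / 2 + 1) (cs : List (List ℕ))
    (hall : allChk (top C w h l M P win mark (fun _ => leaf C w l R M)) cs W m n 0 = true) :
    NoRes s t 3 := by
  obtain ⟨hs, ht, rfl, rfl, rfl, rfl, hb, hM, hP, hwin, hmark⟩ := T
  rw [Nat.beq_eq] at hM hP hwin hmark
  subst hM hP hwin hmark hW hm hn
  intro S hS
  exact no_res_of_check (n := 0) hs ht hb (by omega)
    (fun ball => leaf_sound (Rpos hs ht) hb) cs hall S hS

theorem noRes4 {s t C w h l R M P win mark W m n : ℕ} (T : Tab s t C w h l R M P win mark)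
    (hW : W = 2 * t) (hm : m = s / 2 + 1) (hn : n = t / 2 + 1) (cs : List (List (ℕ × List ℕ)))
    (hall : allChk (top C w h l M P win mark (fun ball => walkP C w h P ball (leaf C w l R M)))
      cs W m n 0 = true) :
    NoRes s t 4 := by
  obtain ⟨hs, ht, rfl, rfl, rfl, rfl, hb, hM, hP, hwin, hmark⟩ := T
  rw [Nat.beq_eq] at hM hP hwin hmark
  subst hM hP hwin hmark hW hm hn
  intro S hS
  exact no_res_of_check (n := 1) hs ht hb (by omega)
    (fun ball => walkP_sound hb (leaf_sound (Rpos hs ht) hb)) cs hall S hS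

theorem noRes5 {s t C w h l R M P win mark W m n : ℕ} (T : Tab s t C w h l R M P win mark)
    (hW : W = 2 * t) (hm : m = s / 2 + 1) (hn : n = t / 2 + 1)
    (cs : List (List (ℕ × List (ℕ × List ℕ))))
    (hall : allChk (top C w h l M P win mark (fun ball => walkP C w h P ball
      (walkP C w h P ball (leaf C w l R M)))) cs W m n 0 = true) :
    NoRes s t 5 := by
  obtain ⟨hs, ht, rfl, rfl, rfl, rfl, hb, hM, hP, hwin, hmark⟩ := T
  rw [Nat.beq_eq] at hM hP hwin hmark
  subst hM hP hwin hmark hW hm hn
  intro S hS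
  exact no_res_of_check (n := 2) hs ht hb (by omega)
    (fun ball => walkP_sound hb (walkP_sound hb (leaf_sound (Rpos hs ht) hb))) cs hall S hS

theorem noRes6 {s t C w h l R M P win mark W m n : ℕ} (T : Tab s t C w h l R M P win mark)
    (hW : W = 2 * t) (hm : m = s / 2 + 1) (hn : n = t / 2 + 1)
    (cs : List (List (ℕ × List (ℕ × List (ℕ × List ℕ)))))
    (hall : allChk (top C w h l M P win mark (fun ball => walkP C w h P ball
      (walkP C w h P ball (walkP C w h P ball (leaf C w l R M))))) cs W m n 0 = true) :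
    NoRes s t 6 := by
  obtain ⟨hs, ht, rfl, rfl, rfl, rfl, hb, hM, hP, hwin, hmark⟩ := T
  rw [Nat.beq_eq] at hM hP hwin hmark
  subst hM hP hwin hmark hW hm hn
  intro S hS
  exact no_res_of_check (n := 3) hs ht hb (by omega)
    (fun ball => walkP_sound hb (walkP_sound hb (walkP_sound hb (leaf_sound (Rpos hs ht) hb))))
    cs hall S hS

theorem noRes7 {s t C w h l R M P win mark W m n : ℕ} (T : Tab s t C w h l R M P win mark)
    (hW : W = 2 * t) (hm : m = s / 2 + 1) (hn : n = t / 2 + 1)
    (cs : List (List (ℕ × List (ℕ × List (ℕ × List (ℕ × List ℕ))))))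
    (hall : allChk (top C w h l M P win mark (fun ball => walkP C w h P ball
      (walkP C w h P ball (walkP C w h P ball (walkP C w h P ball (leaf C w l R M)))))) cs W m n 0
      = true) :
    NoRes s t 7 := by
  obtain ⟨hs, ht, rfl, rfl, rfl, rfl, hb, hM, hP, hwin, hmark⟩ := T
  rw [Nat.beq_eq] at hM hP hwin hmark
  subst hM hP hwin hmark hW hm hn
  intro S hS
  exact no_res_of_check (n := 4) hs ht hb (by omega)
    (fun ball => walkP_sound hb (walkP_sound hb (walkP_sound hb (walkP_sound hb
      (leaf_sound (Rpos hs ht) hb))))) cs hall S hS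

end Pool.Agent.Lib.MP_7f5033_co
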