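import Pool.Agent.Lib.MP_7f5033_co.Norm

/-!
# Existence of two good orbits
-/

set_option autoImplicit false

namespace Pool.Agent.Lib.MP_7f5033_co

theorem Sol.flip {n a b : ℕ} {p z : ZMod n} (h : Sol p z a b) : Sol p (p - z) b a := by
  unfold Sol at *
  exact ⟨h.2, by rw [sub_sub_cancel]; exact h.1⟩

theorem sol_near {n P a b : ℕ} [NeZero n] (ha : 2 * a ≤ n) (hb : 2 * b ≤ n) (h : a + b = P) :
    Sol (P : ZMod n) (a : ZMod n) a b := near_sol ha hb h

theorem sol_far {n P a b : ℕ} [NeZero n] (ha : 2 * a ≤ n) (hb : 2 * b ≤ n) (h : a + b + P = n) :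
    Sol (P : ZMod n) (-(a : ZMod n)) a b := far_sol ha hb h

theorem odd_sol {n P v : ℕ} [NeZero n] (hn : n % 2 = 1) (hP : 2 * P ≤ n) (hv : v ≤ P) :
    ∃ (z : ZMod n) (a b : ℕ), Sol (P : ZMod n) z a b ∧ a = b + v := by
  by_cases h : (P + v) % 2 = 0
  · exact ⟨_, (P + v) / 2, (P - v) / 2, sol_near (by omega) (by omega) (by omega), by omega⟩
  · exact ⟨_, (n - P + v) / 2, (n - P - v) / 2, sol_far (by omega) (by omega) (by omega),
      by omega⟩

theorem even_sol {n P v : ℕ} [NeZero n] (hP : 2 * P ≤ n) (hv : v ≤ P)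
    (hpar : P % 2 = v % 2) :
    ∃ (z : ZMod n) (a b : ℕ), Sol (P : ZMod n) z a b ∧ a = b + v :=
  ⟨_, (P + v) / 2, (P - v) / 2, sol_near (by omega) (by omega) (by omega), by omega⟩

theorem even_sol2 {n P v : ℕ} [NeZero n] (hn : n % 2 = 0) (hP : 2 * P ≤ n) (hv : v ≤ P)
    (hpar : P % 2 = v % 2) (hvn : 2 * v < n) :
    ∃ (z z' : ZMod n) (a b a' b' : ℕ), Sol (P : ZMod n) z a b ∧ a = b + v ∧
      Sol (P : ZMod n) z' a' b' ∧ a' = b' + v ∧ z ≠ z' := by
  refine ⟨_, _, (P + v) / 2, (P - v) / 2, (n - P + v) / 2, (n - P - v) / 2,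
    sol_near (by omega) (by omega) (by omega), by omega,
    sol_far (by omega) (by omega) (by omega), by omega, ?_⟩
  exact natCast_ne_neg (by omega) (by omega)

theorem one_ne_neg_one {n : ℕ} [NeZero n] (hn : 3 ≤ n) : (1 : ZMod n) ≠ -1 := by
  have := natCast_ne_neg (n := n) (a := 1) (b := 1) (by omega) (by omega)
  simpa using this

theorem two_ne_neg_two {n : ℕ} [NeZero n] (hn : 5 ≤ n) : (2 : ZMod n) ≠ -2 := by
  have := natCast_ne_neg (n := n) (a := 2) (b := 2) (by omega) (by omega)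
  simpa using this

theorem two_ne_neg_one {n : ℕ} [NeZero n] (hn : 4 ≤ n) : (2 : ZMod n) ≠ -1 := by
  have := natCast_ne_neg (n := n) (a := 2) (b := 1) (by omega) (by omega)
  simpa using this

theorem one_ne_two {n : ℕ} [NeZero n] (hn : 3 ≤ n) : (1 : ZMod n) ≠ 2 := by
  have := natCast_ne (n := n) (a := 1) (b := 2) (by omega) (by omega) (by omega)
  simpa using this

/-- First coordinate `0`, one midpoint in the second coordinate, `s ≥ 5`. -/
theorem to_zero_five {s t : ℕ} [NeZero s] {q m : ZMod t} {c : ℕ} (hs : 5 ≤ s)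
    (h : Sol q m c c) : TO ((0 : ZMod s), q) :=
  TO.of_zero (x := 1) (x' := 2) h h (one_ne_neg_one (by omega)) (two_ne_neg_two (by omega))
    (Or.inl (one_ne_two (by omega))) (Or.inl (two_ne_neg_one (by omega)))

/-- First coordinate `0`, two midpoints in the second coordinate, `s ≥ 3`. -/
theorem to_zero_two {s t : ℕ} [NeZero s] {q m m' : ZMod t} {c c' : ℕ} (hs : 3 ≤ s)
    (h : Sol q m c c) (h' : Sol q m' c' c') (hne : m ≠ m') :
    TO ((0 : ZMod s), q) :=
  TO.of_zero (x := 1) (x' := 1) h h' (one_ne_neg_one (by omega)) (one_ne_neg_one (by omega))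
    (Or.inr hne) (Or.inl (one_ne_neg_one (by omega)))

theorem TO.of_add {s t : ℕ} {p : ZMod s} {q : ZMod t} {z1 z1' : ZMod s} {z2 z2' : ZMod t}
    {a b a' b' c d c' d' v : ℕ} (h1 : Sol p z1 a b) (h2 : Sol q z2 c d) (h1' : Sol p z1' a' b')
    (h2' : Sol q z2' c' d') (ha : a = b + v) (hb : d = c + v) (ha' : a' = b' + v)
    (hb' : d' = c' + v) (hv : 0 < v) (hne : z1 ≠ z1' ∨ z2 ≠ z2') :
    TO (p, q) :=
  TO.of_sol_same h1 h2 h1' h2' (by omega) (by omega) (by omega) (by omega) hne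

theorem to_odd_odd {s t P Q : ℕ} [NeZero s] [NeZero t] (hs : s % 2 = 1) (ht : t % 2 = 1)
    (hs5 : 5 ≤ s) (ht5 : 5 ≤ t) (hP : 2 * P ≤ s) (hQ : 2 * Q ≤ t) :
    TO ((P : ZMod s), (Q : ZMod t)) := by
  rcases Nat.eq_zero_or_pos P with rfl | hP0
  · obtain ⟨z, a, b, hz, hab⟩ := odd_sol (v := 0) ht hQ (by omega)
    have : a = b := by omega
    subst this
    rw [Nat.cast_zero]
    exact to_zero_five hs5 hz
  rcases Nat.eq_zero_or_pos Q with rfl | hQ0
  · obtain ⟨z, a, b, hz, hab⟩ := odd_sol (v := 0) hs hP (by omega)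
    have : a = b := by omega
    subst this
    rw [Nat.cast_zero]
    exact (to_zero_five ht5 hz).swap
  rcases eq_or_ne P 1 with rfl | hP1
  · obtain ⟨z, a, b, hz, hab⟩ := odd_sol (v := 1) ht hQ (by omega)
    have h1 : Sol ((1 : ℕ) : ZMod s) ((1 : ℕ) : ZMod s) 1 0 :=
      sol_near (by omega) (by omega) (by omega)
    have h2 : Sol ((1 : ℕ) : ZMod s) ((2 : ℕ) : ZMod s) 2 1 := by
      refine ⟨nz_natCast (by omega), ?_⟩
      have : ((1 : ℕ) : ZMod s) - ((2 : ℕ) : ZMod s) = -((1 : ℕ) : ZMod s) := by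
        push_cast; ring
      rw [this, nz_neg, nz_natCast (by omega)]
    exact TO.of_add h1 hz.flip h2 hz.flip (v := 1) (by omega) (by omega) (by omega) (by omega)
      (by omega) (Or.inl (natCast_ne (by omega) (by omega) (by omega)))
  rcases eq_or_ne Q 1 with rfl | hQ1
  · obtain ⟨z, a, b, hz, hab⟩ := odd_sol (v := 1) hs hP (by omega)
    have h1 : Sol ((1 : ℕ) : ZMod t) ((1 : ℕ) : ZMod t) 1 0 :=
      sol_near (by omega) (by omega) (by omega)
    have h2 : Sol ((1 : ℕ) : ZMod t) ((2 : ℕ) : ZMod t) 2 1 := by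
      refine ⟨nz_natCast (by omega), ?_⟩
      have : ((1 : ℕ) : ZMod t) - ((2 : ℕ) : ZMod t) = -((1 : ℕ) : ZMod t) := by
        push_cast; ring
      rw [this, nz_neg, nz_natCast (by omega)]
    exact (TO.of_add h1 hz.flip h2 hz.flip (v := 1) (by omega) (by omega) (by omega) (by omega)
      (by omega) (Or.inl (natCast_ne (by omega) (by omega) (by omega)))).swap
  obtain ⟨z1, a1, b1, hz1, hab1⟩ := odd_sol (v := 1) hs hP (by omega)
  obtain ⟨z2, a2, b2, hz2, hab2⟩ := odd_sol (v := 1) ht hQ (by omega)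
  obtain ⟨z3, a3, b3, hz3, hab3⟩ := odd_sol (v := 2) hs hP (by omega)
  obtain ⟨z4, a4, b4, hz4, hab4⟩ := odd_sol (v := 2) ht hQ (by omega)
  exact TO.of_sol_diff hz1 hz2.flip hz3 hz4.flip (by omega) (by omega) (by omega) (by omega)

theorem to_even_even {s t P Q : ℕ} [NeZero s] [NeZero t] (hs : s % 2 = 0) (ht : t % 2 = 0)
    (hs4 : 4 ≤ s) (ht4 : 4 ≤ t) (h6 : 6 ≤ s ∨ 6 ≤ t) (hP : 2 * P ≤ s) (hQ : 2 * Q ≤ t)
    (hPQ : P % 2 = Q % 2) :
    TO ((P : ZMod s), (Q : ZMod t)) := by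
  rcases Nat.eq_zero_or_pos P with rfl | hP0
  · obtain ⟨z, z', a, b, a', b', hz, hab, hz', hab', hne⟩ :=
      even_sol2 (v := 0) ht hQ (by omega) (by omega) (by omega)
    obtain rfl : a = b := by omega
    obtain rfl : a' = b' := by omega
    rw [Nat.cast_zero]
    exact to_zero_two (by omega) hz hz' hne
  rcases Nat.eq_zero_or_pos Q with rfl | hQ0
  · obtain ⟨z, z', a, b, a', b', hz, hab, hz', hab', hne⟩ :=
      even_sol2 (v := 0) hs hP (by omega) (by omega) (by omega)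
    obtain rfl : a = b := by omega
    obtain rfl : a' = b' := by omega
    rw [Nat.cast_zero]
    exact (to_zero_two (by omega) hz hz' hne).swap
  rcases Nat.mod_two_eq_zero_or_one P with hpar | hpar
  · rcases h6 with h6 | h6
    · obtain ⟨z, z', a, b, a', b', hz, hab, hz', hab', hne⟩ :=
        even_sol2 (v := 2) hs hP (by omega) (by omega) (by omega)
      obtain ⟨y, c, d, hy, hcd⟩ := even_sol (v := 2) hQ (by omega) (by omega)
      exact TO.of_add hz hy.flip hz' hy.flip (v := 2) (by omega) (by omega) (by omega) (by omega)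
        (by omega) (Or.inl hne)
    · obtain ⟨z, z', a, b, a', b', hz, hab, hz', hab', hne⟩ :=
        even_sol2 (v := 2) ht hQ (by omega) (by omega) (by omega)
      obtain ⟨y, c, d, hy, hcd⟩ := even_sol (v := 2) hP (by omega) (by omega)
      exact (TO.of_add hz hy.flip hz' hy.flip (v := 2) (by omega) (by omega) (by omega) (by omega)
        (by omega) (Or.inl hne)).swap
  · obtain ⟨z, z', a, b, a', b', hz, hab, hz', hab', hne⟩ :=
      even_sol2 (v := 1) hs hP (by omega) (by omega) (by omega)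
    obtain ⟨y, c, d, hy, hcd⟩ := even_sol (v := 1) hQ (by omega) (by omega)
    exact TO.of_add hz hy.flip hz' hy.flip (v := 1) (by omega) (by omega) (by omega) (by omega)
      (by omega) (Or.inl hne)

theorem to_odd_even {s t P Q : ℕ} [NeZero s] [NeZero t] (hs : s % 2 = 1) (ht : t % 2 = 0)
    (hs5 : 5 ≤ s) (ht6 : 6 ≤ t) (hP : 2 * P ≤ s) (hQ : 2 * Q ≤ t)
    (h1 : ¬ (P = 0 ∧ Q % 2 = 1)) (h2 : ¬ (P = 1 ∧ Q % 2 = 0 ∧ Q ≠ 0)) :
    TO ((P : ZMod s), (Q : ZMod t)) := by
  rcases Nat.eq_zero_or_pos P with rfl | hP0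
  · obtain ⟨z, z', a, b, a', b', hz, hab, hz', hab', hne⟩ :=
      even_sol2 (v := 0) ht hQ (by omega) (by omega) (by omega)
    obtain rfl : a = b := by omega
    obtain rfl : a' = b' := by omega
    rw [Nat.cast_zero]
    exact to_zero_two (by omega) hz hz' hne
  rcases Nat.eq_zero_or_pos Q with rfl | hQ0
  · obtain ⟨z, a, b, hz, hab⟩ := odd_sol (v := 0) hs hP (by omega)
    have : a = b := by omega
    subst this
    rw [Nat.cast_zero]
    exact (to_zero_five (by omega) hz).swap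
  rcases Nat.mod_two_eq_zero_or_one Q with hpar | hpar
  · obtain ⟨z, z', a, b, a', b', hz, hab, hz', hab', hne⟩ :=
      even_sol2 (v := 2) ht hQ (by omega) (by omega) (by omega)
    obtain ⟨y, c, d, hy, hcd⟩ := odd_sol (v := 2) hs hP (by omega)
    exact (TO.of_add hz hy.flip hz' hy.flip (v := 2) (by omega) (by omega) (by omega) (by omega)
      (by omega) (Or.inl hne)).swap
  · obtain ⟨z, z', a, b, a', b', hz, hab, hz', hab', hne⟩ :=
      even_sol2 (v := 1) ht hQ (by omega) (by omega) (by omega)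
    obtain ⟨y, c, d, hy, hcd⟩ := odd_sol (v := 1) hs hP (by omega)
    exact (TO.of_add hz hy.flip hz' hy.flip (v := 1) (by omega) (by omega) (by omega) (by omega)
      (by omega) (Or.inl hne)).swap

theorem to_odd_four {s P Q : ℕ} [NeZero s] (hs : s % 2 = 1)
    (hs5 : 5 ≤ s) (hP : 2 * P ≤ s) (hQ : 2 * Q ≤ 4)
    (h : (P ≠ 0 ∧ Q = 1) ∨ (P = 0 ∧ Q % 2 = 0)) :
    TO ((P : ZMod s), (Q : ZMod 4)) := by
  rcases h with ⟨h1, rfl⟩ | ⟨rfl, h2⟩
  · obtain ⟨z, z', a, b, a', b', hz, hab, hz', hab', hne⟩ :=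
      even_sol2 (n := 4) (P := 1) (v := 1) (by omega) (by omega) (by omega) (by omega) (by omega)
    obtain ⟨y, c, d, hy, hcd⟩ := odd_sol (v := 1) hs hP (by omega)
    exact (TO.of_add hz hy.flip hz' hy.flip (v := 1) (by omega) (by omega) (by omega) (by omega)
      (by omega) (Or.inl hne)).swap
  · obtain ⟨z, z', a, b, a', b', hz, hab, hz', hab', hne⟩ :=
      even_sol2 (n := 4) (v := 0) (by omega) hQ (by omega) (by omega) (by omega)
    obtain rfl : a = b := by omega
    obtain rfl : a' = b' := by omega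
    rw [Nat.cast_zero]
    exact to_zero_two (by omega) hz hz' hne

end Pool.Agent.Lib.MP_7f5033_co
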