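import Pool.Agent.Lib.MP_7f5033_co.Basic
import Pool.Agent.Lib.MP_7f5033_co.FamA
import Pool.Agent.Lib.MP_7f5033_co.FamB
import Pool.Agent.Lib.MP_7f5033_co.FamC

/-!
# The infinite families of resolving sets with four elements
-/

set_option autoImplicit false

open SimpleGraph

namespace Pool.Agent.Lib.MP_7f5033_co

/-- Four points `(0,0), (0,a), (0,b), (1,c)` resolve the torus if the corresponding multisets
determine the coordinates. -/
theorem odim_le_four {s t : ℕ} (hs : 3 ≤ s) (ht : 3 ≤ t) (a b c : ℕ) (ha : a < t) (hb : b < t)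
    (hc : c < t) (ha0 : a ≠ 0) (hb0 : b ≠ 0) (hab : a ≠ b)
    (h : ∀ i j i' j' : ℕ, i < s → j < t → i' < s → j' < t →
      P24 (cd s i 0 + cd t j 0) (cd s i 0 + cd t j a) (cd s i 0 + cd t j b) (cd s i 1 + cd t j c)
        (cd s i' 0 + cd t j' 0) (cd s i' 0 + cd t j' a) (cd s i' 0 + cd t j' b)
        (cd s i' 1 + cd t j' c) → i = i' ∧ j = j') :
    odim (tor s t) ≤ 4 := by
  have := odim_le_of_list hs ht
    [(⟨0, by omega⟩, ⟨0, by omega⟩), (⟨0, by omega⟩, ⟨a, ha⟩), (⟨0, by omega⟩, ⟨b, hb⟩),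
      (⟨1, by omega⟩, ⟨c, hc⟩)] (by
        simp [ha0.symm, hb0.symm, hab]) (by
    intro x y _ _ hm
    have h1 : ({cd s x.1.val 0 + cd t x.2.val 0, cd s x.1.val 0 + cd t x.2.val a,
        cd s x.1.val 0 + cd t x.2.val b, cd s x.1.val 1 + cd t x.2.val c} : Multiset ℕ) =
        {cd s y.1.val 0 + cd t y.2.val 0, cd s y.1.val 0 + cd t y.2.val a,
        cd s y.1.val 0 + cd t y.2.val b, cd s y.1.val 1 + cd t y.2.val c} := hm
    have h2 := h _ _ _ _ x.1.isLt x.2.isLt y.1.isLt y.2.isLt (by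
      have := p24_of_ms h1
      push_cast at this
      exact this)
    apply Prod.ext
    · exact Fin.ext h2.1
    · exact Fin.ext h2.2)
  simpa using this

theorem odim_le_famA {s h : ℕ} (hs : 3 ≤ s) (hs2 : s % 2 = 0) (hh : 7 ≤ h) :
    odim (tor s (2 * h)) ≤ 4 := by
  apply odim_le_four hs (by omega) 3 h (h + 1) (by omega) (by omega) (by omega) (by omega)
    (by omega) (by omega)
  intro i j i' j' hi hj hi' hj' hm
  obtain ⟨e, he, hp⟩ := iprof hs hi
  obtain ⟨e', he', hp'⟩ := iprof hs hi'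
  have hq := jprofA hh hj
  have hq' := jprofA hh hj'
  rw [he, he'] at hm
  have h1 := hp
  have h1' := hp'
  unfold IP at h1 h1'
  have := coreA (h := (h : ℤ)) (by omega) h1.1 h1.2.1 h1'.1 h1'.2.1 (by omega) (by omega)
    hq hq' hm
  obtain ⟨k1, k2, k3⟩ := this
  rw [← k1, ← k2] at hp'
  have := ip_inj hp hp'
  omega

theorem odim_le_famB {s h : ℕ} (hs : 3 ≤ s) (hh : 9 ≤ h) :
    odim (tor s (2 * h + 1)) ≤ 4 := by
  apply odim_le_four hs (by omega) 4 h (h + 1) (by omega) (by omega) (by omega) (by omega)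
    (by omega) (by omega)
  intro i j i' j' hi hj hi' hj' hm
  obtain ⟨e, he, hp⟩ := iprof hs hi
  obtain ⟨e', he', hp'⟩ := iprof hs hi'
  have hq := jprofB hh hj
  have hq' := jprofB hh hj'
  rw [he, he'] at hm
  have h1 := hp
  have h1' := hp'
  unfold IP at h1 h1'
  have := coreB (h := (h : ℤ)) (by omega) h1.1 h1.2.1 h1'.1 h1'.2.1 (by omega) (by omega)
    hq hq' hm
  obtain ⟨k1, k2, k3⟩ := this
  rw [← k1, ← k2] at hp'
  have := ip_inj hp hp'
  omega

theorem odim_le_famC {s h : ℕ} (hs : 3 ≤ s) (hh : 10 ≤ h) :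
    odim (tor s (2 * h)) ≤ 4 := by
  apply odim_le_four hs (by omega) 4 (h + 1) (h - 1) (by omega) (by omega) (by omega) (by omega)
    (by omega) (by omega)
  intro i j i' j' hi hj hi' hj' hm
  obtain ⟨e, he, hp⟩ := iprof hs hi
  obtain ⟨e', he', hp'⟩ := iprof hs hi'
  have hq := jprofC hh hj
  have hq' := jprofC hh hj'
  rw [he, he'] at hm
  have h1 := hp
  have h1' := hp'
  unfold IP at h1 h1'
  have := coreC (h := (h : ℤ)) (by omega) h1.1 h1.2.1 h1'.1 h1'.2.1 (by omega) (by omega)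
    hq hq' hm
  obtain ⟨k1, k2, k3⟩ := this
  rw [← k1, ← k2] at hp'
  have := ip_inj hp hp'
  omega

end Pool.Agent.Lib.MP_7f5033_co
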